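import Mathlib

/-!
Mixed metric dimension versus cyclomatic number: BFS tree argument.
-/

namespace Pool.Agent.X283.MMD

open Finset

variable {V : Type*} (G : SimpleGraph V)

/-- distance from the vertex `s` to the edge `e` -/
noncomputable def edgeDist (s : V) (e : Sym2 V) : ℕ :=
  Sym2.lift ⟨fun a b => min (G.dist s a) (G.dist s b), fun _ _ => min_comm _ _⟩ e

@[simp] lemma edgeDist_mk (s a b : V) :
    edgeDist G s s(a, b) = min (G.dist s a) (G.dist s b) := rfl

/-- distance from the vertex `s` to an element (vertex or edge) of the graph -/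
noncomputable def elemDist (s : V) : V ⊕ G.edgeSet → ℕ
  | .inl v => G.dist s v
  | .inr e => edgeDist G s e.1

/-- mixed resolving set -/
def MixedResolving (S : Finset V) : Prop :=
  ∀ x y : V ⊕ G.edgeSet, x ≠ y → ∃ s ∈ S, elemDist G s x ≠ elemDist G s y

/-- `s` is a descendant of `u` with respect to the root `r` -/
def Desc (r u s : V) : Prop := G.dist u s + G.dist r u = G.dist r s

variable {G}

lemma adj_le (hG : G.Connected) (r : V) {a b : V} (h : G.Adj a b) :
    G.dist r b ≤ G.dist r a + 1 := by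
  have h1 := hG.dist_triangle (u := r) (v := a) (w := b)
  have h2 : G.dist a b = 1 := SimpleGraph.dist_eq_one_iff_adj.mpr h
  omega

/-- last step of a geodesic -/
lemma exists_pred (hG : G.Connected) {u m : V} (hne : u ≠ m) :
    ∃ a, G.Adj a m ∧ G.dist u a + 1 = G.dist u m := by
  obtain ⟨p, hp⟩ := hG.exists_walk_length_eq_dist m u
  cases p with
  | nil => exact absurd rfl hne
  | cons h q =>
    rename_i a
    refine ⟨a, h.symm, ?_⟩
    have h1 : G.dist a u ≤ q.length := SimpleGraph.dist_le q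
    have h2 : G.dist m u ≤ G.dist a u + 1 := by
      have := adj_le hG u h.symm
      rwa [G.dist_comm (u := u) (v := m), G.dist_comm (u := u) (v := a)] at this
    simp only [SimpleGraph.Walk.length_cons] at hp
    rw [G.dist_comm (u := u) (v := a), G.dist_comm (u := u) (v := m)]
    omega

lemma le_of_any (hG : G.Connected) (r u s : V) :
    G.dist r s ≤ G.dist u s + G.dist r u := by
  have h1 := hG.dist_triangle (u := r) (v := u) (w := s)
  omega

lemma Desc.trans' (hG : G.Connected) {r u m s : V} (h1 : Desc G r u m) (h2 : Desc G r m s) :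
    Desc G r u s := by
  unfold Desc at *
  have h3 := hG.dist_triangle (u := u) (v := m) (w := s)
  have h4 := le_of_any hG r u s
  omega

lemma Desc.refl' (r u : V) : Desc G r u u := by
  unfold Desc; simp

lemma Desc.pred (hG : G.Connected) {r u m : V} (h : Desc G r u m) (hne : u ≠ m) :
    ∃ a, G.Adj a m ∧ G.dist r m = G.dist r a + 1 ∧ Desc G r u a ∧ Desc G r a m := by
  obtain ⟨a, ha, hd⟩ := exists_pred hG hne
  have h1 := adj_le hG r ha
  have h2 := le_of_any hG r u a
  have h3 : G.dist a m = 1 := SimpleGraph.dist_eq_one_iff_adj.mpr ha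
  unfold Desc at *
  refine ⟨a, ha, ?_, ?_, ?_⟩ <;> omega

lemma Desc.succ (hG : G.Connected) {r u m : V} (h : Desc G r u m) (hne : u ≠ m) :
    ∃ a, G.Adj u a ∧ G.dist r a = G.dist r u + 1 ∧ Desc G r a m := by
  obtain ⟨a, ha, hd⟩ := exists_pred hG (Ne.symm hne)
  rw [G.dist_comm (u := m) (v := a), G.dist_comm (u := m) (v := u)] at hd
  have h1 := adj_le hG r ha.symm
  have h2 := le_of_any hG r a m
  unfold Desc at *
  refine ⟨a, ha.symm, ?_, ?_⟩ <;> omega

lemma Desc.of_adj {r u a : V} (ha : G.Adj u a) (h : G.dist r a = G.dist r u + 1) :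
    Desc G r u a := by
  have h3 : G.dist u a = 1 := SimpleGraph.dist_eq_one_iff_adj.mpr ha
  unfold Desc
  omega

lemma Desc.le {r u a : V} (h : Desc G r u a) : G.dist r u ≤ G.dist r a := by
  unfold Desc at h
  omega

lemma Desc.eq_of_le (hG : G.Connected) {r u a : V} (h : Desc G r u a)
    (hle : G.dist r a ≤ G.dist r u) : u = a := by
  unfold Desc at h
  have : G.dist u a = 0 := by omega
  exact (hG.dist_eq_zero_iff).mp this

/-- merging lemma -/
lemma merge (hG : G.Connected) {r : V} {par : V → V} {u v s : V} (huv : u ≠ v)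
    (hh : G.dist r u = G.dist r v) (hu : Desc G r u s) (hv : Desc G r v s) :
    ∃ a m, G.Adj a m ∧ G.dist r m = G.dist r a + 1 ∧ a ≠ par m ∧
      ((Desc G r u a ∧ ¬ Desc G r v a) ∨ (Desc G r v a ∧ ¬ Desc G r u a)) := by
  classical
  -- choose m minimal
  have hex : ∃ n, ∃ m, G.dist r m = n ∧ Desc G r u m ∧ Desc G r v m ∧ Desc G r m s :=
    ⟨_, s, rfl, hu, hv, Desc.refl' r s⟩
  obtain ⟨m, hm0, hum, hvm, hms⟩ := Nat.find_spec hex
  have hmin : ∀ m', Desc G r u m' → Desc G r v m' → Desc G r m' s →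
      G.dist r m ≤ G.dist r m' := by
    intro m' h1 h2 h3
    rw [hm0]
    exact Nat.find_min' hex ⟨m', rfl, h1, h2, h3⟩
  have hum' : u ≠ m := by
    rintro rfl
    exact huv (hvm.eq_of_le hG (by omega)).symm
  have hvm' : v ≠ m := by
    rintro rfl
    exact huv (hum.eq_of_le hG (by omega))
  obtain ⟨a, ha, hda, hua, ham⟩ := hum.pred hG hum'
  obtain ⟨b, hb, hdb, hvb, hbm⟩ := hvm.pred hG hvm'
  have hva : ¬ Desc G r v a := by
    intro h
    have := hmin a hua h (ham.trans' hG hms)
    omega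
  have hub : ¬ Desc G r u b := by
    intro h
    have := hmin b h hvb (hbm.trans' hG hms)
    omega
  by_cases hp : a = par m
  · refine ⟨b, m, hb, hdb, ?_, Or.inr ⟨hvb, hub⟩⟩
    rintro rfl
    rw [← hp] at hvb
    exact hva hvb
  · exact ⟨a, m, ha, hda, hp, Or.inl ⟨hua, hva⟩⟩

/-- hypotheses under which a set containing the root is mixed resolving -/
structure Good (G : SimpleGraph V) (r : V) (par : V → V) (S : Finset V) (w : V) : Prop where
  root : r ∈ S
  desc : ∀ v, ∃ s ∈ S, Desc G r v s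
  upper : ∀ a m, G.Adj a m → G.dist r m = G.dist r a + 1 → a ≠ par m → a ∈ S
  hor : ∀ x y, G.Adj x y → G.dist r x = G.dist r y → x ≠ w → x ∈ S
  horw : ∀ y, G.Adj w y → G.dist r w = G.dist r y → w ∈ S ∨
    ∃ s ∈ S, Desc G r w s ∧ ¬ Desc G r y s

variable {r : V} {par : V → V} {S : Finset V} {w : V}

lemma not_desc (hG : G.Connected) {r v s : V} (h : ¬ Desc G r v s) :
    G.dist r s < G.dist s v + G.dist r v := by
  have := le_of_any hG r v s
  unfold Desc at h
  rw [G.dist_comm (u := s) (v := v)]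
  omega

lemma desc_dist {r v s : V} (h : Desc G r v s) :
    G.dist s v + G.dist r v = G.dist r s := by
  unfold Desc at h
  rw [G.dist_comm (u := s) (v := v)]
  omega

lemma ge_dist (hG : G.Connected) (r v s : V) :
    G.dist r s ≤ G.dist s v + G.dist r v := by
  have := le_of_any hG r v s
  rw [G.dist_comm (u := s) (v := v)]
  omega

lemma key (hG : G.Connected) (hS : Good G r par S w) {u v : V} (huv : u ≠ v)
    (hh : G.dist r u = G.dist r v) :
    ∃ s ∈ S, (Desc G r u s ∧ ¬ Desc G r v s) ∨ (Desc G r v s ∧ ¬ Desc G r u s) := by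
  by_contra hcon
  push Not at hcon
  obtain ⟨s, hs, hus⟩ := hS.desc u
  have hvs := (hcon s hs).1 hus
  obtain ⟨a, m, ha, hd, hp, hor⟩ := merge (par := par) hG huv hh hus hvs
  have haS := hS.upper a m ha hd hp
  rcases hor with ⟨h1, h2⟩ | ⟨h1, h2⟩
  · exact h2 ((hcon a haS).1 h1)
  · exact h2 ((hcon a haS).2 h1)

lemma dist_pos (hG : G.Connected) {a b : V} (h : a ≠ b) : 0 < G.dist a b :=
  hG.pos_dist_of_ne h

/-- vertices -/
lemma sep_vv (hG : G.Connected) (hS : Good G r par S w) {u v : V} (huv : u ≠ v) :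
    ∃ s ∈ S, G.dist s u ≠ G.dist s v := by
  by_cases hh : G.dist r u = G.dist r v
  · obtain ⟨s, hs, ⟨h1, h2⟩ | ⟨h1, h2⟩⟩ := key hG hS huv hh
    · have e1 := desc_dist h1
      have e2 := not_desc hG h2
      exact ⟨s, hs, by omega⟩
    · have e1 := desc_dist h1
      have e2 := not_desc hG h2
      exact ⟨s, hs, by omega⟩
  · exact ⟨r, hS.root, hh⟩

/-- vertex and vertical edge -/
lemma sep_v_vert (hG : G.Connected) (hS : Good G r par S w) {u a b : V}
    (hd : G.dist r b = G.dist r a + 1) :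
    ∃ s ∈ S, G.dist s u ≠ min (G.dist s a) (G.dist s b) := by
  by_cases hh : G.dist r u = G.dist r a
  · obtain ⟨s, hs, hb⟩ := hS.desc b
    have e1 := desc_dist hb
    have e2 := ge_dist hG r u s
    refine ⟨s, hs, ?_⟩
    have : min (G.dist s a) (G.dist s b) ≤ G.dist s b := min_le_right _ _
    omega
  · refine ⟨r, hS.root, ?_⟩
    rw [min_eq_left (by omega)]
    exact hh

/-- vertex and horizontal edge -/
lemma sep_v_hor (hG : G.Connected) (hS : Good G r par S w) {u a b : V} (hab : G.Adj a b)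
    (hd : G.dist r a = G.dist r b) :
    ∃ s ∈ S, G.dist s u ≠ min (G.dist s a) (G.dist s b) := by
  have hne : a ≠ b := hab.ne
  by_cases h1 : a ∈ S ∧ u ≠ a
  · refine ⟨a, h1.1, ?_⟩
    have := dist_pos hG h1.2.symm
    rw [SimpleGraph.dist_self]; omega
  by_cases h2 : b ∈ S ∧ u ≠ b
  · refine ⟨b, h2.1, ?_⟩
    have := dist_pos hG h2.2.symm
    rw [SimpleGraph.dist_self]; omega
  -- wlog a = w not in S
  by_cases ha : a ∈ S
  · have hua : u = a := by
      by_contra h; exact h1 ⟨ha, h⟩
    have hb : b ∉ S := by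
      intro hb
      apply h2 ⟨hb, ?_⟩
      rw [hua]; exact hne
    have hbw : b = w := by
      by_contra h
      exact hb (hS.hor b a hab.symm hd.symm h)
    subst hbw
    rcases hS.horw a hab.symm hd.symm with h | ⟨s, hs, h3, h4⟩
    · exact absurd h hb
    · refine ⟨s, hs, ?_⟩
      have e1 := desc_dist h3
      have e2 := not_desc hG h4
      have : min (G.dist s a) (G.dist s b) ≤ G.dist s b := min_le_right _ _
      rw [hua]
      omega
  · have haw : a = w := by
      by_contra h
      exact ha (hS.hor a b hab hd h)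
    have hb : b ∈ S := hS.hor b a hab.symm hd.symm (by rw [← haw]; exact hne.symm)
    have hub : u = b := by
      by_contra h; exact h2 ⟨hb, h⟩
    subst haw
    rcases hS.horw b hab hd with h | ⟨s, hs, h3, h4⟩
    · exact absurd h ha
    · refine ⟨s, hs, ?_⟩
      have e1 := desc_dist h3
      have e2 := not_desc hG h4
      have : min (G.dist s a) (G.dist s b) ≤ G.dist s a := min_le_left _ _
      rw [hub]
      omega

/-- vertical and horizontal edge -/
lemma sep_vert_hor (hG : G.Connected) (hS : Good G r par S w) {a b c d : V}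
    (hd : G.dist r b = G.dist r a + 1) (hcd : G.dist r c = G.dist r d) :
    ∃ s ∈ S, min (G.dist s a) (G.dist s b) ≠ min (G.dist s c) (G.dist s d) := by
  by_cases hh : G.dist r a = G.dist r c
  · obtain ⟨s, hs, hb⟩ := hS.desc b
    have e1 := desc_dist hb
    have e2 := ge_dist hG r c s
    have e3 := ge_dist hG r d s
    refine ⟨s, hs, ?_⟩
    omega
  · refine ⟨r, hS.root, ?_⟩
    omega

/-- two vertical edges -/
lemma sep_vert_vert (hG : G.Connected) (hS : Good G r par S w) {a b c d : V}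
    (hab : G.Adj a b) (hcd : G.Adj c d)
    (h1 : G.dist r b = G.dist r a + 1) (h2 : G.dist r d = G.dist r c + 1)
    (hne : ¬ (a = c ∧ b = d)) :
    ∃ s ∈ S, min (G.dist s a) (G.dist s b) ≠ min (G.dist s c) (G.dist s d) := by
  by_cases hh : G.dist r a = G.dist r c
  · by_cases hbd : b = d
    · subst hbd
      have hac : a ≠ c := fun h => hne ⟨h, rfl⟩
      by_cases hp : a = par b
      · have hc : c ∈ S := hS.upper c b hcd h2 (by rw [← hp]; exact hac.symm)
        refine ⟨c, hc, ?_⟩
        have e1 := dist_pos hG hac.symm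
        have e2 := dist_pos hG hcd.ne
        rw [SimpleGraph.dist_self]; omega
      · have ha : a ∈ S := hS.upper a b hab h1 hp
        refine ⟨a, ha, ?_⟩
        have e1 := dist_pos hG hac
        have e2 := dist_pos hG hab.ne
        rw [SimpleGraph.dist_self]; omega
    · obtain ⟨s, hs, ⟨h3, h4⟩ | ⟨h3, h4⟩⟩ := key hG hS hbd (by omega)
      · have e1 := desc_dist h3
        have e2 := not_desc hG h4
        have e3 := ge_dist hG r c s
        exact ⟨s, hs, by omega⟩
      · have e1 := desc_dist h3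
        have e2 := not_desc hG h4
        have e3 := ge_dist hG r a s
        exact ⟨s, hs, by omega⟩
  · refine ⟨r, hS.root, ?_⟩
    omega

/-- two horizontal edges -/
lemma sep_hor_hor (hG : G.Connected) (hS : Good G r par S w) {a b c d : V}
    (hab : G.Adj a b) (hcd : G.Adj c d)
    (h1 : G.dist r a = G.dist r b) (h2 : G.dist r c = G.dist r d)
    (hne : s(a, b) ≠ s(c, d)) :
    ∃ s ∈ S, min (G.dist s a) (G.dist s b) ≠ min (G.dist s c) (G.dist s d) := by
  by_contra hcon
  push Not at hcon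
  have hz : ∀ s x y : V, min (G.dist s x) (G.dist s y) = 0 ↔ (s = x ∨ s = y) := by
    intro s x y
    rw [Nat.min_eq_zero_iff, hG.dist_eq_zero_iff, hG.dist_eq_zero_iff]
  have hmem : ∀ s ∈ S, (s = a ∨ s = b) ↔ (s = c ∨ s = d) := by
    intro s hs
    rw [← hz, ← hz, hcon s hs]
  have hab' := hab.ne
  have hcd' := hcd.ne
  have ha : a ≠ w → (a = c ∨ a = d) := fun h =>
    (hmem a (hS.hor a b hab h1 h)).1 (Or.inl rfl)
  have hb : b ≠ w → (b = c ∨ b = d) := fun h =>
    (hmem b (hS.hor b a hab.symm h1.symm h)).1 (Or.inr rfl)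
  have hc : c ≠ w → (c = a ∨ c = b) := fun h =>
    (hmem c (hS.hor c d hcd h2 h)).2 (Or.inl rfl)
  have hd : d ≠ w → (d = a ∨ d = b) := fun h =>
    (hmem d (hS.hor d c hcd.symm h2.symm h)).2 (Or.inr rfl)
  apply hne
  rw [Sym2.eq_iff]
  by_cases haw : a = w
  · have hb' := hb (by rw [← haw]; exact hab'.symm)
    rcases hb' with h | h
    · have hdw : d = w := by
        by_contra hdw
        rcases hd hdw with h' | h'
        · exact hdw (h'.trans haw)
        · exact hcd' (h.symm.trans h'.symm)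
      right; exact ⟨haw.trans hdw.symm, h⟩
    · have hcw : c = w := by
        by_contra hcw
        rcases hc hcw with h' | h'
        · exact hcw (h'.trans haw)
        · exact hcd' (h'.trans h)
      left; exact ⟨haw.trans hcw.symm, h⟩
  · rcases ha haw with h | h
    · left
      refine ⟨h, ?_⟩
      by_cases hbw : b = w
      · have hdw : d = w := by
          by_contra hdw
          rcases hd hdw with h' | h'
          · exact hcd' (h.symm.trans h'.symm)
          · exact hdw (h'.trans hbw)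
        exact hbw.trans hdw.symm
      · rcases hb hbw with h' | h'
        · exact absurd (h.trans h'.symm) hab'
        · exact h'
    · right
      refine ⟨h, ?_⟩
      by_cases hbw : b = w
      · have hcw : c = w := by
          by_contra hcw
          rcases hc hcw with h' | h'
          · exact hcd' (h'.trans h)
          · exact hcw (h'.trans hbw)
        exact hbw.trans hcw.symm
      · rcases hb hbw with h' | h'
        · exact h'
        · exact absurd (h.trans h'.symm) hab'

/-- normal form of an edge -/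
lemma edge_cases (hG : G.Connected) (r : V) (e : G.edgeSet) :
    (∃ a b, G.Adj a b ∧ e.1 = s(a, b) ∧ G.dist r b = G.dist r a + 1) ∨
    (∃ a b, G.Adj a b ∧ e.1 = s(a, b) ∧ G.dist r a = G.dist r b) := by
  obtain ⟨e, he⟩ := e
  induction e with
  | _ a b =>
    have hab : G.Adj a b := by simpa using he
    have h1 := adj_le hG r hab
    have h2 := adj_le hG r hab.symm
    rcases Nat.lt_trichotomy (G.dist r a) (G.dist r b) with h | h | h
    · left; exact ⟨a, b, hab, rfl, by omega⟩
    · right; exact ⟨a, b, hab, rfl, h⟩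
    · left; exact ⟨b, a, hab.symm, Sym2.eq_swap, by omega⟩

theorem Good.resolving (hG : G.Connected) (hS : Good G r par S w) : MixedResolving G S := by
  have hve : ∀ (u : V) (e : G.edgeSet), ∃ s ∈ S, G.dist s u ≠ edgeDist G s e.1 := by
    intro u e
    rcases edge_cases hG r e with ⟨a, b, hab, he, hd⟩ | ⟨a, b, hab, he, hd⟩
    · rw [he]; exact sep_v_vert hG hS hd
    · rw [he]; exact sep_v_hor hG hS hab hd
  rintro (u | e) (v | f) hne
  · exact sep_vv hG hS (fun h => hne (by rw [h]))
  · exact hve u f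
  · obtain ⟨s, hs, h⟩ := hve v e
    exact ⟨s, hs, h.symm⟩
  · have hne' : e.1 ≠ f.1 := fun h => hne (by rw [Subtype.ext h])
    simp only [elemDist]
    rcases edge_cases hG r e with ⟨a, b, hab, he, hd⟩ | ⟨a, b, hab, he, hd⟩ <;>
    rcases edge_cases hG r f with ⟨a', b', hab', he', hd'⟩ | ⟨a', b', hab', he', hd'⟩ <;>
    rw [he, he'] at hne' ⊢ <;> simp only [edgeDist_mk]
    · apply sep_vert_vert hG hS hab hab' hd hd'
      rintro ⟨rfl, rfl⟩
      exact hne' rfl
    · exact sep_vert_hor hG hS hd hd'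
    · obtain ⟨s, hs, h⟩ := sep_vert_hor hG hS hd' hd
      exact ⟨s, hs, h.symm⟩
    · exact sep_hor_hor hG hS hab hab' hd hd' hne'

/-! ### counting -/

section Count

variable [Fintype V] [DecidableEq V] [DecidableRel G.Adj]

/-- parent function of a BFS tree -/
structure IsPar (G : SimpleGraph V) (r : V) (par : V → V) : Prop where
  root : par r = r
  adj : ∀ v, v ≠ r → G.Adj (par v) v
  dist : ∀ v, v ≠ r → G.dist r v = G.dist r (par v) + 1

omit [Fintype V] [DecidableEq V] [DecidableRel G.Adj] in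
lemma exists_par (hG : G.Connected) (r : V) : ∃ par, IsPar G r par := by
  classical
  have h : ∀ v, ∃ p, v ≠ r → G.Adj p v ∧ G.dist r v = G.dist r p + 1 := by
    intro v
    by_cases hv : v = r
    · exact ⟨v, fun h => absurd hv h⟩
    · obtain ⟨a, ha, hd⟩ := exists_pred hG (Ne.symm hv)
      exact ⟨a, fun _ => ⟨ha, by omega⟩⟩
  choose f hf using h
  refine ⟨fun v => if v = r then r else f v, ?_, ?_, ?_⟩
  · simp
  · intro v hv
    simp only [hv, if_false]
    exact (hf v hv).1
  · intro v hv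
    simp only [hv, if_false]
    exact (hf v hv).2

omit [Fintype V] [DecidableEq V] [DecidableRel G.Adj] in
lemma IsPar.fact (hp : IsPar G r par) {a b : V} (hab : G.Adj a b) (h : a = par b) :
    G.dist r b = G.dist r a + 1 := by
  have hb : b ≠ r := by
    rintro rfl
    rw [hp.root] at h
    exact hab.ne h
  rw [h]
  exact hp.dist b hb

/-- non-tree ordered pairs -/
def ntd (G : SimpleGraph V) [DecidableRel G.Adj] (par : V → V) : Finset (V × V) :=
  univ.filter (fun p => G.Adj p.1 p.2 ∧ p.1 ≠ par p.2 ∧ p.2 ≠ par p.1)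

lemma mem_ntd {a b : V} : (a, b) ∈ ntd G par ↔ G.Adj a b ∧ a ≠ par b ∧ b ≠ par a := by
  simp [ntd]

omit [DecidableEq V] in
lemma card_pairs : (univ.filter (fun p : V × V => G.Adj p.1 p.2)).card = 2 * G.edgeFinset.card := by
  rw [← SimpleGraph.sum_degrees_eq_twice_card_edges, Finset.card_filter, Fintype.sum_prod_type]
  apply Finset.sum_congr rfl
  intro a _
  rw [← SimpleGraph.card_neighborFinset_eq_degree, SimpleGraph.neighborFinset_eq_filter,
    Finset.card_filter]

lemma card_ntd (hp : IsPar G r par) :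
    (ntd G par).card + 2 * Fintype.card V ≤ 2 * G.edgeFinset.card + 2 := by
  rw [← card_pairs]
  set T1 : Finset (V × V) := (univ.erase r).image (fun v => (par v, v)) with hT1
  set T2 : Finset (V × V) := (univ.erase r).image (fun v => (v, par v)) with hT2
  have c1 : T1.card = Fintype.card V - 1 := by
    rw [hT1, Finset.card_image_of_injective _ (fun a b h => by simpa using congrArg Prod.snd h),
      Finset.card_erase_of_mem (mem_univ _), Finset.card_univ]
  have c2 : T2.card = Fintype.card V - 1 := by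
    rw [hT2, Finset.card_image_of_injective _ (fun a b h => by simpa using congrArg Prod.fst h),
      Finset.card_erase_of_mem (mem_univ _), Finset.card_univ]
  have hm1 : ∀ a b, (a, b) ∈ T1 → G.Adj a b ∧ a = par b := by
    intro a b h
    simp only [hT1, mem_image, mem_erase, mem_univ, and_true, Prod.mk.injEq] at h
    obtain ⟨v, hv, rfl, rfl⟩ := h
    exact ⟨hp.adj _ hv, rfl⟩
  have hm2 : ∀ a b, (a, b) ∈ T2 → G.Adj a b ∧ b = par a := by
    intro a b h
    simp only [hT2, mem_image, mem_erase, mem_univ, and_true, Prod.mk.injEq] at h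
    obtain ⟨v, hv, rfl, rfl⟩ := h
    exact ⟨(hp.adj _ hv).symm, rfl⟩
  have d12 : Disjoint T1 T2 := by
    rw [Finset.disjoint_left]
    rintro ⟨a, b⟩ h1 h2
    obtain ⟨h3, h4⟩ := hm1 a b h1
    obtain ⟨h5, h6⟩ := hm2 a b h2
    have e1 := hp.fact h3 h4
    have e2 := hp.fact h3.symm h6
    omega
  have d3 : Disjoint (ntd G par) (T1 ∪ T2) := by
    rw [Finset.disjoint_left]
    rintro ⟨a, b⟩ h1 h2
    rw [mem_ntd] at h1
    rcases mem_union.1 h2 with h | h
    · exact h1.2.1 (hm1 a b h).2
    · exact h1.2.2 (hm2 a b h).2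
  have hsub : ntd G par ∪ (T1 ∪ T2) ⊆ univ.filter (fun p : V × V => G.Adj p.1 p.2) := by
    rintro ⟨a, b⟩ h
    simp only [mem_filter, mem_univ, true_and]
    rcases mem_union.1 h with h | h
    · exact (mem_ntd.1 h).1
    · rcases mem_union.1 h with h | h
      · exact (hm1 a b h).1
      · exact (hm2 a b h).1
  have := Finset.card_le_card hsub
  rw [Finset.card_union_of_disjoint d3, Finset.card_union_of_disjoint d12, c1, c2] at this
  have hpos : 0 < Fintype.card V := Fintype.card_pos_iff.2 ⟨r⟩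
  omega

omit [DecidableEq V] [DecidableRel G.Adj] in
/-- the basic set -/
noncomputable def S0 (G : SimpleGraph V) (r : V) (par : V → V) : Finset V :=
  @Finset.filter V (fun v => (∃ m, G.Adj v m ∧ G.dist r m = G.dist r v + 1 ∧ v ≠ par m) ∨
    (∃ y, G.Adj v y ∧ G.dist r v = G.dist r y) ∨
    (∀ b, G.Adj v b → G.dist r b ≤ G.dist r v)) (Classical.decPred _) univ

omit [DecidableEq V] [DecidableRel G.Adj] in
lemma mem_S0 {v : V} : v ∈ S0 G r par ↔
    (∃ m, G.Adj v m ∧ G.dist r m = G.dist r v + 1 ∧ v ≠ par m) ∨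
    (∃ y, G.Adj v y ∧ G.dist r v = G.dist r y) ∨
    (∀ b, G.Adj v b → G.dist r b ≤ G.dist r v) := by
  classical
  unfold S0
  rw [@Finset.mem_filter _ _ (Classical.decPred _)]
  simp

lemma ntd_up (hp : IsPar G r par) {a m : V} (h : G.Adj a m)
    (hd : G.dist r m = G.dist r a + 1) (hne : a ≠ par m) : (a, m) ∈ ntd G par := by
  refine mem_ntd.2 ⟨h, hne, ?_⟩
  intro h'
  have := hp.fact h.symm h'
  omega

lemma ntd_le (hp : IsPar G r par) {a m : V} (h : G.Adj a m)
    (hd : G.dist r m ≤ G.dist r a) (hne : m ≠ par a) : (a, m) ∈ ntd G par := by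
  refine mem_ntd.2 ⟨h, ?_, hne⟩
  intro h'
  have := hp.fact h h'
  omega

lemma ntd_hor (hp : IsPar G r par) {a m : V} (h : G.Adj a m)
    (hd : G.dist r a = G.dist r m) : (a, m) ∈ ntd G par := by
  refine ntd_le hp h hd.ge ?_
  intro h'
  have := hp.fact h.symm h'
  omega

lemma S0_ntd (hp : IsPar G r par) (h2 : ∀ v, ∃ b b', G.Adj v b ∧ G.Adj v b' ∧ b ≠ b')
    {v : V} (hv : v ∈ S0 G r par) : ∃ b, (v, b) ∈ ntd G par := by
  rcases mem_S0.1 hv with ⟨m, hm, hd, hne⟩ | ⟨y, hy, hd⟩ | hL
  · exact ⟨m, ntd_up hp hm hd hne⟩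
  · exact ⟨y, ntd_hor hp hy hd⟩
  · obtain ⟨b, b', hb, hb', hne⟩ := h2 v
    by_cases hbp : b = par v
    · exact ⟨b', ntd_le hp hb' (hL b' hb') (by rw [← hbp]; exact hne.symm)⟩
    · exact ⟨b, ntd_le hp hb (hL b hb) hbp⟩

omit [DecidableEq V] [DecidableRel G.Adj] in
/-- every vertex has a descendant without lower neighbours -/
lemma exists_leaf (hG : G.Connected) (r v : V) :
    ∃ s, Desc G r v s ∧ ∀ b, G.Adj s b → G.dist r b ≤ G.dist r s := by
  classical
  obtain ⟨s, hs, hmax⟩ := Finset.exists_max_image (univ.filter (fun s => Desc G r v s))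
    (fun s => G.dist r s) ⟨v, by simp [Desc.refl']⟩
  simp only [mem_filter, mem_univ, true_and] at hs hmax
  refine ⟨s, hs, ?_⟩
  intro b hb
  have h1 := adj_le hG r hb
  by_contra h2
  have h3 : G.dist r b = G.dist r s + 1 := by omega
  have := hmax b (hs.trans' hG (Desc.of_adj hb h3))
  omega

/-- the tight situation -/
def Tight (G : SimpleGraph V) [DecidableRel G.Adj] (r : V) (par : V → V) : Prop :=
  (∀ v b b', (v, b) ∈ ntd G par → (v, b') ∈ ntd G par → b = b') ∧
    ∀ v b, (v, b) ∈ ntd G par → v ∈ S0 G r par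

lemma card_S0_le (hp : IsPar G r par) (h2 : ∀ v, ∃ b b', G.Adj v b ∧ G.Adj v b' ∧ b ≠ b') :
    (S0 G r par).card ≤ (ntd G par).card := by
  have hsub : S0 G r par ⊆ (ntd G par).image Prod.fst := by
    intro v hv
    obtain ⟨b, hb⟩ := S0_ntd hp h2 hv
    exact mem_image.2 ⟨_, hb, rfl⟩
  exact (Finset.card_le_card hsub).trans Finset.card_image_le

lemma card_S0_lt (hp : IsPar G r par) (h2 : ∀ v, ∃ b b', G.Adj v b ∧ G.Adj v b' ∧ b ≠ b')
    (ht : ¬ Tight G r par) : (S0 G r par).card + 1 ≤ (ntd G par).card := by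
  have hd0 : ∃ d ∈ ntd G par, S0 G r par ⊆ ((ntd G par).erase d).image Prod.fst := by
    unfold Tight at ht
    rw [not_and_or] at ht
    rcases ht with ht | ht
    · push Not at ht
      obtain ⟨v, b, b', hb, hb', hne⟩ := ht
      refine ⟨(v, b'), hb', ?_⟩
      intro s hs
      obtain ⟨c, hc⟩ := S0_ntd hp h2 hs
      by_cases hsc : (s, c) = (v, b')
      · obtain ⟨rfl, rfl⟩ := Prod.mk.inj hsc
        exact mem_image.2 ⟨(s, b), mem_erase.2 ⟨by simp [hne], hb⟩, rfl⟩
      · exact mem_image.2 ⟨(s, c), mem_erase.2 ⟨hsc, hc⟩, rfl⟩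
    · push Not at ht
      obtain ⟨v, b, hb, hv⟩ := ht
      refine ⟨(v, b), hb, ?_⟩
      intro s hs
      obtain ⟨c, hc⟩ := S0_ntd hp h2 hs
      refine mem_image.2 ⟨(s, c), mem_erase.2 ⟨?_, hc⟩, rfl⟩
      intro hsc
      obtain ⟨rfl, rfl⟩ := Prod.mk.inj hsc
      exact hv hs
  obtain ⟨d, hd, hsub⟩ := hd0
  have h1 := (Finset.card_le_card hsub).trans Finset.card_image_le
  rw [Finset.card_erase_of_mem hd] at h1
  have h3 : 0 < (ntd G par).card := Finset.card_pos.2 ⟨d, hd⟩
  omega

omit [DecidableRel G.Adj] in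
lemma good_all (hG : G.Connected) : Good G r par (insert r (S0 G r par)) r := by
  constructor
  · exact mem_insert_self _ _
  · intro v
    obtain ⟨s, hs, hL⟩ := exists_leaf hG r v
    exact ⟨s, mem_insert_of_mem (mem_S0.2 (Or.inr (Or.inr hL))), hs⟩
  · intro a m ha hd hne
    exact mem_insert_of_mem (mem_S0.2 (Or.inl ⟨m, ha, hd, hne⟩))
  · intro x y hxy hd _
    exact mem_insert_of_mem (mem_S0.2 (Or.inr (Or.inl ⟨y, hxy, hd⟩)))
  · intro y _ _
    exact Or.inl (mem_insert_self _ _)

lemma good_remove (hG : G.Connected) (hp : IsPar G r par) (ht : Tight G r par) {w y s : V}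
    (hwy : G.Adj w y) (hd : G.dist r w = G.dist r y) (hs : s ∈ S0 G r par) (hsw : s ≠ w)
    (h1 : Desc G r w s) (h2 : ¬ Desc G r y s) :
    Good G r par (insert r ((S0 G r par).erase w)) w := by
  have hwy' : (w, y) ∈ ntd G par := ntd_hor hp hwy hd
  constructor
  · exact mem_insert_self _ _
  · intro v
    obtain ⟨s', hs', hL⟩ := exists_leaf hG r v
    refine ⟨s', mem_insert_of_mem (mem_erase.2 ⟨?_, mem_S0.2 (Or.inr (Or.inr hL))⟩), hs'⟩
    rintro rfl
    obtain ⟨a, ha, hda, _⟩ := h1.succ hG hsw.symm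
    have := hL a ha
    omega
  · intro a m ha hda hne
    refine mem_insert_of_mem (mem_erase.2 ⟨?_, mem_S0.2 (Or.inl ⟨m, ha, hda, hne⟩)⟩)
    rintro rfl
    have := ht.1 _ _ _ hwy' (ntd_up hp ha hda hne)
    subst this
    omega
  · intro x y hxy hdx hne
    exact mem_insert_of_mem (mem_erase.2 ⟨hne, mem_S0.2 (Or.inr (Or.inl ⟨y, hxy, hdx⟩))⟩)
  · intro y' hy' hdy'
    have := ht.1 _ _ _ hwy' (ntd_hor hp hy' hdy')
    subst this
    exact Or.inr ⟨s, mem_insert_of_mem (mem_erase.2 ⟨hsw, hs⟩), h1, h2⟩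

/-- main combinatorial statement for a good choice of the root -/
theorem main_root (hG : G.Connected) (h2 : ∀ v, ∃ b b', G.Adj v b ∧ G.Adj v b' ∧ b ≠ b')
    (r z p q : V) (hzp : G.Adj z p) (hzq : G.Adj z q) (hpq : p ≠ q)
    (hp' : G.dist r p ≤ G.dist r z) (hq' : G.dist r q ≤ G.dist r z)
    (h3 : ∀ a b : V, ∃ c, G.Adj z c ∧ c ≠ a ∧ c ≠ b) :
    ∃ S : Finset V, MixedResolving G S ∧
      S.card + 2 * Fintype.card V ≤ 2 * G.edgeFinset.card + 2 := by
  obtain ⟨par, hp⟩ := exists_par hG r
  have hcard := card_ntd (G := G) hp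
  by_cases ht : Tight G r par
  · -- find y
    have hy : ∃ y, G.Adj z y ∧ G.dist r z = G.dist r y := by
      by_contra hcon
      push Not at hcon
      have hpl : G.dist r p < G.dist r z := lt_of_le_of_ne hp' (hcon p hzp).symm
      have hql : G.dist r q < G.dist r z := lt_of_le_of_ne hq' (hcon q hzq).symm
      have ha : ∃ a, (z, a) ∈ ntd G par ∧ G.dist r a < G.dist r z := by
        by_cases hpp : p = par z
        · exact ⟨q, ntd_le hp hzq hq' (by rw [← hpp]; exact hpq.symm), hql⟩
        · exact ⟨p, ntd_le hp hzp hp' hpp, hpl⟩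
      obtain ⟨a, ha, hal⟩ := ha
      rcases mem_S0.1 (ht.2 _ _ ha) with ⟨m, hm, hd, hne⟩ | ⟨y, hy, hd⟩ | hL
      · have := ht.1 _ _ _ ha (ntd_up hp hm hd hne)
        subst this
        omega
      · exact hcon y hy hd
      · obtain ⟨c, hc, hc1, hc2⟩ := h3 a (par z)
        exact hc1 (ht.1 _ _ _ (ntd_le hp hc (hL c hc) hc2) ha)
    obtain ⟨y, hzy, hd⟩ := hy
    have hzy' := ntd_hor hp hzy hd
    have hyz' := ntd_hor hp hzy.symm hd.symm
    -- lower neighbour of z
    obtain ⟨b, hb, hb1, hb2⟩ := h3 y (par z)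
    have hzb : z = par b := by
      by_contra hne
      exact hb1 (ht.1 _ _ _ (mem_ntd.2 ⟨hb, hne, hb2⟩) hzy')
    have hdb := hp.fact hb hzb
    obtain ⟨s0, hs0, hL0⟩ := exists_leaf hG r b
    have hs0S : s0 ∈ S0 G r par := mem_S0.2 (Or.inr (Or.inr hL0))
    have hzs0 : Desc G r z s0 := (Desc.of_adj hb hdb).trans' hG hs0
    have hs0z : s0 ≠ z := by
      rintro rfl
      have := hs0.le
      omega
    have hor : (∃ s ∈ S0 G r par, s ≠ z ∧ Desc G r z s ∧ ¬ Desc G r y s) ∨
        (∃ s ∈ S0 G r par, s ≠ y ∧ Desc G r y s ∧ ¬ Desc G r z s) := by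
      by_contra hcon
      push Not at hcon
      obtain ⟨c1, c2⟩ := hcon
      have hys0 := c1 s0 hs0S hs0z hzs0
      obtain ⟨a, m, ha, hda, hne, ⟨e1, e2⟩ | ⟨e1, e2⟩⟩ :=
        merge (par := par) hG hzy.ne hd hzs0 hys0
      · have haS : a ∈ S0 G r par := mem_S0.2 (Or.inl ⟨m, ha, hda, hne⟩)
        have haz : a = z := by
          by_contra h
          exact e2 (c1 a haS h e1)
        subst haz
        have := ht.1 _ _ _ hzy' (ntd_up hp ha hda hne)
        subst this
        omega
      · have haS : a ∈ S0 G r par := mem_S0.2 (Or.inl ⟨m, ha, hda, hne⟩)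
        have hay : a = y := by
          by_contra h
          exact e2 (c2 a haS h e1)
        subst hay
        have := ht.1 _ _ _ hyz' (ntd_up hp ha hda hne)
        subst this
        omega
    have hfin : ∀ w y s : V, G.Adj w y → G.dist r w = G.dist r y → s ∈ S0 G r par → s ≠ w →
        Desc G r w s → ¬ Desc G r y s → ∃ S : Finset V, MixedResolving G S ∧
      S.card + 2 * Fintype.card V ≤ 2 * G.edgeFinset.card + 2 := by
      intro w y s hwy hd hs hsw h1 h2'
      refine ⟨_, (good_remove hG hp ht hwy hd hs hsw h1 h2').resolving hG, ?_⟩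
      have hw : w ∈ S0 G r par := mem_S0.2 (Or.inr (Or.inl ⟨y, hwy, hd⟩))
      have e1 := Finset.card_insert_le r ((S0 G r par).erase w)
      rw [Finset.card_erase_of_mem hw] at e1
      have e2 : 0 < (S0 G r par).card := Finset.card_pos.2 ⟨w, hw⟩
      have e3 := card_S0_le (G := G) hp h2
      omega
    rcases hor with ⟨s, hs, h1, h4, h5⟩ | ⟨s, hs, h1, h4, h5⟩
    · exact hfin z y s hzy hd hs h1 h4 h5
    · exact hfin y z s hzy.symm hd.symm hs h1 h4 h5
  · refine ⟨_, (good_all (par := par) (r := r) hG).resolving hG, ?_⟩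
    have e1 := Finset.card_insert_le r (S0 G r par)
    have e2 := card_S0_lt (G := G) hp h2 ht
    omega

omit [Fintype V] [DecidableEq V] [DecidableRel G.Adj] in
/-- choice of the root -/
lemma exists_root (hG : G.Connected) {z p q : V} (hzp : G.Adj z p) (hzq : G.Adj z q)
    (hpq : p ≠ q) (hz : (G.induce {z}ᶜ).Preconnected) :
    ∃ r p' q', G.Adj z p' ∧ G.Adj z q' ∧ p' ≠ q' ∧ G.dist r p' ≤ G.dist r z ∧
      G.dist r q' ≤ G.dist r z := by
  obtain ⟨W⟩ := hz ⟨p, by simpa using hzp.ne'⟩ ⟨q, by simpa using hzq.ne'⟩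
  obtain ⟨d, _, h1, h2⟩ := W.exists_boundary_dart {x | G.dist x.1 p < G.dist x.1 z}
    (by simpa using dist_pos hG hzp.ne')
    (by
      have : 0 < G.dist q p := dist_pos hG hpq.symm
      have h4 : G.dist q z = 1 := SimpleGraph.dist_eq_one_iff_adj.mpr hzq.symm
      simp only [Set.mem_ofPred_eq]
      omega)
  obtain ⟨⟨⟨r, hr⟩, ⟨r', hr'⟩⟩, hadj⟩ := d
  simp only [Set.mem_ofPred_eq] at h1 h2
  have hrr' : G.Adj r r' := by simpa using hadj
  have hrz : r' ≠ z := by simpa using hr'
  obtain ⟨a, ha, hda⟩ := exists_pred hG hrz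
  by_cases hap : a = p
  · subst hap
    omega
  by_cases heq : G.dist r' p = G.dist r' z
  · exact ⟨r', a, p, ha.symm, hzp, hap, by omega, by omega⟩
  · refine ⟨r, a, p, ha.symm, hzp, hap, ?_, by omega⟩
    have e1 : G.dist r p < G.dist r z := h1
    have t1 := adj_le hG p hrr'
    have t2 := adj_le hG a hrr'.symm
    rw [G.dist_comm (u := p) (v := r'), G.dist_comm (u := p) (v := r)] at t1
    rw [G.dist_comm (u := a) (v := r'), G.dist_comm (u := a) (v := r)] at t2
    omega

end Count

end Pool.Agent.X283.MMD
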