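import Mathlib

/-!
# A finitely generated algebra of polynomial growth without greatest nilpotent ideal

The algebra is generated by two operators `X`, `Y` on the space of functions `(j, t) ↦ f (j, t)`:
both shift `t` by one; on the `j`-th component, `X` acts at the positions `t` divisible by `j + 1`,
and `Y` at the other ones, as long as `t < (j + 1) ^ 2`.  (This is the monomial algebra whose
nonzero words are the factors of the words `(x y ^ j) ^ (j + 1)`.)
-/

set_option autoImplicit false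

namespace Pool.Agent.X283.Nil

/-- the space -/
abbrev Sp : Type := ℕ → ℕ → ℚ

/-- the operator `X` -/
def X : Module.End ℚ Sp where
  toFun f := fun j t => if t < (j + 1) ^ 2 ∧ (j + 1) ∣ t then f j (t + 1) else 0
  map_add' f g := by
    funext j t
    simp only [Pi.add_apply]
    split_ifs <;> simp
  map_smul' c f := by
    funext j t
    simp only [Pi.smul_apply, RingHom.id_apply]
    split_ifs <;> simp

/-- the operator `Y` -/
def Y : Module.End ℚ Sp where
  toFun f := fun j t => if t < (j + 1) ^ 2 ∧ ¬ (j + 1) ∣ t then f j (t + 1) else 0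
  map_add' f g := by
    funext j t
    simp only [Pi.add_apply]
    split_ifs <;> simp
  map_smul' c f := by
    funext j t
    simp only [Pi.smul_apply, RingHom.id_apply]
    split_ifs <;> simp

lemma X_apply (f : Sp) (j t : ℕ) :
    X f j t = if t < (j + 1) ^ 2 ∧ (j + 1) ∣ t then f j (t + 1) else 0 := rfl

lemma Y_apply (f : Sp) (j t : ℕ) :
    Y f j t = if t < (j + 1) ^ 2 ∧ ¬ (j + 1) ∣ t then f j (t + 1) else 0 := rfl

/-- powers of `Y` vanish as soon as a multiple of `j + 1` is met -/
lemma Y_pow_zero (f : Sp) (j : ℕ) (b : ℕ) : ∀ t s : ℕ, t ≤ s → s < t + b → (j + 1) ∣ s →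
    (Y ^ b) f j t = 0 := by
  induction b with
  | zero => intro t s h1 h2; omega
  | succ b ih =>
    intro t s h1 h2 h3
    rw [pow_succ', Module.End.mul_apply, Y_apply]
    split_ifs with h
    · rcases h1.eq_or_lt with rfl | h1
      · exact absurd h3 h.2
      · exact ih (t + 1) s h1 (by omega) h3
    · rfl

/-- `Y ^ b` depends on the value at `t + b` only -/
lemma Y_pow_dep (f : Sp) (j : ℕ) (b : ℕ) : ∀ t : ℕ, f j (t + b) = 0 → (Y ^ b) f j t = 0 := by
  induction b with
  | zero => intro t h; simpa using h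
  | succ b ih =>
    intro t h
    rw [pow_succ', Module.End.mul_apply, Y_apply]
    split_ifs
    · exact ih (t + 1) (by rwa [add_right_comm, add_assoc])
    · rfl

/-- `X Y ^ b X` vanishes on the `j`-th component for `b ≠ j` -/
lemma XYX_zero (f : Sp) (j b : ℕ) (hb : b ≠ j) (t : ℕ) : (X * Y ^ b * X) f j t = 0 := by
  rw [mul_assoc, Module.End.mul_apply, X_apply]
  split_ifs with h
  · rw [Module.End.mul_apply]
    rcases lt_or_gt_of_ne hb with hlt | hgt
    · refine Y_pow_dep _ _ _ _ ?_
      rw [X_apply, if_neg]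
      rintro ⟨-, h2⟩
      have h3 : (j + 1) ∣ (b + 1) := by
        have h4 : t + 1 + b = t + (b + 1) := by ring
        rw [h4] at h2
        exact (Nat.dvd_add_right h.2).1 h2
      exact absurd (Nat.le_of_dvd (Nat.succ_pos b) h3) (by omega)
    · exact Y_pow_zero _ _ _ (t + 1) (t + (j + 1)) (by omega) (by omega)
        (Nat.dvd_add h.2 (dvd_refl _))
  · rfl

/-- `Y ^ b` along a full block -/
lemma Y_pow_block (f : Sp) (j i : ℕ) (hi : i < j + 1) (b : ℕ) : ∀ a : ℕ, a + b = j →
    (Y ^ b) f j (i * (j + 1) + 1 + a) = f j ((i + 1) * (j + 1)) := by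
  induction b with
  | zero =>
    intro a ha
    have e : i * (j + 1) + 1 + a = (i + 1) * (j + 1) := by
      rw [add_zero] at ha
      subst ha
      ring
    rw [e, pow_zero]
    rfl
  | succ b ih =>
    intro a ha
    rw [pow_succ', Module.End.mul_apply, Y_apply, if_pos]
    · exact ih (a + 1) (by omega)
    · constructor
      · have h1 : (i + 1) * (j + 1) ≤ (j + 1) * (j + 1) := Nat.mul_le_mul_right _ hi
        have h2 : (i + 1) * (j + 1) = i * (j + 1) + j + 1 := by ring
        rw [sq]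
        omega
      · intro hd
        have h1 : (j + 1) ∣ (1 + a) := by
          rw [add_assoc] at hd
          exact (Nat.dvd_add_right (Dvd.intro_left i rfl)).1 hd
        exact absurd (Nat.le_of_dvd (by omega) h1) (by omega)

lemma XY_pow (f : Sp) (j : ℕ) (c : ℕ) : ∀ i : ℕ, i + c ≤ j + 1 →
    ((X * Y ^ j) ^ c) f j (i * (j + 1)) = f j ((i + c) * (j + 1)) := by
  induction c with
  | zero => intro i _; simp
  | succ c ih =>
    intro i hi
    rw [pow_succ', Module.End.mul_apply, Module.End.mul_apply, X_apply, if_pos]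
    · have h1 := Y_pow_block (((X * Y ^ j) ^ c) f) j i (by omega) j 0 (by omega)
      rw [add_zero] at h1
      rw [h1, ih (i + 1) (by omega)]
      congr 2
      ring
    · refine ⟨?_, Dvd.intro_left i rfl⟩
      rw [sq]
      exact Nat.mul_lt_mul_of_pos_right (by omega) (Nat.succ_pos j)

/-- the operators which do not move information to the right -/
def F0 : Subalgebra ℚ (Module.End ℚ Sp) where
  carrier := {a | ∀ (f : Sp) (j t : ℕ), (∀ s, t ≤ s → f j s = 0) → a f j t = 0}
  mul_mem' := by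
    intro a b ha hb f j t h
    exact ha _ _ _ fun s hs => hb _ _ _ fun s' hs' => h s' (hs.trans hs')
  add_mem' := by
    intro a b ha hb f j t h
    change a f j t + b f j t = 0
    rw [ha f j t h, hb f j t h, add_zero]
  algebraMap_mem' := by
    intro r f j t h
    change r • f j t = 0
    rw [h t le_rfl, smul_zero]

lemma X_mem : X ∈ F0 := by
  intro f j t h
  rw [X_apply]
  split_ifs
  · exact h _ (Nat.le_succ t)
  · rfl

lemma Y_mem : Y ∈ F0 := by
  intro f j t h
  rw [Y_apply]
  split_ifs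
  · exact h _ (Nat.le_succ t)
  · rfl

/-- the algebra -/
abbrev A : Subalgebra ℚ (Module.End ℚ Sp) := Algebra.adjoin ℚ {X, Y}

lemma A_le : A ≤ F0 := by
  refine Algebra.adjoin_le ?_
  rintro a (rfl | rfl)
  · exact X_mem
  · exact Y_mem

/-- the first generator -/
def x : A := ⟨X, Algebra.subset_adjoin (Set.mem_insert _ _)⟩

/-- the second generator -/
def y : A := ⟨Y, Algebra.subset_adjoin (Set.mem_insert_of_mem _ rfl)⟩

lemma xyx_xyx {n b : ℕ} (h : b ≠ n) : x * y ^ n * x * y ^ b * x = 0 := by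
  apply Subtype.ext
  change X * Y ^ n * X * Y ^ b * X = 0
  ext f j t
  by_cases hj : n = j
  · subst hj
    have e : X * Y ^ n * X * Y ^ b * X = X * Y ^ n * (X * Y ^ b * X) := by
      simp only [mul_assoc]
    rw [e, Module.End.mul_apply]
    have h1 : ∀ s, (X * Y ^ b * X) f n s = 0 := XYX_zero f n b h
    have h2 : (X * Y ^ n) ∈ F0 := F0.mul_mem X_mem (F0.pow_mem Y_mem n)
    exact h2 _ _ _ fun s _ => h1 s
  · have e : X * Y ^ n * X * Y ^ b * X = (X * Y ^ n * X) * (Y ^ b * X) := by
      simp only [mul_assoc]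
    rw [e, Module.End.mul_apply]
    exact XYX_zero _ _ _ hj _

/-- the ideal of the elements concentrated in the `n`-th component -/
def I (n : ℕ) : TwoSidedIdeal A :=
  TwoSidedIdeal.mk' {a | ∀ (f : Sp) (j t : ℕ),
      (j ≠ n ∨ (j + 1) ^ 2 ≤ t ∨ ∀ s, t < s → f j s = 0) → (a : Module.End ℚ Sp) f j t = 0}
    (fun _ _ _ _ => rfl)
    (by
      intro a b ha hb f j t h
      change (a : Module.End ℚ Sp) f j t + (b : Module.End ℚ Sp) f j t = 0
      rw [ha f j t h, hb f j t h, add_zero])
    (by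
      intro a ha f j t h
      change - (a : Module.End ℚ Sp) f j t = 0
      rw [ha f j t h, neg_zero])
    (by
      intro b a ha f j t h
      change (b : Module.End ℚ Sp) ((a : Module.End ℚ Sp) f) j t = 0
      refine A_le b.2 _ _ _ fun s hs => ha _ _ _ ?_
      rcases h with h | h | h
      · exact Or.inl h
      · exact Or.inr (Or.inl (h.trans hs))
      · exact Or.inr (Or.inr fun s' hs' => h s' (lt_of_le_of_lt hs hs')))
    (by
      intro a b ha f j t h
      change (a : Module.End ℚ Sp) ((b : Module.End ℚ Sp) f) j t = 0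
      refine ha _ _ _ ?_
      rcases h with h | h | h
      · exact Or.inl h
      · exact Or.inr (Or.inl h)
      · refine Or.inr (Or.inr fun s hs => ?_)
        exact A_le b.2 _ _ _ fun s' hs' => h s' (lt_of_lt_of_le hs hs'))

lemma mem_I {n : ℕ} {a : A} : a ∈ I n ↔ ∀ (f : Sp) (j t : ℕ),
      (j ≠ n ∨ (j + 1) ^ 2 ≤ t ∨ ∀ s, t < s → f j s = 0) → (a : Module.End ℚ Sp) f j t = 0 := by
  unfold I
  rw [TwoSidedIdeal.mem_mk']
  rfl

lemma I_nilpotent (n : ℕ) : ∃ m : ℕ, ∀ f : Fin m → A, (∀ i, f i ∈ I n) →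
    (List.ofFn f).prod = 0 := by
  refine ⟨(n + 1) ^ 2 + 1, fun g hg => ?_⟩
  have key : ∀ l : List A, (∀ a ∈ l, a ∈ I n) → ∀ (f : Sp) (t : ℕ), l ≠ [] →
      (n + 1) ^ 2 + 1 ≤ t + l.length → ((l.prod : A) : Module.End ℚ Sp) f n t = 0 := by
    intro l
    induction l with
    | nil => intro _ f t h; exact absurd rfl h
    | cons a l ih =>
      intro hl f t _ ht
      rw [List.prod_cons]
      change (a : Module.End ℚ Sp) (((l.prod : A) : Module.End ℚ Sp) f) n t = 0
      have ha := mem_I.1 (hl a List.mem_cons_self)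
      refine ha _ _ _ ?_
      by_cases hl0 : l = []
      · subst hl0
        right; left
        simp at ht
        exact ht
      · right; right
        intro s hs
        refine ih (fun b hb => hl b (List.mem_cons_of_mem _ hb)) f s hl0 ?_
        rw [List.length_cons] at ht
        omega
  have hmem : ∀ a ∈ List.ofFn g, a ∈ I n := by
    intro a ha
    rw [List.mem_ofFn] at ha
    obtain ⟨i, rfl⟩ := ha
    exact hg i
  have hne : List.ofFn g ≠ [] := by
    rw [ne_eq, List.ofFn_eq_nil_iff]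
    omega
  apply Subtype.ext
  ext f j t
  by_cases hj : j = n
  · subst hj
    refine key _ hmem f t hne ?_
    rw [List.length_ofFn]
    omega
  · -- the first factor vanishes on the component `j`
    obtain ⟨a, l, hal⟩ := List.exists_cons_of_ne_nil hne
    rw [hal, List.prod_cons]
    change (a : Module.End ℚ Sp) (((l.prod : A) : Module.End ℚ Sp) f) j t = 0
    exact mem_I.1 (hmem a (by rw [hal]; exact List.mem_cons_self)) _ _ _ (Or.inl hj)

/-- the element `(x y ^ n) ^ 2` is in the ideal -/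
lemma u_mem (n : ℕ) : (x * y ^ n) ^ 2 ∈ I n := by
  rw [mem_I]
  intro f j t h
  have e : (((x * y ^ n) ^ 2 : A) : Module.End ℚ Sp) = X * Y ^ n * X * Y ^ n := by
    change (X * Y ^ n) ^ 2 = _
    rw [sq, ← mul_assoc]
  rw [e]
  rcases h with h | h | h
  · rw [Module.End.mul_apply]
    exact XYX_zero _ _ _ (fun h' => h h'.symm) _
  · have e : X * Y ^ n * X * Y ^ n = X * (Y ^ n * X * Y ^ n) := by simp only [mul_assoc]
    rw [e, Module.End.mul_apply, X_apply, if_neg (by omega)]
  · have e : X * Y ^ n * X * Y ^ n = X * (Y ^ n * X * Y ^ n) := by simp only [mul_assoc]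
    rw [e, Module.End.mul_apply, X_apply]
    split_ifs
    · have h1 : Y ^ n * X * Y ^ n ∈ F0 :=
        F0.mul_mem (F0.mul_mem (F0.pow_mem Y_mem n) X_mem) (F0.pow_mem Y_mem n)
      exact h1 _ _ _ fun s hs => h s hs
    · rfl

lemma u_pow_ne (n m : ℕ) (h : 2 * m ≤ n + 1) : ((x * y ^ n) ^ 2) ^ m ≠ 0 := by
  intro h0
  have h1 := congrArg (fun a : A => (a : Module.End ℚ Sp)) h0
  have h2 : (X * Y ^ n) ^ (2 * m) = 0 := by
    rw [pow_mul]
    exact h1
  have h3 := XY_pow (fun _ _ => 1) n (2 * m) 0 (by omega)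
  rw [zero_mul, h2] at h3
  exact zero_ne_one h3

/-! ### Growth -/

/-- the words of length at most about `m` -/
noncomputable def T (m : ℕ) : Finset A :=
  open Classical in
  (Finset.range (m + 1)).image (fun a => y ^ a) ∪
    ((Finset.range (m + 1) ×ˢ Finset.range (m + 1)) ×ˢ
      (Finset.range (m + 1) ×ˢ Finset.range (m + 1))).image
      (fun p => y ^ p.1.1 * (x * y ^ p.1.2) ^ p.2.1 * x * y ^ p.2.2)

lemma mem_T {m : ℕ} {z : A} : z ∈ T m ↔ (∃ a ≤ m, y ^ a = z) ∨
    ∃ a n c b : ℕ, a ≤ m ∧ n ≤ m ∧ c ≤ m ∧ b ≤ m ∧ y ^ a * (x * y ^ n) ^ c * x * y ^ b = z := by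
  classical
  unfold T
  simp only [Finset.mem_union, Finset.mem_image, Finset.mem_range, Finset.mem_product,
    Nat.lt_succ_iff, Prod.exists]
  constructor
  · rintro (h | ⟨a, n, c, b, ⟨⟨h1, h2⟩, h3, h4⟩, h5⟩)
    · exact Or.inl h
    · exact Or.inr ⟨a, n, c, b, h1, h2, h3, h4, h5⟩
  · rintro (h | ⟨a, n, c, b, h1, h2, h3, h4, h5⟩)
    · exact Or.inl h
    · exact Or.inr ⟨a, n, c, b, ⟨⟨h1, h2⟩, h3, h4⟩, h5⟩

lemma card_T (m : ℕ) : (T m).card ≤ 2 * (m + 1) ^ 4 := by
  classical
  unfold T
  refine (Finset.card_union_le _ _).trans ?_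
  have h1 : ((Finset.range (m + 1)).image (fun a => y ^ a)).card ≤ m + 1 :=
    Finset.card_image_le.trans (by simp)
  have h2 : (((Finset.range (m + 1) ×ˢ Finset.range (m + 1)) ×ˢ
      (Finset.range (m + 1) ×ˢ Finset.range (m + 1))).image
      (fun p => y ^ p.1.1 * (x * y ^ p.1.2) ^ p.2.1 * x * y ^ p.2.2)).card ≤ (m + 1) ^ 4 := by
    refine Finset.card_image_le.trans ?_
    simp only [Finset.card_product, Finset.card_range]
    apply le_of_eq
    ring
  have h3 : m + 1 ≤ (m + 1) ^ 4 := Nat.le_self_pow (by norm_num) _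
  omega

lemma T_mul_mem {m : ℕ} {z v : A} (hz : z ∈ T m) (hv : v = 1 ∨ v = x ∨ v = y) :
    z * v ∈ Submodule.span ℚ (T (m + 1) : Set A) := by
  rcases hv with rfl | rfl | rfl
  · rw [mul_one]
    refine Submodule.subset_span (mem_T.2 ?_)
    rcases mem_T.1 hz with ⟨a, ha, rfl⟩ | ⟨a, n, c, b, h1, h2, h3, h4, rfl⟩
    · exact Or.inl ⟨a, by omega, rfl⟩
    · exact Or.inr ⟨a, n, c, b, by omega, by omega, by omega, by omega, rfl⟩
  · rcases mem_T.1 hz with ⟨a, ha, rfl⟩ | ⟨a, n, c, b, h1, h2, h3, h4, rfl⟩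
    · refine Submodule.subset_span (mem_T.2 (Or.inr ⟨a, 0, 0, 0, by omega, by omega, by omega,
        by omega, ?_⟩))
      simp
    · rcases Nat.eq_zero_or_pos c with rfl | hc
      · refine Submodule.subset_span (mem_T.2 (Or.inr ⟨a, b, 1, 0, by omega, by omega, by omega,
          by omega, ?_⟩))
        simp [mul_assoc]
      · by_cases hb : b = n
        · subst hb
          refine Submodule.subset_span (mem_T.2 (Or.inr ⟨a, b, c + 1, 0, by omega, by omega,
            by omega, by omega, ?_⟩))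
          rw [pow_succ (x * y ^ b) c, pow_zero, mul_one]
          simp only [mul_assoc]
        · obtain ⟨c, rfl⟩ : ∃ c', c = c' + 1 := ⟨c - 1, by omega⟩
          have e : y ^ a * (x * y ^ n) ^ (c + 1) * x * y ^ b * x =
              y ^ a * (x * y ^ n) ^ c * (x * y ^ n * x * y ^ b * x) := by
            rw [pow_succ]
            simp only [mul_assoc]
          rw [e, xyx_xyx hb, mul_zero]
          exact Submodule.zero_mem _
  · refine Submodule.subset_span (mem_T.2 ?_)
    rcases mem_T.1 hz with ⟨a, ha, rfl⟩ | ⟨a, n, c, b, h1, h2, h3, h4, rfl⟩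
    · exact Or.inl ⟨a + 1, by omega, pow_succ _ _⟩
    · refine Or.inr ⟨a, n, c, b + 1, by omega, by omega, by omega, by omega, ?_⟩
      rw [pow_succ]
      simp only [mul_assoc]

/-- the generating subspace -/
def V : Submodule ℚ A := Submodule.span ℚ {1, x, y}

lemma V_pow_le (m : ℕ) : V ^ m ≤ Submodule.span ℚ (T m : Set A) := by
  induction m with
  | zero =>
    rw [pow_zero, Submodule.one_le]
    exact Submodule.subset_span (mem_T.2 (Or.inl ⟨0, le_rfl, pow_zero _⟩))
  | succ m ih =>
    rw [pow_succ]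
    refine (mul_le_mul' ih le_rfl).trans ?_
    rw [V, Submodule.span_mul_span, Submodule.span_le]
    rintro _ ⟨z, hz, v, hv, rfl⟩
    exact T_mul_mem hz (by simpa using hv)

lemma finrank_le (m : ℕ) : Module.finrank ℚ ↥(V ^ m) ≤ 2 * (m + 1) ^ 4 := by
  have h1 : Module.finrank ℚ ↥(V ^ m) ≤
      Module.finrank ℚ ↥(Submodule.span ℚ (T m : Set A)) :=
    Submodule.finrank_mono (V_pow_le m)
  exact h1.trans ((finrank_span_finset_le_card (T m)).trans (card_T m))

lemma adjoin_xy : Algebra.adjoin ℚ ({x, y} : Set A) = ⊤ := by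
  have h := Algebra.adjoin_adjoin_coe_preimage (R := ℚ) (s := ({X, Y} : Set (Module.End ℚ Sp)))
  rw [← h]
  congr 1
  ext a
  constructor
  · rintro (rfl | rfl)
    · exact Or.inl rfl
    · exact Or.inr rfl
  · rintro (h | h)
    · exact Or.inl (Subtype.ext h)
    · exact Or.inr (Subtype.ext h)

lemma adjoin_V : Algebra.adjoin ℚ (V : Set A) = ⊤ := by
  rw [eq_top_iff, ← adjoin_xy]
  refine Algebra.adjoin_mono ?_
  rintro a (rfl | rfl)
  · exact Submodule.subset_span (by simp)
  · exact Submodule.subset_span (by simp)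

lemma finiteType_A : Algebra.FiniteType ℚ A := by
  classical
  refine ⟨⟨({x, y} : Finset A), ?_⟩⟩
  rw [Finset.coe_insert, Finset.coe_singleton]
  exact adjoin_xy

/-- the algebra as a type -/
def AA : Type := A

instance : Ring AA := inferInstanceAs (Ring A)

instance : Algebra ℚ AA := inferInstanceAs (Algebra ℚ A)

/-- the generating subspace -/
def VV : Submodule ℚ AA := Submodule.span ℚ ({1, (x : AA), (y : AA)} : Set AA)

lemma V_finite : FiniteDimensional ℚ VV :=
  FiniteDimensional.span_of_finite ℚ (Set.toFinite _)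

lemma one_mem_V : (1 : AA) ∈ VV := Submodule.subset_span (Set.mem_insert _ _)

lemma finiteType_AA : Algebra.FiniteType ℚ AA := finiteType_A

/-- the hypotheses on the growth -/
lemma growth : ∃ V : Submodule ℚ AA, FiniteDimensional ℚ V ∧ (1 : AA) ∈ V ∧
    Algebra.adjoin ℚ (V : Set AA) = ⊤ ∧
    ∃ C d : ℕ, ∀ n : ℕ, Module.finrank ℚ ↥(V ^ n) ≤ C * (n + 1) ^ d :=
  ⟨VV, V_finite, one_mem_V, adjoin_V, 2, 4, finrank_le⟩

/-- there is no greatest nilpotent ideal -/
lemma no_greatest : ¬ ∃ N : TwoSidedIdeal AA,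
    (∃ m : ℕ, ∀ f : Fin m → AA, (∀ i, f i ∈ N) → (List.ofFn f).prod = 0) ∧
    ∀ I : TwoSidedIdeal AA,
      (∃ m : ℕ, ∀ f : Fin m → AA, (∀ i, f i ∈ I) → (List.ofFn f).prod = 0) → I ≤ N := by
  rintro ⟨N, ⟨m, hm⟩, hN⟩
  have h1 := hN (I (2 * m)) (I_nilpotent (2 * m))
  have h2 : ((x * y ^ (2 * m)) ^ 2 : A) ∈ N := h1 (u_mem (2 * m))
  have h3 := hm (fun _ => ((x * y ^ (2 * m)) ^ 2 : A)) (fun _ => h2)
  rw [List.ofFn_const, List.prod_replicate] at h3
  exact u_pow_ne (2 * m) m (by omega) h3

end Pool.Agent.X283.Nil
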