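import Mathlib

set_option autoImplicit false
open Matrix Filter Topology

namespace Pool.Agent.X283.TTO

/-! ### Smoothness of matrix valued functions -/

section Smooth

variable {E : Type*} [NormedAddCommGroup E] [NormedSpace ℝ E]
variable {m l o : Type*}

def Sm (F : E → Matrix m l ℂ) (x : E) : Prop := ∀ i j, ContDiffAt ℝ 1 (fun y => F y i j) x

theorem Sm.const (A : Matrix m l ℂ) (x : E) : Sm (fun _ : E => A) x := fun _ _ => contDiffAt_const

theorem Sm.add {F G : E → Matrix m l ℂ} {x : E} (hF : Sm F x) (hG : Sm G x) :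
    Sm (fun y => F y + G y) x := fun i j => (hF i j).add (hG i j)

theorem Sm.sub {F G : E → Matrix m l ℂ} {x : E} (hF : Sm F x) (hG : Sm G x) :
    Sm (fun y => F y - G y) x := fun i j => (hF i j).sub (hG i j)

theorem Sm.smul {F : E → Matrix m l ℂ} {x : E} {c : E → ℂ} (hc : ContDiffAt ℝ 1 c x)
    (hF : Sm F x) : Sm (fun y => c y • F y) x := by
  intro i j
  simp only [Matrix.smul_apply, smul_eq_mul]
  exact hc.mul (hF i j)

theorem Sm.mul [Fintype l] {F : E → Matrix m l ℂ} {G : E → Matrix l o ℂ} {x : E}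
    (hF : Sm F x) (hG : Sm G x) : Sm (fun y => F y * G y) x := by
  intro i j
  simp only [Matrix.mul_apply]
  exact ContDiffAt.sum fun k _ => (hF i k).mul (hG k j)

theorem contDiffAt_star {f : E → ℂ} {x : E} (hf : ContDiffAt ℝ 1 f x) :
    ContDiffAt ℝ 1 (fun y => star (f y)) x := by
  have h := (Complex.conjCLE.contDiff (n := 1)).contDiffAt.comp x hf
  exact h

theorem Sm.conjTranspose {F : E → Matrix m l ℂ} {x : E} (hF : Sm F x) :
    Sm (fun y => (F y)ᴴ) x := by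
  intro i j
  simp only [Matrix.conjTranspose_apply]
  exact contDiffAt_star (hF j i)

theorem Sm.pow [Fintype m] [DecidableEq m] {F : E → Matrix m m ℂ} {x : E} (hF : Sm F x) (k : ℕ) :
    Sm (fun y => F y ^ k) x := by
  induction k with
  | zero => simpa using Sm.const 1 x
  | succ k ih => simpa only [pow_succ] using ih.mul hF

theorem Sm.sum {ι : Type*} (s : Finset ι) {F : ι → E → Matrix m l ℂ} {x : E}
    (hF : ∀ i ∈ s, Sm (F i) x) : Sm (fun y => ∑ i ∈ s, F i y) x := by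
  intro a b
  simp only [Matrix.sum_apply]
  exact ContDiffAt.sum fun i hi => hF i hi a b

theorem Sm.det [Fintype m] [DecidableEq m] {F : E → Matrix m m ℂ} {x : E} (hF : Sm F x) :
    ContDiffAt ℝ 1 (fun y => (F y).det) x := by
  simp only [Matrix.det_apply']
  refine ContDiffAt.sum fun σ _ => ContDiffAt.mul contDiffAt_const ?_
  exact contDiffAt_prod fun i _ => hF _ _

theorem Sm.adjugate [Fintype m] [DecidableEq m] {F : E → Matrix m m ℂ} {x : E} (hF : Sm F x) :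
    Sm (fun y => (F y).adjugate) x := by
  intro i j
  simp only [Matrix.adjugate_apply]
  apply Sm.det
  intro a b
  by_cases h : a = j
  · subst h
    simp only [Matrix.updateRow_self]
    exact contDiffAt_const
  · simp only [Matrix.updateRow_ne h]
    exact hF a b

theorem Sm.inv [Fintype m] [DecidableEq m] {F : E → Matrix m m ℂ} {x : E} (hF : Sm F x)
    (hx : (F x).det ≠ 0) : Sm (fun y => (F y)⁻¹) x := by
  simp only [Matrix.inv_def, Ring.inverse_eq_inv']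
  exact Sm.smul (hF.det.inv hx) hF.adjugate

theorem Sm.trace [Fintype m] {F : E → Matrix m m ℂ} {x : E} (hF : Sm F x) :
    ContDiffAt ℝ 1 (fun y => (F y).trace) x := by
  simp only [Matrix.trace, Matrix.diag_apply]
  exact ContDiffAt.sum fun i _ => hF i i

end Smooth

/-! ### The parametrisation -/

section Param

variable {n : ℕ}

/-- The companion matrix with last column `a`. -/
def comp (a : Fin n → ℂ) : Matrix (Fin n) (Fin n) ℂ := Matrix.of fun i j =>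
  if (j : ℕ) + 1 < n then (if (i : ℕ) = (j : ℕ) + 1 then 1 else 0) else a i

/-- Matrix of the map `X ↦ X - A X Aᴴ`. -/
def kmat (A : Matrix (Fin n) (Fin n) ℂ) : Matrix (Fin n × Fin n) (Fin n × Fin n) ℂ :=
  1 - Matrix.of fun p q => A p.1 q.1 * star (A p.2 q.2)

/-- The solution of `X - A X Aᴴ = R`. -/
noncomputable def sol (A R : Matrix (Fin n) (Fin n) ℂ) : Matrix (Fin n) (Fin n) ℂ :=
  Matrix.of fun i j => ((kmat A)⁻¹ *ᵥ fun p => R p.1 p.2) (i, j)

theorem kmat_mulVec (A X : Matrix (Fin n) (Fin n) ℂ) (i j : Fin n) :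
    (kmat A *ᵥ fun p => X p.1 p.2) (i, j) = (X - A * X * Aᴴ) i j := by
  simp only [kmat, Matrix.sub_mulVec, Matrix.one_mulVec, Pi.sub_apply, Matrix.sub_apply]
  congr 1
  simp only [Matrix.mulVec, dotProduct, Matrix.of_apply, Matrix.mul_apply,
    Matrix.conjTranspose_apply, Fintype.sum_prod_type, Finset.sum_mul]
  rw [Finset.sum_comm]
  refine Finset.sum_congr rfl fun x _ => Finset.sum_congr rfl fun y _ => ?_
  ring

theorem sol_eq (A X R : Matrix (Fin n) (Fin n) ℂ) (hA : (kmat A).det ≠ 0)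
    (h : X - A * X * Aᴴ = R) : sol A R = X := by
  have hu : IsUnit (kmat A).det := isUnit_iff_ne_zero.2 hA
  have h1 : (fun p : Fin n × Fin n => R p.1 p.2) = kmat A *ᵥ fun p => X p.1 p.2 := by
    funext p
    obtain ⟨i, j⟩ := p
    rw [kmat_mulVec, h]
  ext i j
  simp only [sol, Matrix.of_apply]
  rw [h1, Matrix.mulVec_mulVec, Matrix.nonsing_inv_mul _ hu, Matrix.one_mulVec]

theorem det_kmat_ne_zero (A : Matrix (Fin n) (Fin n) ℂ)
    (h : ∀ X : Matrix (Fin n) (Fin n) ℂ, X = A * X * Aᴴ → X = 0) : (kmat A).det ≠ 0 := by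
  intro h0
  obtain ⟨v, hv, hv0⟩ := Matrix.exists_mulVec_eq_zero_iff.2 h0
  apply hv
  have := h (Matrix.of fun i j => v (i, j)) (by
    ext i j
    have h2 := kmat_mulVec A (Matrix.of fun i j => v (i, j)) i j
    simp only [Matrix.of_apply, Prod.mk.eta, hv0, Pi.zero_apply, Matrix.sub_apply] at h2
    rw [Matrix.of_apply]
    exact (sub_eq_zero.1 h2.symm))
  funext p
  have h3 := congrFun (congrFun this p.1) p.2
  simpa using h3

theorem Sm.sol {E : Type*} [NormedAddCommGroup E] [NormedSpace ℝ E]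
    {A R : E → Matrix (Fin n) (Fin n) ℂ} {x : E} (hA : Sm A x) (hR : Sm R x)
    (hx : (kmat (A x)).det ≠ 0) : Sm (fun y => sol (A y) (R y)) x := by
  have h1 : Sm (fun y => kmat (A y)) x := by
    intro p q
    simp only [kmat, Matrix.sub_apply, Matrix.of_apply]
    exact contDiffAt_const.sub ((hA _ _).mul (contDiffAt_star (hA _ _)))
  have h2 := h1.inv hx
  intro i j
  simp only [TTO.sol, Matrix.of_apply, Matrix.mulVec, dotProduct]
  exact ContDiffAt.sum fun p _ => (h2 _ _).mul (hR _ _)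

end Param

/-! ### Spectral radius -/

section Spec

variable {n : ℕ}

/-- every eigenvalue has modulus less than one -/
def Stable (T : Matrix (Fin n) (Fin n) ℂ) : Prop :=
  ∀ μ : ℂ, ∀ x : Fin n → ℂ, x ≠ 0 → T *ᵥ x = μ • x → ‖μ‖ < 1

section
attribute [local instance] Matrix.linftyOpNormedRing Matrix.linftyOpNormedAlgebra

theorem Stable.tendsto {T : Matrix (Fin n) (Fin n) ℂ} (hT : Stable T) :
    Tendsto (fun m : ℕ => T ^ m) atTop (𝓝 0) := by
  rcases Nat.eq_zero_or_pos n with rfl | hn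
  · have : ∀ m : ℕ, T ^ m = 0 := fun m => Subsingleton.elim _ _
    simp [this]
  have : NeZero n := ⟨hn.ne'⟩
  have : Nontrivial (Matrix (Fin n) (Fin n) ℂ) := inferInstance
  have : CompleteSpace (Matrix (Fin n) (Fin n) ℂ) := FiniteDimensional.complete ℂ _
  obtain ⟨z, hz, hz1⟩ := spectrum.exists_nnnorm_eq_spectralRadius T
  have hz2 : ‖z‖₊ < 1 := by
    have h1 : (algebraMap ℂ (Matrix (Fin n) (Fin n) ℂ) z - T).det = 0 := by
      by_contra h
      exact hz ((Matrix.isUnit_iff_isUnit_det _).2 (isUnit_iff_ne_zero.2 h))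
    obtain ⟨v, hv, hv0⟩ := Matrix.exists_mulVec_eq_zero_iff.2 h1
    have h2 : T *ᵥ v = z • v := by
      rw [Matrix.sub_mulVec, sub_eq_zero] at hv0
      rw [← hv0, Algebra.algebraMap_eq_smul_one, Matrix.smul_mulVec, Matrix.one_mulVec]
    exact_mod_cast hT z v hv h2
  have hlim := spectrum.pow_nnnorm_pow_one_div_tendsto_nhds_spectralRadius T
  rw [← hz1] at hlim
  obtain ⟨r, hr1, hr2⟩ := exists_between hz2
  have hr1' : (‖z‖₊ : ENNReal) < r := by exact_mod_cast hr1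
  have hev := (tendsto_order.1 hlim).2 _ hr1'
  have hb : ∀ᶠ m : ℕ in atTop, ‖T ^ m‖ ≤ (r : ℝ) ^ m := by
    filter_upwards [hev, eventually_gt_atTop 0] with m hm hm0
    have h3 : ((‖T ^ m‖₊ : ENNReal) ^ (1 / (m : ℝ))) ^ (m : ℝ) ≤ (r : ENNReal) ^ (m : ℝ) :=
      ENNReal.rpow_le_rpow hm.le (by positivity)
    rw [← ENNReal.rpow_mul, one_div, inv_mul_cancel₀ (by positivity), ENNReal.rpow_one,
      ENNReal.rpow_natCast] at h3
    exact_mod_cast h3
  have hr : Tendsto (fun m : ℕ => (r : ℝ) ^ m) atTop (𝓝 0) :=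
    tendsto_pow_atTop_nhds_zero_of_lt_one r.2 (by exact_mod_cast hr2)
  exact squeeze_zero_norm' hb hr

end

theorem Stable.eq_zero {T Y : Matrix (Fin n) (Fin n) ℂ} (hT : Stable T) (hY : Y = T * Y * Tᴴ) :
    Y = 0 := by
  have h1 : ∀ m : ℕ, Y = T ^ m * Y * (T ^ m)ᴴ := by
    intro m
    induction m with
    | zero => simp
    | succ m ih =>
      rw [pow_succ', Matrix.conjTranspose_mul]
      calc Y = T * Y * Tᴴ := hY
        _ = T * (T ^ m * Y * (T ^ m)ᴴ) * Tᴴ := by rw [← ih]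
        _ = _ := by simp only [Matrix.mul_assoc]
  have h2 : Tendsto (fun m : ℕ => T ^ m * Y * (T ^ m)ᴴ) atTop (𝓝 (0 * Y * (0 : Matrix (Fin n) (Fin n) ℂ)ᴴ)) := by
    have h3 := hT.tendsto
    have h4 : Tendsto (fun m : ℕ => (T ^ m)ᴴ) atTop (𝓝 (0 : Matrix (Fin n) (Fin n) ℂ)ᴴ) :=
      ((continuous_id.matrix_conjTranspose).tendsto _).comp h3
    exact (h3.mul tendsto_const_nhds).mul h4
  have h5 : Tendsto (fun m : ℕ => T ^ m * Y * (T ^ m)ᴴ) atTop (𝓝 Y) := by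
    simp only [← h1]
    exact tendsto_const_nhds
  have := tendsto_nhds_unique h5 h2
  simpa using this

/-- eigenvalues of the adjoint of a stable matrix have modulus less than one -/
theorem Stable.adj {T : Matrix (Fin n) (Fin n) ℂ} (hT : Stable T) {μ : ℂ} {x : Fin n → ℂ}
    (hx : x ≠ 0) (h : Tᴴ *ᵥ x = μ • x) : ‖μ‖ < 1 := by
  have h1 : (Tᴴ - algebraMap ℂ (Matrix (Fin n) (Fin n) ℂ) μ).det = 0 := by
    apply Matrix.exists_mulVec_eq_zero_iff.1
    refine ⟨x, hx, ?_⟩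
    rw [Matrix.sub_mulVec, h, Algebra.algebraMap_eq_smul_one, Matrix.smul_mulVec,
      Matrix.one_mulVec, sub_self]
  have h2 : (T - algebraMap ℂ (Matrix (Fin n) (Fin n) ℂ) (star μ)).det = 0 := by
    have h3 : (T - algebraMap ℂ (Matrix (Fin n) (Fin n) ℂ) (star μ)) =
        (Tᴴ - algebraMap ℂ (Matrix (Fin n) (Fin n) ℂ) μ)ᴴ := by
      simp [Algebra.algebraMap_eq_smul_one, Matrix.conjTranspose_smul]
    rw [h3, Matrix.det_conjTranspose, h1, star_zero]
  obtain ⟨v, hv, hv0⟩ := Matrix.exists_mulVec_eq_zero_iff.2 h2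
  have h4 : T *ᵥ v = (star μ) • v := by
    rw [Matrix.sub_mulVec, sub_eq_zero] at hv0
    rw [hv0, Algebra.algebraMap_eq_smul_one, Matrix.smul_mulVec, Matrix.one_mulVec]
  have := hT _ v hv h4
  simpa using this

end Spec

section Cyc

variable {n : ℕ}

theorem star_mulVec_dot (T : Matrix (Fin n) (Fin n) ℂ) (v x : Fin n → ℂ) :
    star v ⬝ᵥ (Tᴴ *ᵥ x) = star (T *ᵥ v) ⬝ᵥ x := by
  rw [Matrix.star_mulVec, Matrix.dotProduct_mulVec]

open scoped ComplexOrder in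
theorem cyc {T : Matrix (Fin n) (Fin n) ℂ} (hT : Stable T) {k : Fin n → ℂ}
    (hk : 1 - T * Tᴴ = vecMulVec k (star k)) (x : Fin n → ℂ)
    (hx : ∀ j : ℕ, star (T ^ j *ᵥ k) ⬝ᵥ x = 0) : x = 0 := by
  by_contra hx0
  let S : Submodule ℂ (Fin n → ℂ) :=
    { carrier := {x | ∀ j : ℕ, star (T ^ j *ᵥ k) ⬝ᵥ x = 0}
      zero_mem' := fun j => by simp
      add_mem' := fun {a b} ha hb j => by
        rw [dotProduct_add, ha j, hb j, add_zero]
      smul_mem' := fun c a ha j => by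
        rw [dotProduct_smul, ha j, smul_zero] }
  have hinv : ∀ y ∈ S, (Tᴴ).mulVecLin y ∈ S := by
    intro y hy j
    rw [Matrix.mulVecLin_apply, star_mulVec_dot, Matrix.mulVec_mulVec, ← pow_succ']
    exact hy (j + 1)
  let f : Module.End ℂ S := (Tᴴ).mulVecLin.restrict hinv
  have : Nontrivial S := ⟨⟨⟨x, hx⟩, 0, fun h => hx0 (congrArg Subtype.val h)⟩⟩
  obtain ⟨μ, hμ⟩ := Module.End.exists_eigenvalue f
  obtain ⟨y, hy⟩ := hμ.exists_hasEigenvector
  have hy0 : (y : Fin n → ℂ) ≠ 0 := fun h => hy.2 (Subtype.ext h)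
  have hy1 : Tᴴ *ᵥ (y : Fin n → ℂ) = μ • (y : Fin n → ℂ) := by
    have h1 : f y = μ • y := hy.apply_eq_smul
    have h2 := congrArg Subtype.val h1
    simpa [f] using h2
  have hlt := hT.adj hy0 hy1
  have hky : star k ⬝ᵥ (y : Fin n → ℂ) = 0 := by simpa using y.2 0
  set z : Fin n → ℂ := (y : Fin n → ℂ) with hz
  have h3 : star z ⬝ᵥ ((1 - T * Tᴴ) *ᵥ z) = 0 := by
    rw [hk, Matrix.vecMulVec_mulVec, hky]
    simp
  have h4 : star z ⬝ᵥ ((T * Tᴴ) *ᵥ z) = (star μ * μ) * (star z ⬝ᵥ z) := by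
    rw [← Matrix.mulVec_mulVec, Matrix.dotProduct_mulVec]
    have : star z ᵥ* T = star (Tᴴ *ᵥ z) := by
      rw [Matrix.star_mulVec, Matrix.conjTranspose_conjTranspose]
    rw [this, hy1, star_smul, smul_dotProduct, dotProduct_smul]
    simp only [smul_eq_mul]
    ring
  rw [Matrix.sub_mulVec, dotProduct_sub, Matrix.one_mulVec, h4] at h3
  have h5 : (1 - star μ * μ) * (star z ⬝ᵥ z) = 0 := by linear_combination h3
  have h6 : star z ⬝ᵥ z ≠ 0 := by
    intro h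
    exact hy0 (dotProduct_star_self_eq_zero.1 h)
  rcases mul_eq_zero.1 h5 with h7 | h7
  · have h8 : (star μ * μ : ℂ) = ((‖μ‖ ^ 2 : ℝ) : ℂ) := by
      have := Complex.conj_mul' μ
      rw [Complex.star_def, this]
      push_cast
      rfl
    rw [h8, sub_eq_zero] at h7
    have h9 : ‖μ‖ ^ 2 = 1 := by exact_mod_cast h7.symm
    have := norm_nonneg μ
    nlinarith
  · exact h6 h7

/-- the Krylov matrix -/
def kry (T : Matrix (Fin n) (Fin n) ℂ) (k : Fin n → ℂ) : Matrix (Fin n) (Fin n) ℂ :=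
  Matrix.of fun i j => (T ^ (j : ℕ) *ᵥ k) i

theorem det_kry {T : Matrix (Fin n) (Fin n) ℂ} (hT : Stable T) {k : Fin n → ℂ}
    (hk : 1 - T * Tᴴ = vecMulVec k (star k)) : (kry T k).det ≠ 0 := by
  intro h0
  have h1 : ((kry T k)ᴴ).det = 0 := by rw [Matrix.det_conjTranspose, h0, star_zero]
  obtain ⟨x, hx, hx0⟩ := Matrix.exists_mulVec_eq_zero_iff.2 h1
  apply hx
  apply cyc hT hk
  have h2 : ∀ j : Fin n, star (T ^ (j : ℕ) *ᵥ k) ⬝ᵥ x = 0 := by
    intro j
    have := congrFun hx0 j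
    simpa [Matrix.mulVec, kry, dotProduct] using this
  intro m
  have hch := Matrix.pow_eq_aeval_mod_charpoly T m
  have hdeg : (Polynomial.X ^ m %ₘ T.charpoly).natDegree < n ∨ n = 0 := by
    rcases Nat.eq_zero_or_pos n with h | h
    · exact Or.inr h
    · left
      have h3 : T.charpoly ≠ 1 := by
        intro h4
        have := Matrix.charpoly_natDegree_eq_dim T
        rw [h4] at this
        simp at this
        omega
      have := Polynomial.natDegree_modByMonic_lt (Polynomial.X ^ m) (Matrix.charpoly_monic T) h3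
      rwa [Matrix.charpoly_natDegree_eq_dim, Fintype.card_fin] at this
  rcases hdeg with hdeg | hdeg
  · rw [hch, Polynomial.aeval_eq_sum_range' hdeg, Matrix.sum_mulVec, star_sum, sum_dotProduct]
    refine Finset.sum_eq_zero fun i hi => ?_
    have := h2 ⟨i, Finset.mem_range.1 hi⟩
    simp only at this
    rw [Matrix.smul_mulVec, star_smul, smul_dotProduct, this, smul_zero]
  · subst hdeg
    simp

theorem mul_kry (T : Matrix (Fin n) (Fin n) ℂ) (k : Fin n → ℂ) (h : (kry T k).det ≠ 0) :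
    T * kry T k = kry T k * comp ((kry T k)⁻¹ *ᵥ (T ^ n *ᵥ k)) := by
  have hu : IsUnit (kry T k).det := isUnit_iff_ne_zero.2 h
  have hcol : ∀ j : Fin n, ∀ i, (T * kry T k) i j = (T ^ ((j : ℕ) + 1) *ᵥ k) i := by
    intro j i
    have : (T ^ ((j : ℕ) + 1) *ᵥ k) = T *ᵥ (T ^ (j : ℕ) *ᵥ k) := by
      rw [Matrix.mulVec_mulVec, ← pow_succ']
    rw [this]
    simp [Matrix.mul_apply, Matrix.mulVec, dotProduct, kry]
  ext i j
  rw [hcol]
  by_cases hj : (j : ℕ) + 1 < n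
  · have : ∀ l : Fin n, comp ((kry T k)⁻¹ *ᵥ (T ^ n *ᵥ k)) l j = if l = ⟨j + 1, hj⟩ then 1 else 0 := by
      intro l
      simp only [comp, Matrix.of_apply, hj, if_true]
      by_cases hl : (l : ℕ) = (j : ℕ) + 1
      · rw [if_pos hl, if_pos (Fin.ext hl)]
      · rw [if_neg hl, if_neg (fun h => hl (by rw [h]))]
    rw [Matrix.mul_apply]
    simp only [this, mul_ite, mul_one, mul_zero, Finset.sum_ite_eq', Finset.mem_univ, if_true]
    rfl
  · have hj' : (j : ℕ) + 1 = n := by have := j.2; omega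
    have : ∀ l : Fin n, comp ((kry T k)⁻¹ *ᵥ (T ^ n *ᵥ k)) l j = ((kry T k)⁻¹ *ᵥ (T ^ n *ᵥ k)) l := by
      intro l
      simp only [comp, Matrix.of_apply, hj, if_false]
    rw [Matrix.mul_apply]
    simp only [this]
    have h1 : kry T k *ᵥ ((kry T k)⁻¹ *ᵥ (T ^ n *ᵥ k)) = T ^ n *ᵥ k := by
      rw [Matrix.mulVec_mulVec, Matrix.mul_nonsing_inv _ hu, Matrix.one_mulVec]
    have h2 := congrFun h1 i
    rw [hj', ← h2]
    rfl

end Cyc

/-! ### Unitary invariants -/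

section Inv

variable {n : ℕ}

/-- real part from the pair `(M, Mᴴ)` -/
noncomputable def rp (X Y : Matrix (Fin n) (Fin n) ℂ) : Matrix (Fin n) (Fin n) ℂ :=
  (1 / 2 : ℂ) • (X + Y)

/-- imaginary part from the pair `(M, Mᴴ)` -/
noncomputable def ip (X Y : Matrix (Fin n) (Fin n) ℂ) : Matrix (Fin n) (Fin n) ℂ :=
  (1 / (2 * Complex.I) : ℂ) • (X - Y)

/-- the Lagrange polynomials with nodes `0, 1, ..., n-1` -/
noncomputable def lag (i : Fin n) : Polynomial ℂ :=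
  Lagrange.basis Finset.univ (fun j : Fin n => ((j : ℕ) : ℂ)) i

noncomputable def inva (X Y : Matrix (Fin n) (Fin n) ℂ) (i j : Fin n) : ℂ :=
  (Polynomial.aeval (rp X Y) (lag i) * ip X Y *
    (Polynomial.aeval (rp X Y) (lag j) * ip X Y)).trace

/-- conjugation as an algebra map -/
noncomputable def cj (B : Matrix (Fin n) (Fin n) ℂ) (hB : IsUnit B.det) :
    Matrix (Fin n) (Fin n) ℂ →ₐ[ℂ] Matrix (Fin n) (Fin n) ℂ :=
  AlgHom.ofLinearMap
    { toFun := fun Z => B⁻¹ * Z * B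
      map_add' := fun x y => by rw [Matrix.mul_add, Matrix.add_mul]
      map_smul' := fun c x => by
        rw [Matrix.mul_smul, Matrix.smul_mul, RingHom.id_apply] }
    (by simp [Matrix.nonsing_inv_mul _ hB])
    (fun x y => by
      show B⁻¹ * (x * y) * B = (B⁻¹ * x * B) * (B⁻¹ * y * B)
      calc B⁻¹ * (x * y) * B = B⁻¹ * (x * 1 * y) * B := by rw [Matrix.mul_one]
        _ = B⁻¹ * (x * (B * B⁻¹) * y) * B := by rw [Matrix.mul_nonsing_inv _ hB]
        _ = _ := by simp only [Matrix.mul_assoc])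

theorem cj_apply (B : Matrix (Fin n) (Fin n) ℂ) (hB : IsUnit B.det) (Z : Matrix (Fin n) (Fin n) ℂ) :
    cj B hB Z = B⁻¹ * Z * B := rfl

theorem trace_cj (B : Matrix (Fin n) (Fin n) ℂ) (hB : IsUnit B.det)
    (Z : Matrix (Fin n) (Fin n) ℂ) : (cj B hB Z).trace = Z.trace := by
  rw [cj_apply, Matrix.trace_mul_comm, ← Matrix.mul_assoc, Matrix.mul_nonsing_inv _ hB,
    Matrix.one_mul]

theorem inva_cj (B : Matrix (Fin n) (Fin n) ℂ) (hB : IsUnit B.det)
    (X Y : Matrix (Fin n) (Fin n) ℂ) (i j : Fin n) :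
    inva (cj B hB X) (cj B hB Y) i j = inva X Y i j := by
  have h1 : rp (cj B hB X) (cj B hB Y) = cj B hB (rp X Y) := by
    simp [rp]
  have h2 : ip (cj B hB X) (cj B hB Y) = cj B hB (ip X Y) := by
    simp [ip]
  unfold inva
  rw [h1, h2, Polynomial.aeval_algHom_apply, Polynomial.aeval_algHom_apply, ← map_mul, ← map_mul,
    ← map_mul, trace_cj]

/-- first basis vector -/
def e0 : Fin n → ℂ := fun i => if (i : ℕ) = 0 then 1 else 0

theorem kry_mulVec_e0 (T : Matrix (Fin n) (Fin n) ℂ) (k : Fin n → ℂ) : kry T k *ᵥ e0 = k := by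
  rcases Nat.eq_zero_or_pos n with rfl | hn
  · exact Subsingleton.elim _ _
  · funext i
    have : ∀ j : Fin n, (kry T k) i j * e0 j = if j = ⟨0, hn⟩ then k i else 0 := by
      intro j
      by_cases hj : (j : ℕ) = 0
      · have : j = ⟨0, hn⟩ := Fin.ext hj
        subst this
        simp [kry, e0]
      · rw [if_neg (fun h => hj (by rw [h]))]
        simp [e0, hj]
    simp [Matrix.mulVec, dotProduct, this]

/-- the parameter space -/
abbrev Par (n : ℕ) := (Fin n → ℂ) × (Fin n → ℂ) × (Fin n → ℂ)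

noncomputable def Wm (a : Fin n → ℂ) : Matrix (Fin n) (Fin n) ℂ :=
  sol (comp a) (vecMulVec e0 (star e0))

noncomputable def Nm (x : Par n) : Matrix (Fin n) (Fin n) ℂ :=
  sol (comp x.1) (vecMulVec x.2.1 (star e0) + vecMulVec e0 (star x.2.2))

noncomputable def F (x : Par n) (i j : Fin n) : ℝ :=
  (inva (Nm x * (Wm x.1)⁻¹) ((Nm x)ᴴ * (Wm x.1)⁻¹) i j).re

/-- the good set of parameters -/
def good (n : ℕ) : Set (Par n) := {x | (kmat (comp x.1)).det ≠ 0 ∧ (Wm x.1).det ≠ 0}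

theorem sm_coord {f : Par n → (Fin n → ℂ)} {x : Par n} (hf : ContDiffAt ℝ 1 f x) (i : Fin n) :
    ContDiffAt ℝ 1 (fun y => f y i) x := by
  rw [contDiffAt_pi] at hf
  exact hf i

theorem Sm.vecMulVec {f g : Par n → (Fin n → ℂ)} {x : Par n} (hf : ContDiffAt ℝ 1 f x)
    (hg : ContDiffAt ℝ 1 g x) : Sm (fun y => Matrix.vecMulVec (f y) (star (g y))) x := by
  intro i j
  simp only [Matrix.vecMulVec_apply, Pi.star_apply]
  exact (sm_coord hf i).mul (contDiffAt_star (sm_coord hg j))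

theorem sm_comp (x : Par n) : Sm (fun y : Par n => comp y.1) x := by
  intro i j
  simp only [comp, Matrix.of_apply]
  split_ifs
  · exact contDiffAt_const
  · exact contDiffAt_const
  · exact sm_coord contDiffAt_fst i

theorem sm_W {x : Par n} (hx : x ∈ good n) : Sm (fun y : Par n => Wm y.1) x :=
  Sm.sol (sm_comp x) (Sm.const _ x) hx.1

theorem sm_N {x : Par n} (hx : x ∈ good n) : Sm (fun y : Par n => Nm y) x := by
  refine Sm.sol (sm_comp x) (Sm.add ?_ ?_) hx.1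
  · exact Sm.vecMulVec (contDiffAt_fst.comp x contDiffAt_snd) contDiffAt_const
  · exact Sm.vecMulVec contDiffAt_const (contDiffAt_snd.comp x contDiffAt_snd)

theorem Sm.aeval {f : Par n → Matrix (Fin n) (Fin n) ℂ} {x : Par n} (hf : Sm f x)
    (p : Polynomial ℂ) : Sm (fun y => Polynomial.aeval (f y) p) x := by
  simp only [Polynomial.aeval_eq_sum_range]
  exact Sm.sum _ fun i _ => Sm.smul contDiffAt_const (hf.pow i)

theorem F_contDiffAt {x : Par n} (hx : x ∈ good n) (i j : Fin n) :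
    ContDiffAt ℝ 1 (fun y => F y i j) x := by
  have hG : Sm (fun y : Par n => (Wm y.1)⁻¹) x := (sm_W hx).inv hx.2
  have hX := (sm_N hx).mul hG
  have hY := ((sm_N hx).conjTranspose).mul hG
  have hR : Sm (fun y : Par n => rp (Nm y * (Wm y.1)⁻¹) ((Nm y)ᴴ * (Wm y.1)⁻¹)) x :=
    Sm.smul contDiffAt_const (hX.add hY)
  have hJ : Sm (fun y : Par n => ip (Nm y * (Wm y.1)⁻¹) ((Nm y)ᴴ * (Wm y.1)⁻¹)) x :=
    Sm.smul contDiffAt_const (hX.sub hY)
  have hT := (((hR.aeval (lag i)).mul hJ).mul ((hR.aeval (lag j)).mul hJ)).trace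
  exact (Complex.reCLM.contDiff.contDiffAt (x := _)).comp x hT

/-- **Key parametrisation.** -/
theorem exists_param {M T : Matrix (Fin n) (Fin n) ℂ} {k u v : Fin n → ℂ}
    (hk : 1 - T * Tᴴ = vecMulVec k (star k)) (hT : Stable T)
    (hM : M - T * M * Tᴴ = vecMulVec u (star k) + vecMulVec k (star v)) :
    ∃ x ∈ good n, ∀ i j, F x i j = (inva M Mᴴ i j).re := by
  have hB0 := det_kry hT hk
  have hBu : IsUnit (kry T k).det := isUnit_iff_ne_zero.2 hB0
  have hTB := mul_kry T k hB0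
  set B := kry T k with hB
  set a : Fin n → ℂ := B⁻¹ *ᵥ (T ^ n *ᵥ k) with ha
  have hBk : B⁻¹ *ᵥ k = e0 := by
    conv_lhs => rw [← kry_mulVec_e0 T k]
    rw [Matrix.mulVec_mulVec, ← hB, Matrix.nonsing_inv_mul _ hBu, Matrix.one_mulVec]
  have hA : comp a = B⁻¹ * T * B := by
    rw [Matrix.mul_assoc, hTB, ← Matrix.mul_assoc, Matrix.nonsing_inv_mul _ hBu, Matrix.one_mul]
  have hBH : IsUnit (Bᴴ).det := by
    rw [Matrix.det_conjTranspose]
    exact hBu.star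
  have hBinvH : (B⁻¹)ᴴ = (Bᴴ)⁻¹ := Matrix.conjTranspose_nonsing_inv B
  -- the general identity
  have key : ∀ Z : Matrix (Fin n) (Fin n) ℂ,
      B⁻¹ * Z * (B⁻¹)ᴴ - comp a * (B⁻¹ * Z * (B⁻¹)ᴴ) * (comp a)ᴴ =
        B⁻¹ * (Z - T * Z * Tᴴ) * (B⁻¹)ᴴ := by
    intro Z
    have h1 : comp a * B⁻¹ = B⁻¹ * T := by
      rw [hA, Matrix.mul_assoc, Matrix.mul_nonsing_inv _ hBu, Matrix.mul_one]
    have h2 : (B⁻¹)ᴴ * (comp a)ᴴ = Tᴴ * (B⁻¹)ᴴ := by
      rw [← Matrix.conjTranspose_mul, h1, Matrix.conjTranspose_mul]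
    have h3 : comp a * (B⁻¹ * Z * (B⁻¹)ᴴ) * (comp a)ᴴ = B⁻¹ * (T * Z * Tᴴ) * (B⁻¹)ᴴ := by
      calc comp a * (B⁻¹ * Z * (B⁻¹)ᴴ) * (comp a)ᴴ
          = (comp a * B⁻¹) * Z * ((B⁻¹)ᴴ * (comp a)ᴴ) := by simp only [Matrix.mul_assoc]
        _ = (B⁻¹ * T) * Z * (Tᴴ * (B⁻¹)ᴴ) := by rw [h1, h2]
        _ = _ := by simp only [Matrix.mul_assoc]
    rw [h3, Matrix.mul_sub, Matrix.sub_mul]
  have hvv : ∀ p q : Fin n → ℂ, B⁻¹ * vecMulVec p (star q) * (B⁻¹)ᴴ =
      vecMulVec (B⁻¹ *ᵥ p) (star (B⁻¹ *ᵥ q)) := by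
    intro p q
    rw [Matrix.mul_vecMulVec, Matrix.vecMulVec_mul, Matrix.star_mulVec]
  have hdet : (kmat (comp a)).det ≠ 0 := by
    apply det_kmat_ne_zero
    intro X hX
    have h1 : B * X * Bᴴ = T * (B * X * Bᴴ) * Tᴴ := by
      have h2 : T * B = B * comp a := hTB
      have h3 : Bᴴ * Tᴴ = (comp a)ᴴ * Bᴴ := by
        rw [← Matrix.conjTranspose_mul, h2, Matrix.conjTranspose_mul]
      calc B * X * Bᴴ = B * (comp a * X * (comp a)ᴴ) * Bᴴ := by rw [← hX]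
        _ = (B * comp a) * X * ((comp a)ᴴ * Bᴴ) := by simp only [Matrix.mul_assoc]
        _ = (T * B) * X * (Bᴴ * Tᴴ) := by rw [h2, h3]
        _ = _ := by simp only [Matrix.mul_assoc]
    have h2 := hT.eq_zero h1
    have h3 : X = B⁻¹ * (B * X * Bᴴ) * (Bᴴ)⁻¹ := by
      calc X = (B⁻¹ * B) * X * (Bᴴ * (Bᴴ)⁻¹) := by
            rw [Matrix.nonsing_inv_mul _ hBu, Matrix.mul_nonsing_inv _ hBH, Matrix.one_mul,
              Matrix.mul_one]
        _ = _ := by simp only [Matrix.mul_assoc]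
    rw [h3, h2]
    simp
  have hW : Wm a = B⁻¹ * (B⁻¹)ᴴ := by
    refine sol_eq _ _ _ hdet ?_
    have := key 1
    simp only [Matrix.mul_one] at this
    rw [this, hk, hvv, hBk]
  have hWinv : (Wm a)⁻¹ = Bᴴ * B := by
    rw [hW]
    apply Matrix.inv_eq_left_inv
    calc Bᴴ * B * (B⁻¹ * (B⁻¹)ᴴ) = Bᴴ * (B * B⁻¹) * (B⁻¹)ᴴ := by simp only [Matrix.mul_assoc]
      _ = 1 := by
        rw [Matrix.mul_nonsing_inv _ hBu, Matrix.mul_one, hBinvH, Matrix.mul_nonsing_inv _ hBH]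
  have hWdet : (Wm a).det ≠ 0 := by
    rw [hW, Matrix.det_mul, Matrix.det_conjTranspose]
    have h1 : (B⁻¹).det ≠ 0 := by
      rw [Matrix.det_nonsing_inv, Ring.inverse_eq_inv']
      exact inv_ne_zero hB0
    exact mul_ne_zero h1 (star_ne_zero.2 h1)
  refine ⟨(a, B⁻¹ *ᵥ u, B⁻¹ *ᵥ v), ⟨hdet, hWdet⟩, ?_⟩
  have hN : Nm (a, B⁻¹ *ᵥ u, B⁻¹ *ᵥ v) = B⁻¹ * M * (B⁻¹)ᴴ := by
    refine sol_eq _ _ _ hdet ?_
    rw [key, hM, Matrix.mul_add, Matrix.add_mul, hvv, hvv, hBk]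
  have hX : Nm (a, B⁻¹ *ᵥ u, B⁻¹ *ᵥ v) * (Wm a)⁻¹ = cj B hBu M := by
    rw [hN, hWinv, cj_apply]
    calc B⁻¹ * M * (B⁻¹)ᴴ * (Bᴴ * B) = B⁻¹ * M * ((B⁻¹)ᴴ * Bᴴ) * B := by
          simp only [Matrix.mul_assoc]
      _ = _ := by
        rw [hBinvH, Matrix.nonsing_inv_mul _ hBH, Matrix.mul_one]
  have hY : (Nm (a, B⁻¹ *ᵥ u, B⁻¹ *ᵥ v))ᴴ * (Wm a)⁻¹ = cj B hBu Mᴴ := by
    rw [hN, hWinv, cj_apply, Matrix.conjTranspose_mul, Matrix.conjTranspose_mul,
      Matrix.conjTranspose_conjTranspose]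
    calc B⁻¹ * (Mᴴ * (B⁻¹)ᴴ) * (Bᴴ * B) = B⁻¹ * Mᴴ * ((B⁻¹)ᴴ * Bᴴ) * B := by
          simp only [Matrix.mul_assoc]
      _ = _ := by
        rw [hBinvH, Matrix.nonsing_inv_mul _ hBH, Matrix.mul_one]
  intro i j
  show (inva _ _ i j).re = _
  simp only [hX, hY]
  rw [inva_cj]

end Inv

/-! ### Dimension count -/

section Dim

variable {n : ℕ}

/-- index set of the upper triangle -/
abbrev Up (n : ℕ) := {p : Fin n × Fin n // p.1 ≤ p.2}

noncomputable def Fu (x : Par n) : Up n → ℝ := fun p => F x p.1.1 p.1.2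

theorem dense_compl (hn : 6 * n < Fintype.card (Up n)) : Dense (Fu '' good n)ᶜ := by
  apply dense_compl_of_dimH_lt_finrank
  have h1 : dimH (Fu '' good n) ≤ dimH (good n) := by
    apply dimH_image_le_of_locally_lipschitzOn
    intro x hx
    have : ContDiffAt ℝ 1 (Fu (n := n)) x := by
      rw [contDiffAt_pi]
      intro p
      exact F_contDiffAt hx _ _
    obtain ⟨K, t, ht, hK⟩ := this.exists_lipschitzOnWith
    exact ⟨K, t, mem_nhdsWithin_of_mem_nhds ht, hK⟩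
  refine h1.trans_lt ?_
  have h2 : dimH (good n) ≤ Module.finrank ℝ (Par n) := by
    rw [← Real.dimH_univ_eq_finrank]
    exact dimH_mono (Set.subset_univ _)
  refine h2.trans_lt ?_
  have h3 : Module.finrank ℝ (Fin n → ℂ) = 2 * n := by
    rw [Module.finrank_pi_fintype]
    simp [Complex.finrank_real_complex, mul_comm]
  have h4 : Module.finrank ℝ (Par n) = 6 * n := by
    rw [Module.finrank_prod, Module.finrank_prod, h3]
    ring
  rw [h4, Module.finrank_fintype_fun_eq_card]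
  exact_mod_cast hn

end Dim

/-! ### The symmetric matrices `D + iC` -/

section Sym

variable {n : ℕ}

noncomputable def Dm (n : ℕ) : Matrix (Fin n) (Fin n) ℂ := Matrix.diagonal fun i => ((i : ℕ) : ℂ)

noncomputable def Cm (c : Fin n → Fin n → ℝ) : Matrix (Fin n) (Fin n) ℂ :=
  Matrix.of fun i j => ((c i j : ℝ) : ℂ)

noncomputable def Mm (c : Fin n → Fin n → ℝ) : Matrix (Fin n) (Fin n) ℂ :=
  Dm n + Complex.I • Cm c

theorem Dm_H : (Dm n)ᴴ = Dm n := by
  unfold Dm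
  rw [Matrix.diagonal_conjTranspose]
  congr 1
  funext i
  simp

theorem Cm_H {c : Fin n → Fin n → ℝ} (hc : ∀ i j, c i j = c j i) : (Cm c)ᴴ = Cm c := by
  ext i j
  simp [Cm, hc i j]

theorem Mm_H {c : Fin n → Fin n → ℝ} (hc : ∀ i j, c i j = c j i) :
    (Mm c)ᴴ = Dm n - Complex.I • Cm c := by
  unfold Mm
  rw [Matrix.conjTranspose_add, Matrix.conjTranspose_smul, Dm_H, Cm_H hc]
  simp [sub_eq_add_neg]

theorem Mm_T {c : Fin n → Fin n → ℝ} (hc : ∀ i j, c i j = c j i) : (Mm c)ᵀ = Mm c := by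
  ext i j
  by_cases h : i = j
  · subst h
    simp
  · simp [Mm, Dm, Cm, Matrix.diagonal_apply_ne _ h, Matrix.diagonal_apply_ne _ (Ne.symm h), hc i j]

theorem aeval_diagonal (d : Fin n → ℂ) (p : Polynomial ℂ) :
    Polynomial.aeval (Matrix.diagonal d) p = Matrix.diagonal fun i => p.eval (d i) := by
  have h := Polynomial.aeval_algHom_apply (Matrix.diagonalAlgHom ℂ (n := Fin n) (α := ℂ)) d p
  rw [Matrix.diagonalAlgHom_apply, Matrix.diagonalAlgHom_apply] at h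
  rw [h]
  congr 1
  funext i
  have h2 := Polynomial.aeval_algHom_apply (Pi.evalAlgHom ℂ (fun _ : Fin n => ℂ) i) d p
  simp only [Pi.evalAlgHom_apply, Polynomial.coe_aeval_eq_eval] at h2
  exact h2.symm

theorem aeval_Dm (i : Fin n) : Polynomial.aeval (Dm n) (lag i) = Matrix.single i i 1 := by
  unfold Dm lag
  rw [aeval_diagonal]
  ext a b
  by_cases hab : a = b
  · subst hab
    rw [Matrix.diagonal_apply_eq]
    by_cases hia : i = a
    · subst hia
      have h1 := Lagrange.eval_basis_self (s := Finset.univ)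
        (v := fun j : Fin n => ((j : ℕ) : ℂ)) (i := i) (by
        intro x _ y _ hxy
        simpa [Fin.ext_iff] using hxy) (Finset.mem_univ _)
      exact h1.trans (by simp)
    · have h1 := Lagrange.eval_basis_of_ne (s := Finset.univ)
        (v := fun j : Fin n => ((j : ℕ) : ℂ)) hia (Finset.mem_univ _)
      refine h1.trans ?_
      rw [Matrix.single_apply_of_ne]
      simp [hia]
  · rw [Matrix.diagonal_apply_ne _ hab, Matrix.single_apply_of_ne]
    rintro ⟨rfl, rfl⟩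
    exact hab rfl

theorem inva_Mm {c : Fin n → Fin n → ℝ} (hc : ∀ i j, c i j = c j i) (i j : Fin n) :
    inva (Mm c) (Mm c)ᴴ i j = ((c i j ^ 2 : ℝ) : ℂ) := by
  have h1 : rp (Mm c) (Mm c)ᴴ = Dm n := by
    rw [Mm_H hc]
    unfold rp Mm
    have : Dm n + Complex.I • Cm c + (Dm n - Complex.I • Cm c) = (2 : ℂ) • Dm n := by
      rw [two_smul]; abel
    rw [this, smul_smul]
    norm_num
  have h2 : ip (Mm c) (Mm c)ᴴ = Cm c := by
    rw [Mm_H hc]
    unfold ip Mm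
    have : Dm n + Complex.I • Cm c - (Dm n - Complex.I • Cm c) = (2 * Complex.I) • Cm c := by
      rw [mul_smul, two_smul]; abel
    rw [this, smul_smul, one_div, inv_mul_cancel₀ (by simp), one_smul]
  unfold inva
  rw [h1, h2, aeval_Dm, aeval_Dm]
  have h3 : Matrix.single i i (1 : ℂ) * Cm c * (Matrix.single j j 1 * Cm c) =
      Matrix.single i i (1 : ℂ) * (Cm c * (Matrix.single j j 1 * Cm c)) := by
    rw [Matrix.mul_assoc]
  rw [h3, Matrix.trace_single_mul]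
  simp only [Matrix.mul_apply, Matrix.single_apply, Cm, Matrix.of_apply]
  rw [Finset.sum_eq_single j]
  · rw [Finset.sum_eq_single j]
    · simp [hc j i, pow_two]
    · intro b _ hb
      simp [Ne.symm hb]
    · simp
  · intro b _ hb
    rw [Finset.sum_eq_zero, mul_zero]
    intro x _
    simp [Ne.symm hb]
  · simp

/-- entries of an eigenvector away from the maximal one are small -/
theorem eig_small {c : Fin n → Fin n → ℝ} {δ : ℝ} (hδ : 0 < δ) (hδn : δ * n ≤ 1 / 4)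
    (h0 : ∀ i j, 0 < c i j) (h1 : ∀ i j, c i j < 2 * δ) {x : Fin n → ℂ} {α : ℂ}
    (hx : Mm c *ᵥ x = α • x) {i0 : Fin n} (hmax : ∀ i, ‖x i‖ ≤ ‖x i0‖) (hpos : 0 < ‖x i0‖)
    (j : Fin n) (hj : j ≠ i0) : ‖x j‖ ≤ 4 * δ * n * ‖x i0‖ := by
  have heq : ∀ i : Fin n, (((i : ℕ) : ℂ) - α) * x i = - Complex.I * ∑ l, ((c i l : ℝ) : ℂ) * x l := by
    intro i
    have h2 := congrFun hx i
    simp only [Mm, Matrix.add_mulVec, Matrix.smul_mulVec, Pi.add_apply, Pi.smul_apply,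
      smul_eq_mul, Dm, Matrix.mulVec_diagonal] at h2
    have h3 : (Cm c *ᵥ x) i = ∑ l, ((c i l : ℝ) : ℂ) * x l := rfl
    rw [h3] at h2
    linear_combination h2
  have hbd : ∀ i, ‖∑ l, ((c i l : ℝ) : ℂ) * x l‖ ≤ 2 * δ * n * ‖x i0‖ := by
    intro i
    calc ‖∑ l, ((c i l : ℝ) : ℂ) * x l‖ ≤ ∑ l, ‖((c i l : ℝ) : ℂ) * x l‖ := norm_sum_le _ _
      _ ≤ ∑ _l : Fin n, 2 * δ * ‖x i0‖ := by
        refine Finset.sum_le_sum fun l _ => ?_
        rw [norm_mul, Complex.norm_real, Real.norm_eq_abs, abs_of_pos (h0 i l)]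
        exact mul_le_mul (h1 i l).le (hmax l) (norm_nonneg _) (by positivity)
      _ = _ := by
        rw [Finset.sum_const, Finset.card_univ, Fintype.card_fin, nsmul_eq_mul]
        ring
  have hn : ∀ i : Fin n, ‖((i : ℕ) : ℂ) - α‖ * ‖x i‖ ≤ 2 * δ * n * ‖x i0‖ := by
    intro i
    rw [← norm_mul, heq i, norm_mul, norm_neg, Complex.norm_I, one_mul]
    exact hbd i
  have ha : ‖((i0 : ℕ) : ℂ) - α‖ ≤ 2 * δ * n := le_of_mul_le_mul_right (hn i0) hpos
  have hb : (1 : ℝ) ≤ ‖((j : ℕ) : ℂ) - ((i0 : ℕ) : ℂ)‖ := by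
    have h4 : ((j : ℕ) : ℤ) - ((i0 : ℕ) : ℤ) ≠ 0 := by
      intro h
      exact hj (Fin.ext (by omega))
    have h5 : (1 : ℤ) ≤ |((j : ℕ) : ℤ) - ((i0 : ℕ) : ℤ)| := Int.one_le_abs h4
    have h6 : ((j : ℕ) : ℂ) - ((i0 : ℕ) : ℂ) = (((((j : ℕ) : ℤ) - ((i0 : ℕ) : ℤ) : ℤ) : ℝ) : ℂ) := by
      push_cast
      ring
    rw [h6, Complex.norm_real, Real.norm_eq_abs, ← Int.cast_abs]
    exact_mod_cast h5
  have hc' : (1 : ℝ) / 2 ≤ ‖((j : ℕ) : ℂ) - α‖ := by
    have h7 : ((j : ℕ) : ℂ) - ((i0 : ℕ) : ℂ) = (((j : ℕ) : ℂ) - α) - (((i0 : ℕ) : ℂ) - α) := by ring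
    rw [h7] at hb
    have := norm_sub_le (((j : ℕ) : ℂ) - α) (((i0 : ℕ) : ℂ) - α)
    nlinarith
  have hd := hn j
  have := norm_nonneg (x j)
  nlinarith

theorem sum_norm_le {x : Fin n → ℂ} {i0 : Fin n} {η : ℝ} (hη : 0 ≤ η)
    (h : ∀ j, j ≠ i0 → ‖x j‖ ≤ η * ‖x i0‖) : ∑ i, ‖x i‖ ≤ (1 + η * n) * ‖x i0‖ := by
  calc ∑ i, ‖x i‖ ≤ ∑ i, ((if i = i0 then ‖x i0‖ else 0) + η * ‖x i0‖) := by
        refine Finset.sum_le_sum fun i _ => ?_
        by_cases hi : i = i0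
        · subst hi
          simp only [if_true]
          have := mul_nonneg hη (norm_nonneg (x i))
          linarith
        · rw [if_neg hi, zero_add]
          exact h i hi
    _ = _ := by
        rw [Finset.sum_add_distrib]
        simp only [Finset.sum_ite_eq', Finset.mem_univ, if_true, Finset.sum_const,
          Finset.card_univ, Fintype.card_fin, nsmul_eq_mul]
        ring

theorem exists_max {x : Fin n → ℂ} (hx : x ≠ 0) :
    ∃ i0, (∀ i, ‖x i‖ ≤ ‖x i0‖) ∧ 0 < ‖x i0‖ := by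
  have hne : (Finset.univ : Finset (Fin n)).Nonempty := by
    by_contra h
    apply hx
    funext i
    exact absurd ⟨i, Finset.mem_univ i⟩ h
  obtain ⟨i0, _, hi0⟩ := Finset.exists_max_image Finset.univ (fun i => ‖x i‖) hne
  refine ⟨i0, fun i => hi0 i (Finset.mem_univ i), ?_⟩
  by_contra h
  apply hx
  funext i
  have h1 := hi0 i (Finset.mem_univ i)
  have h2 : ‖x i‖ ≤ 0 := by linarith
  simpa using h2

theorem not_orth {c : Fin n → Fin n → ℝ} {δ : ℝ} (hδ : 0 < δ) (hδn : δ * n ≤ 1 / 4)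
    (hδn2 : 4 * δ * n * n ≤ 1 / 5)
    (hc : ∀ i j, c i j = c j i)
    (h0 : ∀ i j, δ < c i j) (h1 : ∀ i j, c i j < 2 * δ) :
    ¬ ∃ x y : Fin n → ℂ, ∃ a b : ℂ, x ≠ 0 ∧ y ≠ 0 ∧
      Mm c *ᵥ x = a • x ∧ Mm c *ᵥ y = b • y ∧ star x ⬝ᵥ y = 0 := by
  rintro ⟨x, y, a, b, hx, hy, hax, hby, hxy⟩
  have hpos : ∀ i j, 0 < c i j := fun i j => hδ.trans (h0 i j)
  -- `⟨x, C y⟩ = 0`
  have e1 : star x ⬝ᵥ (Mm c *ᵥ y) = 0 := by
    rw [hby, dotProduct_smul, hxy, smul_zero]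
  have e2 : star x ⬝ᵥ ((Mm c)ᴴ *ᵥ y) = 0 := by
    rw [star_mulVec_dot, hax, star_smul, smul_dotProduct, hxy, smul_zero]
  have e3 : star x ⬝ᵥ (Cm c *ᵥ y) = 0 := by
    have h2 : Mm c - (Mm c)ᴴ = (2 * Complex.I) • Cm c := by
      rw [Mm_H hc]
      unfold Mm
      rw [mul_smul, two_smul]; abel
    have h3 : star x ⬝ᵥ ((Mm c - (Mm c)ᴴ) *ᵥ y) = 0 := by
      rw [Matrix.sub_mulVec, dotProduct_sub, e1, e2, sub_zero]
    rw [h2, Matrix.smul_mulVec, dotProduct_smul, smul_eq_mul] at h3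
    rcases mul_eq_zero.1 h3 with h4 | h4
    · simp at h4
    · exact h4
  obtain ⟨i0, hi0, hX⟩ := exists_max hx
  obtain ⟨j0, hj0, hY⟩ := exists_max hy
  have hsx := eig_small hδ hδn hpos h1 hax hi0 hX
  have hsy := eig_small hδ hδn hpos h1 hby hj0 hY
  have hη : 0 ≤ 4 * δ * n := by positivity
  have hSx := sum_norm_le hη hsx
  have hSy := sum_norm_le hη hsy
  -- expand
  have e4 : ∑ p : Fin n × Fin n, star (x p.1) * ((c p.1 p.2 : ℝ) : ℂ) * y p.2 = 0 := by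
    rw [← e3]
    simp only [dotProduct, Matrix.mulVec, Cm, Matrix.of_apply, Fintype.sum_prod_type,
      Finset.mul_sum, Pi.star_apply, mul_assoc]
  have e5 : ‖star (x i0) * ((c i0 j0 : ℝ) : ℂ) * y j0‖ ≤
      ∑ p ∈ Finset.univ.erase (i0, j0), ‖star (x p.1) * ((c p.1 p.2 : ℝ) : ℂ) * y p.2‖ := by
    have h2 := Finset.add_sum_erase Finset.univ
      (fun p : Fin n × Fin n => star (x p.1) * ((c p.1 p.2 : ℝ) : ℂ) * y p.2)
      (Finset.mem_univ (i0, j0))
    simp only [e4] at h2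
    have h3 : star (x i0) * ((c i0 j0 : ℝ) : ℂ) * y j0 =
        - ∑ p ∈ Finset.univ.erase (i0, j0), star (x p.1) * ((c p.1 p.2 : ℝ) : ℂ) * y p.2 := by
      linear_combination h2
    rw [h3, norm_neg]
    exact norm_sum_le _ _
  have e6 : ∀ p : Fin n × Fin n, ‖star (x p.1) * ((c p.1 p.2 : ℝ) : ℂ) * y p.2‖ =
      c p.1 p.2 * (‖x p.1‖ * ‖y p.2‖) := by
    intro p
    rw [norm_mul, norm_mul, norm_star, Complex.norm_real, Real.norm_eq_abs,
      abs_of_pos (hpos _ _)]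
    ring
  have e7 : ∑ p ∈ Finset.univ.erase (i0, j0), ‖star (x p.1) * ((c p.1 p.2 : ℝ) : ℂ) * y p.2‖ ≤
      2 * δ * ((∑ i, ‖x i‖) * (∑ j, ‖y j‖) - ‖x i0‖ * ‖y j0‖) := by
    have h2 : (∑ i, ‖x i‖) * (∑ j, ‖y j‖) = ∑ p : Fin n × Fin n, ‖x p.1‖ * ‖y p.2‖ := by
      rw [Finset.sum_mul_sum, Fintype.sum_prod_type]
    have h3 := Finset.add_sum_erase Finset.univ
      (fun p : Fin n × Fin n => ‖x p.1‖ * ‖y p.2‖) (Finset.mem_univ (i0, j0))
    simp only at h3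
    have h4 : (∑ i, ‖x i‖) * (∑ j, ‖y j‖) - ‖x i0‖ * ‖y j0‖ =
        ∑ p ∈ Finset.univ.erase (i0, j0), ‖x p.1‖ * ‖y p.2‖ := by
      rw [h2, ← h3]; ring
    rw [h4, Finset.mul_sum]
    refine Finset.sum_le_sum fun p _ => ?_
    rw [e6 p]
    exact mul_le_mul_of_nonneg_right (h1 _ _).le (by positivity)
  have e8 : δ * (‖x i0‖ * ‖y j0‖) < ‖star (x i0) * ((c i0 j0 : ℝ) : ℂ) * y j0‖ := by
    have := e6 (i0, j0)
    simp only at this
    rw [this]
    exact mul_lt_mul_of_pos_right (h0 _ _) (by positivity)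
  have e9 : (∑ i, ‖x i‖) * (∑ j, ‖y j‖) ≤
      ((1 + 4 * δ * n * n) * ‖x i0‖) * ((1 + 4 * δ * n * n) * ‖y j0‖) := by
    apply mul_le_mul hSx hSy (Finset.sum_nonneg fun _ _ => norm_nonneg _) (by positivity)
  have e10 : ((1 + 4 * δ * n * n) * ‖x i0‖) * ((1 + 4 * δ * n * n) * ‖y j0‖) ≤
      (36 / 25) * (‖x i0‖ * ‖y j0‖) := by
    have h2 : (1 + 4 * δ * n * n) ^ 2 ≤ 36 / 25 := by
      have : 0 ≤ 4 * δ * n * n := by positivity
      nlinarith
    have h3 : 0 < ‖x i0‖ * ‖y j0‖ := by positivity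
    nlinarith
  have h3 : 0 < ‖x i0‖ * ‖y j0‖ := by positivity
  have h4 := e8.trans_le (e5.trans e7)
  have h5 : 2 * δ * ((∑ i, ‖x i‖) * (∑ j, ‖y j‖) - ‖x i0‖ * ‖y j0‖) ≤
      2 * δ * ((36 / 25) * (‖x i0‖ * ‖y j0‖) - ‖x i0‖ * ‖y j0‖) := by
    apply mul_le_mul_of_nonneg_left _ (by positivity)
    linarith
  have h6 : 0 < δ * (‖x i0‖ * ‖y j0‖) := by positivity
  nlinarith

end Sym

/-- the final counterexample, `n = 13` -/
theorem main : ∃ M : Matrix (Fin 13) (Fin 13) ℂ, Mᵀ = M ∧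
    (¬ ∃ x y : Fin 13 → ℂ, ∃ a b : ℂ, x ≠ 0 ∧ y ≠ 0 ∧
      M *ᵥ x = a • x ∧ M *ᵥ y = b • y ∧ star x ⬝ᵥ y = 0) ∧
    ¬ ∃ T : Matrix (Fin 13) (Fin 13) ℂ, ∃ k u v : Fin 13 → ℂ,
        1 - T * Tᴴ = Matrix.vecMulVec k (star k) ∧
        (∀ μ : ℂ, ∀ x : Fin 13 → ℂ, x ≠ 0 → T *ᵥ x = μ • x → ‖μ‖ < 1) ∧
        M - T * M * Tᴴ = Matrix.vecMulVec u (star k) + Matrix.vecMulVec k (star v) := by
  have hcard : 6 * 13 < Fintype.card (Up 13) := by
    have : Fintype.card (Up 13) = 91 := by decide +kernel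
    omega
  have hd := dense_compl hcard
  set δ : ℝ := 1 / 3380 with hδ
  have hδ0 : 0 < δ := by norm_num [hδ]
  let U : Set (Up 13 → ℝ) := Set.pi Set.univ fun _ => Set.Ioo (δ ^ 2) ((2 * δ) ^ 2)
  have hUo : IsOpen U := isOpen_set_pi Set.finite_univ fun _ _ => isOpen_Ioo
  have hUn : U.Nonempty := ⟨fun _ => 2 * δ ^ 2, fun _ _ => by
    constructor <;> nlinarith [pow_pos hδ0 2]⟩
  obtain ⟨s, hs, hsU⟩ := hd.exists_mem_open hUo hUn
  have hs' : ∀ p : Up 13, δ ^ 2 < s p ∧ s p < (2 * δ) ^ 2 := fun p => hsU p (Set.mem_univ _)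
  let c : Fin 13 → Fin 13 → ℝ := fun i j => Real.sqrt (s ⟨(min i j, max i j), min_le_max⟩)
  have hcs : ∀ i j, c i j = c j i := by
    intro i j
    simp only [c]
    congr 2
    exact Subtype.ext (Prod.ext (min_comm _ _) (max_comm _ _))
  have hc0 : ∀ i j, δ < c i j := fun i j => Real.lt_sqrt_of_sq_lt (hs' _).1
  have hc1 : ∀ i j, c i j < 2 * δ := fun i j => by
    rw [Real.sqrt_lt' (by positivity)]
    exact (hs' _).2
  refine ⟨Mm c, Mm_T hcs, ?_, ?_⟩
  · apply not_orth hδ0 _ _ hcs hc0 hc1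
    · rw [hδ]; norm_num
    · rw [hδ]; norm_num
  · rintro ⟨T, k, u, v, hk, hT, hM⟩
    obtain ⟨x, hx, hF⟩ := exists_param hk hT hM
    apply hs
    refine ⟨x, hx, ?_⟩
    funext p
    obtain ⟨⟨i, j⟩, hij⟩ := p
    show F x i j = _
    rw [hF, inva_Mm hcs, Complex.ofReal_re]
    simp only at hij
    simp only [c]
    have h1 : min i j = i := min_eq_left hij
    have h2 : max i j = j := max_eq_right hij
    rw [Real.sq_sqrt]
    · congr 1
      exact Subtype.ext (Prod.ext h1 h2)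
    · exact (pow_pos hδ0 2).le.trans (hs' _).1.le

end Pool.Agent.X283.TTO
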