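import Mathlib

set_option autoImplicit false
set_option linter.unusedSectionVars false

namespace Pool.Agent.X283.LMD

open Finset
open scoped Classical

variable {V : Type*} [Fintype V] (G : SimpleGraph V)

/-- Truncated distance: `0` if equal, `1` if adjacent, `2` otherwise. -/
noncomputable def a (w v : V) : ℕ := if w = v then 0 else if G.Adj w v then 1 else 2

theorem a_self (v : V) : a G v v = 0 := by simp [a]

theorem a_adj {w v : V} (h : G.Adj w v) : a G w v = 1 := by simp [a, h, h.ne]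

theorem a_eq_one {w v : V} : a G w v = 1 ↔ G.Adj w v := by
  unfold a
  by_cases h : w = v
  · subst h; simp
  · by_cases h' : G.Adj w v <;> simp [h, h']

theorem a_eq_zero {w v : V} : a G w v = 0 ↔ w = v := by
  unfold a
  by_cases h : w = v
  · simp [h]
  · by_cases h' : G.Adj w v <;> simp [h, h']

theorem a_two {w v : V} (h : w ≠ v) (h' : ¬ G.Adj w v) : a G w v = 2 := by
  simp [a, h, h']

theorem a_two_iff {w v : V} : a G w v = 2 ↔ w ≠ v ∧ ¬ G.Adj w v := by
  unfold a
  by_cases h : w = v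
  · simp [h]
  · by_cases h' : G.Adj w v <;> simp [h, h']

/-- `W` resolves all edges by truncated distance. -/
def LR (W : Finset V) : Prop := ∀ u v, G.Adj u v → ∃ w ∈ W, a G w u ≠ a G w v

/-- `uv` is a private edge of `w` with respect to `W`. -/
def Priv (W : Finset V) (w u v : V) : Prop :=
  G.Adj u v ∧ v ∉ W ∧ (u = w ∨ u ∉ W) ∧ a G w u ≠ a G w v ∧
    ∀ w' ∈ W, w' ≠ w → a G w' u = a G w' v

/-- Simplicial vertices of degree at least two. -/
def inner (w : V) : Prop :=
  (∃ u v, u ≠ v ∧ G.Adj w u ∧ G.Adj w v) ∧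
    ∀ u v, G.Adj w u → G.Adj w v → u ≠ v → G.Adj u v

noncomputable def inn (W : Finset V) : ℕ := (W.filter (fun w => inner G w)).card

/-- twice the number of edges inside `W`. -/
noncomputable def e2 (W : Finset V) : ℕ := ∑ w ∈ W, (W.filter (fun v => G.Adj w v)).card

noncomputable def A (W : Finset V) (s t : V → V) (y : V) : Finset V :=
  W.filter (fun w => s w = w ∧ t w = y)

noncomputable def hvy (ω : ℕ) (W : Finset V) (s t : V → V) : Finset V :=
  univ.filter (fun y => (A W s t y).card = ω - 1)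

structure Ctx (ω : ℕ) (W : Finset V) (s t : V → V) : Prop where
  cf : G.CliqueFree (ω + 1)
  om : 3 ≤ ω
  con : G.Connected
  crd : ω + 1 ≤ Fintype.card V
  lr : LR G W
  min1 : ∀ W', LR G W' → W.card ≤ W'.card
  min2 : ∀ W', LR G W' → W'.card = W.card → inn G W ≤ inn G W'
  min3 : ∀ W', LR G W' → W'.card = W.card → inn G W' = inn G W → e2 G W' ≤ e2 G W
  priv : ∀ w ∈ W, Priv G W w (s w) (t w)
  min4 : ∀ s' t' : V → V, (∀ w ∈ W, Priv G W w (s' w) (t' w)) →
    (hvy ω W s t).card ≤ (hvy ω W s' t').card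

variable {G}

theorem unres_notMem {W : Finset V} {u v : V} (h : G.Adj u v)
    (h2 : ∀ w ∈ W, a G w u = a G w v) : u ∉ W ∧ v ∉ W := by
  constructor
  · intro hu
    have := h2 u hu
    rw [a_self, a_adj G h] at this
    omega
  · intro hv
    have := h2 v hv
    rw [a_self, a_adj G h.symm] at this
    omega

theorem exists_priv {W : Finset V} (hlr : LR G W) (hmin : ∀ W', LR G W' → W.card ≤ W'.card)
    {w : V} (hw : w ∈ W) : ∃ u v, Priv G W w u v := by
  have h1 : ¬ LR G (W.erase w) := by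
    intro h
    have := hmin _ h
    have h2 := Finset.card_erase_lt_of_mem hw
    omega
  unfold LR at h1
  push Not at h1
  obtain ⟨u, v, huv, h2⟩ := h1
  obtain ⟨hu, hv⟩ := unres_notMem huv h2
  have hres : a G w u ≠ a G w v := by
    obtain ⟨w0, hw0, hne⟩ := hlr u v huv
    by_cases h : w0 = w
    · rwa [h] at hne
    · exact absurd (h2 w0 (Finset.mem_erase.2 ⟨h, hw0⟩)) hne
  have heq : ∀ w' ∈ W, w' ≠ w → a G w' u = a G w' v := fun w' h1 h3 =>
    h2 w' (Finset.mem_erase.2 ⟨h3, h1⟩)
  have hu' : u = w ∨ u ∉ W := by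
    by_cases h : u = w
    · exact Or.inl h
    · right; intro h3; exact hu (Finset.mem_erase.2 ⟨h, h3⟩)
  have hv' : v = w ∨ v ∉ W := by
    by_cases h : v = w
    · exact Or.inl h
    · right; intro h3; exact hv (Finset.mem_erase.2 ⟨h, h3⟩)
  by_cases hvw : v = w
  · refine ⟨v, u, huv.symm, ?_, Or.inl hvw, fun h => hres h.symm, fun w' h1 h3 => (heq w' h1 h3).symm⟩
    rcases hu' with h | h
    · exact absurd (h.trans hvw.symm) huv.ne
    · exact h
  · refine ⟨u, v, huv, ?_, hu', hres, heq⟩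
    rcases hv' with h | h
    · exact absurd h hvw
    · exact h

theorem clique_card {ω : ℕ} (hcf : G.CliqueFree (ω + 1)) {S : Finset V} (hS : G.IsClique (S : Set V)) :
    S.card ≤ ω := by
  by_contra h
  push Not at h
  have h1 : G.CliqueFree S.card := hcf.mono h
  exact h1 S ⟨hS, rfl⟩

section ctx

variable {ω : ℕ} {W : Finset V} {s t : V → V}

theorem mem_A {y w : V} : w ∈ A W s t y ↔ w ∈ W ∧ s w = w ∧ t w = y := by
  simp [A]

theorem factB (c : Ctx G ω W s t) {y w w' : V} (hw : w ∈ A W s t y) (hw' : w' ∈ W) (hne : w' ≠ w) :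
    a G w' w = a G w' y := by
  obtain ⟨h1, h2, h3⟩ := mem_A.1 hw
  have := (c.priv w h1).2.2.2.2 w' hw' hne
  rwa [h2, h3] at this

theorem A_adj (c : Ctx G ω W s t) {y w : V} (hw : w ∈ A W s t y) : G.Adj w y := by
  obtain ⟨h1, h2, h3⟩ := mem_A.1 hw
  have := (c.priv w h1).1
  rwa [h2, h3] at this

theorem A_notMem (c : Ctx G ω W s t) {y w : V} (hw : w ∈ A W s t y) : y ∉ W := by
  obtain ⟨h1, h2, h3⟩ := mem_A.1 hw
  have := (c.priv w h1).2.1
  rwa [h3] at this

theorem A_clique' (c : Ctx G ω W s t) {y w w' : V} (hw : w ∈ A W s t y) (hw' : w' ∈ A W s t y)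
    (hne : w' ≠ w) : G.Adj w' w := by
  have h1 := factB c hw (mem_A.1 hw').1 hne
  rw [a_adj G (A_adj c hw')] at h1
  exact (a_eq_one G).1 h1

theorem A_clique (c : Ctx G ω W s t) (y : V) :
    G.IsClique ((insert y (A W s t y) : Finset V) : Set V) := by
  intro u hu v hv huv
  simp only [Finset.coe_insert, Set.mem_insert_iff, Finset.mem_coe] at hu hv
  rcases hu with hu | hu <;> rcases hv with hv | hv
  · exact absurd (hu.trans hv.symm) huv
  · subst hu; exact (A_adj c hv).symm
  · subst hv; exact A_adj c hu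
  · exact A_clique' c hv hu huv

theorem y_notMem_A (c : Ctx G ω W s t) (y : V) : y ∉ A W s t y := by
  intro h
  exact A_notMem c h (mem_A.1 h).1

theorem A_card (c : Ctx G ω W s t) (y : V) : (A W s t y).card + 1 ≤ ω := by
  have h := clique_card c.cf (A_clique c y)
  rwa [Finset.card_insert_of_notMem (y_notMem_A c y)] at h

/-- `y` is heavy. -/
def Hv (ω : ℕ) (W : Finset V) (s t : V → V) (y : V) : Prop := (A W s t y).card = ω - 1

theorem hv_nonempty (c : Ctx G ω W s t) {y : V} (hy : Hv ω W s t y) : (A W s t y).Nonempty := by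
  rw [← Finset.card_pos, hy]
  have := c.om
  omega

theorem hv_notMem (c : Ctx G ω W s t) {y : V} (hy : Hv ω W s t y) : y ∉ W := by
  obtain ⟨b, hb⟩ := hv_nonempty c hy
  exact A_notMem c hb

theorem hv_other (c : Ctx G ω W s t) {y : V} (hy : Hv ω W s t y) (p : V) :
    ∃ b ∈ A W s t y, b ≠ p := by
  have h : 1 < (A W s t y).card := by
    rw [hy]; have := c.om; omega
  obtain ⟨u, hu, v, hv, huv⟩ := Finset.one_lt_card.1 h
  by_cases h1 : u = p
  · exact ⟨v, hv, fun h2 => huv (h1.trans h2.symm)⟩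
  · exact ⟨u, hu, h1⟩

/-- Vertices outside of `Q` cannot be adjacent to all of `Q`. -/
theorem not_all_adj (c : Ctx G ω W s t) {y : V} (hy : Hv ω W s t y) {x : V}
    (hx1 : ∀ q ∈ A W s t y, G.Adj x q) (hx2 : G.Adj x y) : False := by
  have hcl : G.IsClique ((insert x (insert y (A W s t y)) : Finset V) : Set V) := by
    rw [Finset.coe_insert, SimpleGraph.isClique_insert]
    refine ⟨A_clique c y, ?_⟩
    intro b hb _
    simp only [Finset.coe_insert, Set.mem_insert_iff, Finset.mem_coe] at hb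
    rcases hb with hb | hb
    · subst hb; exact hx2
    · exact hx1 b hb
  have h := clique_card c.cf hcl
  have hxQ : x ∉ insert y (A W s t y) := by
    intro hx
    rcases Finset.mem_insert.1 hx with h1 | h1
    · subst h1; exact hx2.ne rfl
    · exact (hx1 x h1).ne rfl
  rw [Finset.card_insert_of_notMem hxQ, Finset.card_insert_of_notMem (y_notMem_A c y), hy] at h
  have := c.om
  omega

theorem key4 (c : Ctx G ω W s t) {y : V} (hy : Hv ω W s t y) {q w' : V}
    (hq : q = y ∨ q ∈ A W s t y) (hw' : w' ∈ W) (hadj : G.Adj w' q) : w' ∈ A W s t y := by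
  by_contra hcon
  have h1 : ∀ q' ∈ A W s t y, a G w' q' = a G w' y := by
    intro q' hq'
    apply factB c hq' hw'
    rintro rfl
    exact hcon hq'
  have h2 : a G w' y = 1 := by
    rcases hq with hq | hq
    · subst hq; exact a_adj G hadj
    · rw [← h1 q hq]; exact a_adj G hadj
  refine not_all_adj c hy (x := w') ?_ ((a_eq_one G).1 h2)
  intro q' hq'
  rw [← a_eq_one G, h1 q' hq', h2]

theorem key5 (c : Ctx G ω W s t) {y : V} (hy : Hv ω W s t y) {b x : V}
    (hb : b ∈ A W s t y) (hxy : x ≠ y) (hadj : G.Adj b x) : A W s t x = ∅ := by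
  rw [Finset.eq_empty_iff_forall_notMem]
  intro w' hw'
  have hne : b ≠ w' := by
    rintro rfl
    exact hxy ((mem_A.1 hw').2.2.symm.trans (mem_A.1 hb).2.2)
  have h1 := factB c hw' (mem_A.1 hb).1 hne
  rw [a_adj G hadj, a_eq_one] at h1
  have h2 := key4 c hy (Or.inr hb) (mem_A.1 hw').1 h1.symm
  exact hxy ((mem_A.1 hw').2.2.symm.trans (mem_A.1 h2).2.2)

theorem star1 (c : Ctx G ω W s t) {y p : V} (hy : Hv ω W s t y) (hp : p ∈ A W s t y)
    {u v : V} (hpr : Priv G W p u v) : u = p ∧ v = y := by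
  by_contra hn
  have hpW : p ∈ W := (mem_A.1 hp).1
  set s' := Function.update s p u with hs'
  set t' := Function.update t p v with ht'
  have hpriv' : ∀ w ∈ W, Priv G W w (s' w) (t' w) := by
    intro w hw
    by_cases h : w = p
    · subst h; simpa [hs', ht'] using hpr
    · simpa [hs', ht', h] using c.priv w hw
  have hom := c.om
  have hsub : hvy ω W s' t' ⊆ (hvy ω W s t).erase y := by
    intro z hz
    have hz' : (A W s' t' z).card = ω - 1 := by simpa [hvy] using hz
    have hzy : z ≠ y := by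
      rintro rfl
      have h1 : A W s' t' z ⊆ (A W s t z).erase p := by
        intro w hw
        obtain ⟨h1, h2, h3⟩ := mem_A.1 hw
        by_cases h : w = p
        · exfalso
          subst h
          simp only [hs', ht', Function.update_self] at h2 h3
          exact hn ⟨h2, h3⟩
        · simp only [hs', ht', Function.update_of_ne h] at h2 h3
          exact Finset.mem_erase.2 ⟨h, mem_A.2 ⟨h1, h2, h3⟩⟩
      have h2 := Finset.card_le_card h1
      rw [hz', Finset.card_erase_of_mem hp, hy] at h2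
      omega
    rw [Finset.mem_erase]
    refine ⟨hzy, ?_⟩
    by_cases hpz : p ∈ A W s' t' z
    · exfalso
      obtain ⟨h1, h2, h3⟩ := mem_A.1 hpz
      simp only [hs', ht', Function.update_self] at h2 h3
      have hadj : G.Adj p z := by
        have := hpr.1
        rwa [h2, h3] at this
      have he := key5 c hy hp hzy hadj
      have h4 : A W s' t' z ⊆ {p} := by
        intro w hw
        obtain ⟨k1, k2, k3⟩ := mem_A.1 hw
        by_cases h : w = p
        · simp [h]
        · exfalso
          simp only [hs', ht', Function.update_of_ne h] at k2 k3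
          have : w ∈ A W s t z := mem_A.2 ⟨k1, k2, k3⟩
          rw [he] at this
          simp at this
      have h5 := Finset.card_le_card h4
      rw [hz', Finset.card_singleton] at h5
      omega
    · have h4 : A W s' t' z = A W s t z := by
        ext w
        by_cases h : w = p
        · subst h
          constructor
          · intro h6; exact absurd h6 hpz
          · intro h6
            exact absurd ((mem_A.1 h6).2.2.symm.trans (mem_A.1 hp).2.2) hzy
        · simp only [mem_A, hs', ht', Function.update_of_ne h]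
      rw [h4] at hz'
      simpa [hvy] using hz'
  have h1 := Finset.card_le_card hsub
  have hyH : y ∈ hvy ω W s t := by
    simp only [hvy, Finset.mem_filter, Finset.mem_univ, true_and]; exact hy
  have h2 := c.min4 s' t' hpriv'
  have h3 := Finset.card_erase_lt_of_mem hyH
  omega

theorem star (c : Ctx G ω W s t) {y p : V} (hy : Hv ω W s t y) (hp : p ∈ A W s t y)
    {u v : V} (huv : G.Adj u v) (heq : ∀ w' ∈ W, w' ≠ p → a G w' u = a G w' v) :
    (u = p ∧ v = y) ∨ (u = y ∧ v = p) := by
  have hpW : p ∈ W := (mem_A.1 hp).1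
  obtain ⟨hu, hv⟩ := unres_notMem (W := W.erase p) huv (fun w hw =>
    heq w (Finset.mem_of_mem_erase hw) (Finset.ne_of_mem_erase hw))
  have hres : a G p u ≠ a G p v := by
    obtain ⟨w0, hw0, hne⟩ := c.lr u v huv
    by_cases h : w0 = p
    · rwa [h] at hne
    · exact absurd (heq w0 hw0 h) hne
  have hu' : u = p ∨ u ∉ W := by
    by_cases h : u = p
    · exact Or.inl h
    · right; intro h3; exact hu (Finset.mem_erase.2 ⟨h, h3⟩)
  have hv' : v = p ∨ v ∉ W := by
    by_cases h : v = p
    · exact Or.inl h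
    · right; intro h3; exact hv (Finset.mem_erase.2 ⟨h, h3⟩)
  by_cases hvp : v = p
  · right
    have hu2 : u ∉ W := by
      rcases hu' with h | h
      · exact absurd (h.trans hvp.symm) huv.ne
      · exact h
    have := star1 c hy hp (u := v) (v := u) ⟨huv.symm, hu2, Or.inl hvp, fun h => hres h.symm,
      fun w' h1 h3 => (heq w' h1 h3).symm⟩
    exact ⟨this.2, this.1⟩
  · left
    have hv2 : v ∉ W := by
      rcases hv' with h | h
      · exact absurd h hvp
      · exact h
    exact star1 c hy hp ⟨huv, hv2, hu', hres, heq⟩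

/-- Exchange of `p` by `x`. -/
theorem exchange (c : Ctx G ω W s t) {y p x : V} (hy : Hv ω W s t y) (hp : p ∈ A W s t y)
    (hx : a G x p ≠ a G x y) : LR G (insert x (W.erase p)) := by
  intro u v huv
  by_cases h : ∃ w' ∈ W, w' ≠ p ∧ a G w' u ≠ a G w' v
  · obtain ⟨w', h1, h2, h3⟩ := h
    exact ⟨w', Finset.mem_insert_of_mem (Finset.mem_erase.2 ⟨h2, h1⟩), h3⟩
  · push Not at h
    refine ⟨x, Finset.mem_insert_self _ _, ?_⟩
    rcases star c hy hp huv h with ⟨h1, h2⟩ | ⟨h1, h2⟩
    · rw [h1, h2]; exact hx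
    · rw [h1, h2]; exact hx.symm

theorem nbrs_p (c : Ctx G ω W s t) {y p : V} (hy : Hv ω W s t y) (hp : p ∈ A W s t y) :
    W.filter (fun v => G.Adj p v) = (A W s t y).erase p := by
  ext v
  simp only [Finset.mem_filter, Finset.mem_erase]
  constructor
  · rintro ⟨h1, h2⟩
    exact ⟨h2.symm.ne, key4 c hy (Or.inr hp) h1 h2.symm⟩
  · rintro ⟨h1, h2⟩
    exact ⟨(mem_A.1 h2).1, (A_clique' c hp h2 h1).symm⟩

theorem card_nbrs_p (c : Ctx G ω W s t) {y p : V} (hy : Hv ω W s t y) (hp : p ∈ A W s t y) :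
    (W.filter (fun v => G.Adj p v)).card = ω - 2 := by
  rw [nbrs_p c hy hp, Finset.card_erase_of_mem hp, hy]
  omega

theorem e2_insert {S : Finset V} {x : V} (hx : x ∉ S) :
    e2 G (insert x S) = e2 G S + 2 * (S.filter (fun v => G.Adj x v)).card := by
  unfold e2
  rw [Finset.sum_insert hx]
  have h1 : (insert x S).filter (fun v => G.Adj x v) = S.filter (fun v => G.Adj x v) := by
    rw [Finset.filter_insert, if_neg (G.irrefl)]
  rw [h1]
  have h2 : ∀ w ∈ S, ((insert x S).filter (fun v => G.Adj w v)).card =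
      (S.filter (fun v => G.Adj w v)).card + (if G.Adj x w then 1 else 0) := by
    intro w hw
    rw [Finset.filter_insert]
    by_cases h : G.Adj w x
    · rw [if_pos h, if_pos h.symm, Finset.card_insert_of_notMem]
      simp [hx]
    · rw [if_neg h, if_neg (fun h' => h h'.symm)]; rfl
  rw [Finset.sum_congr rfl h2, Finset.sum_add_distrib]
  have h3 : ∑ w ∈ S, (if G.Adj x w then 1 else 0) = (S.filter (fun v => G.Adj x v)).card := by
    rw [Finset.card_filter]
  rw [h3]
  ring

theorem card_swap {p x : V} (hp : p ∈ W) (hx : x ∉ W) : (insert x (W.erase p)).card = W.card := by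
  have h1 : x ∉ W.erase p := fun h => hx (Finset.mem_of_mem_erase h)
  have h2 : 0 < W.card := Finset.card_pos.2 ⟨p, hp⟩
  rw [Finset.card_insert_of_notMem h1, Finset.card_erase_of_mem hp]
  omega

theorem inn_swap {p x : V} (hx : ¬ inner G x) : inn G (insert x (W.erase p)) =
    ((W.filter (fun w => inner G w)).erase p).card := by
  unfold inn
  rw [Finset.filter_insert, if_neg hx]
  congr 1
  ext w
  simp only [Finset.mem_filter, Finset.mem_erase]
  tauto

theorem seven (c : Ctx G ω W s t) {y y' x b b' : V} (hy : Hv ω W s t y) (hb : b ∈ A W s t y)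
    (hbx : G.Adj b x) (hxW : x ∉ W) (hxy : x ≠ y) (hyy : y' ≠ y)
    (hb' : b' ∈ A W s t y') (hbx' : G.Adj b' x) :
    ∃ p ∈ A W s t y, ((W.erase p).filter (fun v => G.Adj x v)).card ≤ ω - 2 ∧
      (G.Adj x y → ¬ G.Adj x p) := by
  have hp : ∃ p ∈ A W s t y, a G x p ≠ a G x y ∧ (G.Adj x y → ¬ G.Adj x p) := by
    by_cases h : G.Adj x y
    · have : ∃ p ∈ A W s t y, ¬ G.Adj x p := by
        by_contra hcon
        push Not at hcon
        exact not_all_adj c hy hcon h
      obtain ⟨p, hp1, hp2⟩ := this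
      refine ⟨p, hp1, ?_, fun _ => hp2⟩
      rw [a_adj G h, a_two G _ hp2]
      · omega
      · rintro rfl; exact hxW (mem_A.1 hp1).1
    · refine ⟨b, hb, ?_, fun h' => absurd h' h⟩
      rw [a_adj G hbx.symm, a_two G hxy h]
      omega
  obtain ⟨p, hp1, hp2, hp3⟩ := hp
  refine ⟨p, hp1, ?_, hp3⟩
  have hpW : p ∈ W := (mem_A.1 hp1).1
  have hbb : b ≠ b' := by
    rintro rfl
    exact hyy ((mem_A.1 hb').2.2.symm.trans (mem_A.1 hb).2.2)
  have hninner : ¬ inner G x := by
    intro hin
    have h1 := hin.2 b b' hbx.symm hbx'.symm hbb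
    have h2 := key4 c hy (Or.inr hb) (mem_A.1 hb').1 h1.symm
    exact hyy ((mem_A.1 hb').2.2.symm.trans (mem_A.1 h2).2.2)
  have hLR := exchange c hy hp1 hp2
  have hcard := card_swap hpW hxW
  have hinn : inn G (insert x (W.erase p)) = inn G W := by
    apply le_antisymm
    · rw [inn_swap hninner]
      exact Finset.card_le_card (Finset.erase_subset _ _)
    · exact c.min2 _ hLR hcard
  have h3 := c.min3 _ hLR hcard hinn
  rw [e2_insert (fun h => hxW (Finset.mem_of_mem_erase h))] at h3
  have h4 : e2 G W = e2 G (W.erase p) + 2 * ((W.erase p).filter (fun v => G.Adj p v)).card := by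
    rw [← e2_insert (Finset.notMem_erase p W), Finset.insert_erase hpW]
  have h5 : (W.erase p).filter (fun v => G.Adj p v) = W.filter (fun v => G.Adj p v) := by
    ext v
    simp only [Finset.mem_filter, Finset.mem_erase]
    constructor
    · rintro ⟨⟨_, h1⟩, h2⟩; exact ⟨h1, h2⟩
    · rintro ⟨h1, h2⟩; exact ⟨⟨h2.symm.ne, h1⟩, h2⟩
  rw [h5, card_nbrs_p c hy hp1] at h4
  omega

theorem six (c : Ctx G ω W s t) {y : V} (hy : Hv ω W s t y) :
    ∃ b ∈ A W s t y, ∃ x, x ∉ W ∧ x ≠ y ∧ G.Adj b x := by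
  by_contra hcon
  push Not at hcon
  have hyW := hv_notMem c hy
  have hN : ∀ b ∈ A W s t y, ∀ x, G.Adj b x → x = y ∨ x ∈ A W s t y := by
    intro b hb x hbx
    by_cases hxW : x ∈ W
    · exact Or.inr (key4 c hy (Or.inr hb) hxW hbx.symm)
    · left
      by_contra hxy
      exact hcon b hb x hxW hxy hbx
  -- an edge leaving Q
  have hQ : ∃ v, v ∉ insert y (A W s t y) := by
    by_contra h
    push Not at h
    have h1 : insert y (A W s t y) = Finset.univ := Finset.eq_univ_iff_forall.2 h
    have h2 := congrArg Finset.card h1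
    rw [Finset.card_insert_of_notMem (y_notMem_A c y), hy, Finset.card_univ] at h2
    have := c.om; have := c.crd
    omega
  obtain ⟨v0, hv0⟩ := hQ
  obtain ⟨wk⟩ := c.con.preconnected y v0
  obtain ⟨d, hd, hd1, hd2⟩ := wk.exists_boundary_dart ((insert y (A W s t y) : Finset V) : Set V)
    (by simp) (by simpa using hv0)
  have hadj := d.adj
  rw [Finset.mem_coe, Finset.mem_insert] at hd1 hd2
  have hfst : d.fst = y := by
    rcases hd1 with h | h
    · exact h
    · exact absurd (hN _ h _ hadj) hd2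
  rw [hfst] at hadj
  set x := d.snd with hx
  have hxW : x ∉ W := fun h => hd2 (Or.inr (key4 c hy (Or.inl rfl) h hadj.symm))
  have hx' : ∃ x', G.Adj y x' ∧ x' ∉ W ∧ ¬ inner G x' := by
    by_cases hin : inner G x
    · obtain ⟨v, hvy, hxv⟩ : ∃ v, v ≠ y ∧ G.Adj x v := by
        obtain ⟨u, v, huv, hu, hv⟩ := hin.1
        by_cases h : u = y
        · exact ⟨v, fun h' => huv (h.trans h'.symm), hv⟩
        · exact ⟨u, h, hu⟩
      have hvy' : G.Adj v y := hin.2 v y hxv hadj.symm hvy
      have hvW : v ∉ W := by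
        intro h
        have h1 := key4 c hy (Or.inl rfl) h hvy'
        exact hd2 (hN v h1 x hxv.symm)
      obtain ⟨w, hw, hwne⟩ := c.lr x v hxv
      have hwx : ¬ G.Adj w x := by
        intro h
        have hwy : w ≠ y := fun h' => hyW (h' ▸ hw)
        have h1 := hin.2 w y h.symm hadj.symm hwy
        have h2 := key4 c hy (Or.inl rfl) hw h1
        exact hd2 (hN w h2 x h)
      have hwx' : w ≠ x := fun h' => hxW (h' ▸ hw)
      have hwv' : w ≠ v := fun h' => hvW (h' ▸ hw)
      have hwv : G.Adj w v := by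
        by_contra h
        exact hwne ((a_two G hwx' hwx).trans (a_two G hwv' h).symm)
      refine ⟨v, hvy'.symm, hvW, ?_⟩
      intro hin2
      exact hwx (hin2.2 x w hxv.symm hwv.symm hwx'.symm).symm
    · exact ⟨x, hadj, hxW, hin⟩
  obtain ⟨x', hx1, hx2, hx3⟩ := hx'
  obtain ⟨p, hp⟩ := hv_nonempty c hy
  have hpW : p ∈ W := (mem_A.1 hp).1
  have hpin : inner G p := by
    constructor
    · obtain ⟨b, hb, hbp⟩ := hv_other c hy p
      refine ⟨y, b, ?_, A_adj c hp, (A_clique' c hp hb hbp).symm⟩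
      rintro rfl
      exact y_notMem_A c _ hb
    · intro u v hu hv huv
      have h1 := hN p hp u hu
      have h2 := hN p hp v hv
      apply A_clique c y _ _ huv
      · simpa using h1
      · simpa using h2
  have hx4 : a G x' p ≠ a G x' y := by
    rw [a_adj G hx1.symm, a_two G]
    · omega
    · rintro rfl; exact hx2 hpW
    · intro h
      rcases hN p hp x' h.symm with h1 | h1
      · exact hx1.ne h1.symm
      · exact hx2 (mem_A.1 h1).1
  have hLR := exchange c hy hp hx4
  have hcard := card_swap hpW hx2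
  have h5 := c.min2 _ hLR hcard
  rw [inn_swap hx3] at h5
  have h6 := Finset.card_erase_lt_of_mem (Finset.mem_filter.2 ⟨hpW, hpin⟩ :
    p ∈ W.filter (fun w => inner G w))
  unfold inn at h5
  omega

/-- Merging classes along a forest of private edges. -/
theorem forest (f : V → V → ℕ) (s t : V → V) (J : Finset V)
    (h1 : ∀ i ∈ J, f i (s i) ≠ f i (t i))
    (h2 : ∀ i ∈ J, ∀ j ∈ J, i ≠ j → f i (s j) = f i (t j)) :
    ∃ cl : V → V, (∀ w ∈ J, cl (s w) = cl (t w)) ∧
      (∀ g : V → ℕ, (∀ w ∈ J, g (s w) = g (t w)) → ∀ u v, cl u = cl v → g u = g v) ∧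
      (univ.image cl).card + J.card ≤ Fintype.card V ∧
      (∀ u v, cl u = cl v → (∀ i ∈ J, f i u = f i v) → u = v) := by
  induction J using Finset.induction_on with
  | empty =>
    refine ⟨id, by simp, ?_, ?_, ?_⟩
    · intro g _ u v h; exact congrArg g h
    · simp
    · intro u v h _; exact h
  | insert i J hi ih =>
    obtain ⟨cl, k1, k2, k3, k4⟩ := ih (fun j hj => h1 j (Finset.mem_insert_of_mem hj))
      (fun j hj j' hj' => h2 j (Finset.mem_insert_of_mem hj) j' (Finset.mem_insert_of_mem hj'))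
    have hinv : ∀ u v, cl u = cl v → f i u = f i v := k2 (f i) (fun w hw =>
      h2 i (Finset.mem_insert_self _ _) w (Finset.mem_insert_of_mem hw)
        (fun h => hi (h ▸ hw)))
    have hne : cl (s i) ≠ cl (t i) := fun h => h1 i (Finset.mem_insert_self _ _) (hinv _ _ h)
    refine ⟨fun v => if cl v = cl (t i) then cl (s i) else cl v, ?_, ?_, ?_, ?_⟩
    · intro w hw
      rcases Finset.mem_insert.1 hw with hw | hw
      · subst hw
        simp [hne]
      · simp [k1 w hw]
    · intro g hg u v huv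
      have hgi := hg i (Finset.mem_insert_self _ _)
      have hk := k2 g (fun w hw => hg w (Finset.mem_insert_of_mem hw))
      by_cases hu : cl u = cl (t i) <;> by_cases hv : cl v = cl (t i)
      · exact hk u v (hu.trans hv.symm)
      · simp only [hu, hv, if_true, if_false] at huv
        rw [hk u (t i) hu, ← hgi, hk (s i) v huv]
      · simp only [hu, hv, if_true, if_false] at huv
        rw [hk v (t i) hv, ← hgi, hk u (s i) huv]
      · simp only [hu, hv, if_false] at huv
        exact hk u v huv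
    · have hsub : (univ.image (fun v => if cl v = cl (t i) then cl (s i) else cl v)) ⊆
          (univ.image cl).erase (cl (t i)) := by
        intro z hz
        obtain ⟨v, -, rfl⟩ := Finset.mem_image.1 hz
        by_cases hv : cl v = cl (t i)
        · simp only [hv, if_true]
          exact Finset.mem_erase.2 ⟨hne, Finset.mem_image_of_mem _ (Finset.mem_univ _)⟩
        · simp only [hv, if_false]
          exact Finset.mem_erase.2 ⟨hv, Finset.mem_image_of_mem _ (Finset.mem_univ _)⟩
      have h3 := Finset.card_le_card hsub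
      have h4 := Finset.card_erase_lt_of_mem
        (Finset.mem_image_of_mem cl (Finset.mem_univ (t i)))
      rw [Finset.card_insert_of_notMem hi]
      omega
    · intro u v huv hf
      have hfi := hf i (Finset.mem_insert_self _ _)
      have hk := k4 u v
      have hf' : ∀ j ∈ J, f j u = f j v := fun j hj => hf j (Finset.mem_insert_of_mem hj)
      by_cases hu : cl u = cl (t i) <;> by_cases hv : cl v = cl (t i)
      · exact hk (hu.trans hv.symm) hf'
      · exfalso
        simp only [hu, hv, if_true, if_false] at huv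
        apply h1 i (Finset.mem_insert_self _ _)
        rw [← hinv u (t i) hu, hfi, hinv v (s i) huv.symm]
      · exfalso
        simp only [hu, hv, if_true, if_false] at huv
        apply h1 i (Finset.mem_insert_self _ _)
        rw [← hinv v (t i) hv, ← hfi, hinv u (s i) huv]
      · simp only [hu, hv, if_false] at huv
        exact hk huv hf'

structure Cls (G : SimpleGraph V) (W : Finset V) (s t cl : V → V) : Prop where
  c1 : ∀ w ∈ W, s w ≠ w → cl (s w) = cl (t w)
  c2 : ∀ g : V → ℕ, (∀ w ∈ W, s w ≠ w → g (s w) = g (t w)) → ∀ u v, cl u = cl v → g u = g v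
  c3 : (univ.image cl).card + (W.filter (fun w => s w ≠ w)).card ≤ Fintype.card V
  c4 : ∀ u v, cl u = cl v → (∀ w ∈ W, s w ≠ w → a G w u = a G w v) → u = v

theorem exists_cls (c : Ctx G ω W s t) : ∃ cl, Cls G W s t cl := by
  obtain ⟨cl, k1, k2, k3, k4⟩ := forest (a G) s t (W.filter (fun w => s w ≠ w))
    (by
      intro i hi
      exact (c.priv i (Finset.mem_filter.1 hi).1).2.2.2.1)
    (by
      intro i hi j hj hij
      exact (c.priv j (Finset.mem_filter.1 hj).1).2.2.2.2 i (Finset.mem_filter.1 hi).1 hij)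
  refine ⟨cl, ?_, ?_, k3, ?_⟩
  · intro w hw h; exact k1 w (Finset.mem_filter.2 ⟨hw, h⟩)
  · intro g hg u v huv
    exact k2 g (fun w hw => hg w (Finset.mem_filter.1 hw).1 (Finset.mem_filter.1 hw).2) u v huv
  · intro u v huv h
    exact k4 u v huv (fun w hw => h w (Finset.mem_filter.1 hw).1 (Finset.mem_filter.1 hw).2)

section cls

variable {cl : V → V}

theorem clA (c : Ctx G ω W s t) (k : Cls G W s t cl) {b u v : V} (hb : b ∈ W) (hsb : s b = b)
    (h : cl u = cl v) : a G b u = a G b v := by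
  apply k.c2 (a G b) _ u v h
  intro w hw hsw
  apply (c.priv w hw).2.2.2.2 b hb
  rintro rfl
  exact hsw hsb

theorem clA' (c : Ctx G ω W s t) (k : Cls G W s t cl) {b y u v : V} (hb : b ∈ A W s t y)
    (h : cl u = cl v) : a G b u = a G b v :=
  clA c k (mem_A.1 hb).1 (mem_A.1 hb).2.1 h

theorem clW (c : Ctx G ω W s t) (k : Cls G W s t cl) {u w : V} (hw : w ∈ W)
    (h : cl u = cl w) : u = w := by
  have h1 := k.c2 (fun v => if v = w then 1 else 0) (by
    intro w' hw' hsw
    obtain ⟨p1, p2, p3, p4, p5⟩ := c.priv w' hw'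
    have h2 : s w' ∉ W := by
      rcases p3 with h | h
      · exact absurd h hsw
      · exact h
    have h3 : s w' ≠ w := fun h => h2 (h ▸ hw)
    have h4 : t w' ≠ w := fun h => p2 (h ▸ hw)
    simp [h3, h4]) u w h
  by_contra hne
  simp [hne] at h1

theorem isolated (c : Ctx G ω W s t) {y w : V} (hy : Hv ω W s t y) (hw : w ∈ W) (hsw : s w ≠ w) :
    s w ≠ y ∧ t w ≠ y := by
  obtain ⟨p1, p2, p3, p4, p5⟩ := c.priv w hw
  have hne : ∀ b ∈ A W s t y, b ≠ w := by
    rintro b hb rfl
    exact hsw (mem_A.1 hb).2.1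
  constructor
  · intro h
    refine not_all_adj c hy (x := t w) ?_ ?_
    · intro q hq
      have h1 := p5 q (mem_A.1 hq).1 (hne q hq)
      rw [h, a_adj G (A_adj c hq)] at h1
      exact ((a_eq_one G).1 h1.symm).symm
    · rw [← h]; exact p1.symm
  · intro h
    refine not_all_adj c hy (x := s w) ?_ ?_
    · intro q hq
      have h1 := p5 q (mem_A.1 hq).1 (hne q hq)
      rw [h, a_adj G (A_adj c hq)] at h1
      exact ((a_eq_one G).1 h1).symm
    · rw [← h]; exact p1

theorem clHv (c : Ctx G ω W s t) (k : Cls G W s t cl) {u y : V} (hy : Hv ω W s t y)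
    (h : cl u = cl y) : u = y := by
  have h1 := k.c2 (fun v => if v = y then 1 else 0) (by
    intro w' hw' hsw
    obtain ⟨h3, h4⟩ := isolated c hy hw' hsw
    simp [h3, h4]) u y h
  by_contra hne
  simp [hne] at h1

/-- The classes of vertices outside `W`. -/
noncomputable def CU (W : Finset V) (cl : V → V) : Finset V :=
  (univ.filter (fun v => v ∉ W)).image cl

theorem count_cls (c : Ctx G ω W s t) (k : Cls G W s t cl) :
    (CU W cl).card + (W.filter (fun w => s w ≠ w)).card ≤
      (univ.filter (fun v => v ∉ W)).card := by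
  have h1 : (univ.image cl) = CU W cl ∪ W.image cl := by
    ext z
    simp only [CU, Finset.mem_union, Finset.mem_image, Finset.mem_filter, Finset.mem_univ, true_and]
    constructor
    · rintro ⟨v, rfl⟩
      by_cases h : v ∈ W
      · exact Or.inr ⟨v, h, rfl⟩
      · exact Or.inl ⟨v, h, rfl⟩
    · rintro (⟨v, _, rfl⟩ | ⟨v, _, rfl⟩) <;> exact ⟨v, rfl⟩
  have h2 : Disjoint (CU W cl) (W.image cl) := by
    rw [Finset.disjoint_left]
    intro z hz hz'
    obtain ⟨v, hv, rfl⟩ := Finset.mem_image.1 hz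
    obtain ⟨w, hw, hvw⟩ := Finset.mem_image.1 hz'
    have := clW c k hw hvw.symm
    subst this
    exact (Finset.mem_filter.1 hv).2 hw
  have h3 : (W.image cl).card = W.card := by
    apply Finset.card_image_of_injOn
    intro u hu w hw h
    exact clW c k hw h
  have h4 := k.c3
  rw [h1, Finset.card_union_of_disjoint h2, h3] at h4
  have h5 : (univ.filter (fun v => v ∉ W)).card + W.card = Fintype.card V := by
    rw [← Finset.compl_filter]
    simp only [Finset.filter_mem_eq_inter, Finset.univ_inter]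
    rw [Finset.card_compl]
    have := Finset.card_le_univ W
    omega
  omega

/-- Type-one members of `W` attached to the class `z`. -/
noncomputable def Ac (W : Finset V) (s t cl : V → V) (z : V) : Finset V :=
  W.filter (fun w => s w = w ∧ cl (t w) = z)

theorem mem_Ac {z w : V} : w ∈ Ac W s t cl z ↔ w ∈ W ∧ s w = w ∧ cl (t w) = z := by
  simp [Ac]

theorem mem_A_self {w : V} (hw : w ∈ W) (hs : s w = w) : w ∈ A W s t (t w) :=
  mem_A.2 ⟨hw, hs, rfl⟩

theorem Ac_adj (c : Ctx G ω W s t) (k : Cls G W s t cl) {z w u : V} (hw : w ∈ Ac W s t cl z)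
    (hu : cl u = z) : G.Adj w u := by
  obtain ⟨h1, h2, h3⟩ := mem_Ac.1 hw
  have h4 := mem_A_self (t := t) h1 h2
  have h5 := clA' c k h4 (u := u) (v := t w) (hu.trans h3.symm)
  rw [a_adj G (A_adj c h4), a_eq_one] at h5
  exact h5

theorem Ac_clique (c : Ctx G ω W s t) (k : Cls G W s t cl) {z w w' : V} (hw : w ∈ Ac W s t cl z)
    (hw' : w' ∈ Ac W s t cl z) (hne : w' ≠ w) : G.Adj w' w := by
  obtain ⟨h1, h2, h3⟩ := mem_Ac.1 hw
  have h4 := mem_A_self (t := t) h1 h2
  have h5 := factB c h4 (mem_Ac.1 hw').1 hne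
  rw [a_adj G (Ac_adj c k hw' h3), a_eq_one] at h5
  exact h5

theorem Ac_card (c : Ctx G ω W s t) (k : Cls G W s t cl) {z u : V} (hu : cl u = z)
    (huW : u ∉ W) : (Ac W s t cl z).card + 1 ≤ ω := by
  have hcl : G.IsClique ((insert u (Ac W s t cl z) : Finset V) : Set V) := by
    rw [Finset.coe_insert, SimpleGraph.isClique_insert]
    constructor
    · intro x hx y hy hxy
      exact Ac_clique c k hy hx hxy
    · intro b hb _
      exact (Ac_adj c k hb hu).symm
  have h := clique_card c.cf hcl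
  rwa [Finset.card_insert_of_notMem (fun h => huW (mem_Ac.1 h).1)] at h

theorem Ac_card2 (c : Ctx G ω W s t) (k : Cls G W s t cl) {z u v : V} (hu : cl u = z)
    (hv : cl v = z) (huv : u ≠ v) : (Ac W s t cl z).card + 2 ≤ ω := by
  -- there is a type two edge at `u`
  have h1 : ∃ w ∈ W, s w ≠ w ∧ (s w = u ∨ t w = u) := by
    by_contra hcon
    push Not at hcon
    have h2 := k.c2 (fun x => if x = u then 1 else 0) (by
      intro w hw hsw
      obtain ⟨h3, h4⟩ := hcon w hw hsw
      simp [h3, h4]) u v (hu.trans hv.symm)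
    simp [huv.symm] at h2
  obtain ⟨w, hw, hsw, h2⟩ := h1
  have h3 := k.c1 w hw hsw
  have h4 : cl (s w) = z ∧ cl (t w) = z := by
    rcases h2 with h2 | h2
    · rw [h2] at h3 ⊢; exact ⟨hu, h3.symm.trans hu⟩
    · rw [h2] at h3 ⊢; exact ⟨h3.trans hu, hu⟩
  obtain ⟨p1, p2, p3, p4, p5⟩ := c.priv w hw
  have hsW : s w ∉ W := by
    rcases p3 with h | h
    · exact absurd h hsw
    · exact h
  have hcl : G.IsClique ((insert (s w) (insert (t w) (Ac W s t cl z)) : Finset V) : Set V) := by
    rw [Finset.coe_insert, SimpleGraph.isClique_insert, Finset.coe_insert,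
      SimpleGraph.isClique_insert]
    refine ⟨⟨?_, ?_⟩, ?_⟩
    · intro x hx y hy hxy
      exact Ac_clique c k hy hx hxy
    · intro b hb _
      exact (Ac_adj c k hb h4.2).symm
    · intro b hb _
      rcases hb with hb | hb
      · rw [hb]; exact p1
      · exact (Ac_adj c k hb h4.1).symm
  have h := clique_card c.cf hcl
  rw [Finset.card_insert_of_notMem, Finset.card_insert_of_notMem] at h
  · exact h
  · exact fun h => p2 (mem_Ac.1 h).1
  · intro h
    rcases Finset.mem_insert.1 h with h | h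
    · exact p1.ne h
    · exact hsW (mem_Ac.1 h).1

/-- `y` is heavy and adjacent, through `A y`, to the class `z`. -/
def Rel (G : SimpleGraph V) (ω : ℕ) (W : Finset V) (s t cl : V → V) (y z : V) : Prop :=
  Hv ω W s t y ∧ ∃ x, x ∉ W ∧ x ≠ y ∧ cl x = z ∧ ∃ b ∈ A W s t y, G.Adj b x

theorem rel_at (c : Ctx G ω W s t) (k : Cls G W s t cl) {y z x : V} (h : Rel G ω W s t cl y z)
    (hx : cl x = z) : x ≠ y ∧ ∃ b ∈ A W s t y, G.Adj b x := by
  obtain ⟨hy, x0, hx0, hxy, hz, b, hb, hadj⟩ := h
  constructor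
  · rintro rfl
    exact hxy (clHv c k hy (hz.trans hx.symm))
  · refine ⟨b, hb, ?_⟩
    have := clA' c k hb (u := x) (v := x0) (hx.trans hz.symm)
    rw [a_adj G hadj, a_eq_one] at this
    exact this

theorem rel_empty (c : Ctx G ω W s t) (k : Cls G W s t cl) {y z : V}
    (h : Rel G ω W s t cl y z) : Ac W s t cl z = ∅ := by
  rw [Finset.eq_empty_iff_forall_notMem]
  intro w hw
  obtain ⟨h1, h2, h3⟩ := mem_Ac.1 hw
  obtain ⟨h4, b, hb, hadj⟩ := rel_at c k h h3
  have h5 := key5 c h.1 hb h4 hadj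
  have h6 := mem_A_self (t := t) h1 h2
  rw [h5] at h6
  simp at h6

/-- number of heavy vertices related to `z`. -/
noncomputable def rl (G : SimpleGraph V) (ω : ℕ) (W : Finset V) (s t cl : V → V) (z : V) :
    Finset V := univ.filter (fun y => Rel G ω W s t cl y z)

theorem A_ne {y y' b : V} (hb : b ∈ A W s t y) (hb' : b ∈ A W s t y') : y = y' :=
  (mem_A.1 hb).2.2.symm.trans (mem_A.1 hb').2.2

/-- A vertex `v ∉ W` adjacent to two heavy cliques has at most `ω - 1` neighbours in `W`. -/
theorem seven' (c : Ctx G ω W s t) {y y' x b b' : V} (hy : Hv ω W s t y) (hb : b ∈ A W s t y)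
    (hbx : G.Adj b x) (hxW : x ∉ W) (hxy : x ≠ y) (hyy : y' ≠ y)
    (hb' : b' ∈ A W s t y') (hbx' : G.Adj b' x) :
    (W.filter (fun v => G.Adj x v)).card ≤ ω - 1 ∧
      (G.Adj x y → (W.filter (fun v => G.Adj x v)).card ≤ ω - 2) := by
  obtain ⟨p, hp, h1, h2⟩ := seven c hy hb hbx hxW hxy hyy hb' hbx'
  have hom := c.om
  constructor
  · have h3 : W.filter (fun v => G.Adj x v) ⊆ insert p ((W.erase p).filter (fun v => G.Adj x v)) := by
      intro v hv
      by_cases h : v = p
      · simp [h]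
      · obtain ⟨h4, h5⟩ := Finset.mem_filter.1 hv
        exact Finset.mem_insert_of_mem (Finset.mem_filter.2 ⟨Finset.mem_erase.2 ⟨h, h4⟩, h5⟩)
    have h4 := Finset.card_le_card h3
    have h5 := Finset.card_insert_le p ((W.erase p).filter (fun v => G.Adj x v))
    omega
  · intro hadj
    have h3 : W.filter (fun v => G.Adj x v) ⊆ (W.erase p).filter (fun v => G.Adj x v) := by
      intro v hv
      obtain ⟨h4, h5⟩ := Finset.mem_filter.1 hv
      refine Finset.mem_filter.2 ⟨Finset.mem_erase.2 ⟨?_, h4⟩, h5⟩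
      rintro rfl
      exact h2 hadj h5
    exact (Finset.card_le_card h3).trans h1

/-- The injection from related heavy vertices to neighbours in `W`. -/
theorem exists_B (c : Ctx G ω W s t) (k : Cls G W s t cl) {z x : V} (hx : cl x = z) :
    ∃ B : Finset V, B.card = (rl G ω W s t cl z).card ∧
      (∀ b ∈ B, G.Adj x b ∧ ∃ y, b ∈ A W s t y) := by
  have h1 : ∀ y ∈ rl G ω W s t cl z, ∃ b, b ∈ A W s t y ∧ G.Adj b x := by
    intro y hy
    have hr : Rel G ω W s t cl y z := by simpa [rl] using hy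
    obtain ⟨_, b, hb, hadj⟩ := rel_at c k hr hx
    exact ⟨b, hb, hadj⟩
  choose! g hg using h1
  refine ⟨(rl G ω W s t cl z).image g, ?_, ?_⟩
  · apply Finset.card_image_of_injOn
    intro y hy y' hy' h
    have h2 := (hg y hy).1
    have h3 := (hg y' hy').1
    rw [h] at h2
    exact A_ne h2 h3
  · intro b hb
    obtain ⟨y, hy, rfl⟩ := Finset.mem_image.1 hb
    exact ⟨(hg y hy).2.symm, y, (hg y hy).1⟩

theorem B_sub {x : V} {B : Finset V} (hB : ∀ b ∈ B, G.Adj x b ∧ ∃ y, b ∈ A W s t y) :
    B ⊆ W.filter (fun v => G.Adj x v) := by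
  intro b hb
  obtain ⟨h1, y, h2⟩ := hB b hb
  exact Finset.mem_filter.2 ⟨(mem_A.1 h2).1, h1⟩

theorem rl_card (c : Ctx G ω W s t) (k : Cls G W s t cl) (z : V) :
    (rl G ω W s t cl z).card ≤ ω - 1 := by
  have hom := c.om
  by_cases h : (rl G ω W s t cl z).card ≤ 1
  · omega
  · push Not at h
    obtain ⟨y, hy, y', hy', hne⟩ := Finset.one_lt_card.1 h
    have hr : Rel G ω W s t cl y z := by simpa [rl] using hy
    have hr' : Rel G ω W s t cl y' z := by simpa [rl] using hy'
    obtain ⟨x, hxW, hxy, hz, b, hb, hadj⟩ := hr.2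
    obtain ⟨_, b', hb', hadj'⟩ := rel_at c k hr' hz
    have h1 := (seven' c hr.1 hb hadj hxW hxy hne.symm hb' hadj').1
    obtain ⟨B, hB1, hB2⟩ := exists_B c k (z := z) hz
    have h2 := Finset.card_le_card (B_sub hB2)
    omega

theorem noP (c : Ctx G ω W s t) {ya yb pa pb u v : V} (hya : Hv ω W s t ya)
    (hne : yb ≠ ya) (hpa : pa ∈ A W s t ya) (hpb : pb ∈ A W s t yb) (huv : G.Adj u v)
    (hW : ∀ w ∈ W, w ≠ pa → w ≠ pb → a G w u = a G w v) (hres : a G pb u ≠ a G pb v) :
    u ≠ pa := by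
  rintro rfl
  have hom := c.om
  have hpapb : pb ≠ u := by
    rintro rfl
    exact hne (A_ne hpb hpa)
  have hnadj : ¬ G.Adj pb u := by
    intro h
    exact hne (A_ne hpb (key4 c hya (Or.inr hpa) (mem_A.1 hpb).1 h))
  have hvpb : pb ≠ v := by
    rintro rfl
    exact hnadj huv.symm
  have hvW : v ∉ W := by
    intro h
    have h1 := hW v h huv.symm.ne hvpb.symm
    rw [a_self, a_adj G huv.symm] at h1
    omega
  have hall : ∀ r ∈ A W s t ya, G.Adj r v := by
    intro r hr
    by_cases h : r = u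
    · subst h; exact huv
    · have h1 := hW r (mem_A.1 hr).1 h (by rintro rfl; exact hne (A_ne hpb hr))
      rw [a_adj G (A_clique' c hpa hr h)] at h1
      exact (a_eq_one G).1 h1.symm
  have hpbv : G.Adj pb v := by
    by_contra h
    rw [a_two G hpapb hnadj, a_two G hvpb h] at hres
    exact hres rfl
  have hvya : v ≠ ya := by
    rintro rfl
    exact hne (A_ne hpb (key4 c hya (Or.inl rfl) (mem_A.1 hpb).1 hpbv))
  have h1 := (seven' c hya hpa huv hvW hvya hne hpb hpbv).1
  have h2 : insert pb (A W s t ya) ⊆ W.filter (fun x => G.Adj v x) := by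
    intro x hx
    rcases Finset.mem_insert.1 hx with hx | hx
    · subst hx; exact Finset.mem_filter.2 ⟨(mem_A.1 hpb).1, hpbv.symm⟩
    · exact Finset.mem_filter.2 ⟨(mem_A.1 hx).1, (hall x hx).symm⟩
  have h3 := Finset.card_le_card h2
  rw [Finset.card_insert_of_notMem (fun h => hne (A_ne hpb h)), hya] at h3
  omega

theorem eight_main (c : Ctx G ω W s t) (k : Cls G W s t cl) {y1 y2 z x p1 p2 : V}
    (hr1 : Rel G ω W s t cl y1 z) (hr2 : Rel G ω W s t cl y2 z) (hne : y2 ≠ y1)
    (hcard : (rl G ω W s t cl z).card = ω - 1)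
    (hxW : x ∉ W) (hxz : cl x = z)
    (hp1 : p1 ∈ A W s t y1) (hp1x : G.Adj p1 x) (hp2 : p2 ∈ A W s t y2) (hp2x : G.Adj p2 x)
    {u v : V} (huv : G.Adj u v) (huW : u ∉ W) (hvW : v ∉ W)
    (hW : ∀ w ∈ W, w ≠ p1 → w ≠ p2 → a G w u = a G w v)
    (hres1 : a G p1 u ≠ a G p1 v) (hres2 : a G p2 u ≠ a G p2 v) (hxr : a G x u = a G x v)
    (hp1u : G.Adj p1 u) (hp1v : ¬ G.Adj p1 v) :
    ∃ z', z' ≠ z ∧ z' ∈ CU W cl ∧ Rel G ω W s t cl y1 z' := by
  have hom := c.om
  have hy1 := hr1.1
  have hy2 := hr2.1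
  have hp1W := (mem_A.1 hp1).1
  have hp2W := (mem_A.1 hp2).1
  have hxy1 := (rel_at c k hr1 hxz).1
  have hxy2 := (rel_at c k hr2 hxz).1
  by_cases huy : u = y1
  · -- use the class of `v`
    subst huy
    have h1 : ¬ G.Adj p2 u := by
      intro h
      exact hne (A_ne hp2 (key4 c hy1 (Or.inl rfl) hp2W h))
    have hp2u : p2 ≠ u := by rintro rfl; exact huW hp2W
    have hp2v : p2 ≠ v := by rintro rfl; exact hvW hp2W
    have h2 : G.Adj p2 v := by
      by_contra h
      exact hres2 ((a_two G hp2u h1).trans (a_two G hp2v h).symm)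
    obtain ⟨b, hb, hbp⟩ := hv_other c hy1 p1
    have hbp2 : b ≠ p2 := by rintro rfl; exact hne (A_ne hp2 hb)
    have h3 := hW b (mem_A.1 hb).1 hbp hbp2
    rw [a_adj G (A_adj c hb)] at h3
    have h4 : G.Adj b v := (a_eq_one G).1 h3.symm
    refine ⟨cl v, ?_, ?_, hy1, v, hvW, huv.symm.ne, rfl, b, hb, h4⟩
    · intro h
      have h5 := clA' c k hp1 (u := v) (v := x) (h.trans hxz.symm)
      rw [a_adj G hp1x, a_eq_one] at h5
      exact hp1v h5
    · exact Finset.mem_image_of_mem _ (by simp [hvW])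
  · refine ⟨cl u, ?_, ?_, hy1, u, huW, huy, rfl, p1, hp1, hp1u⟩
    · intro h
      have hcl : cl u = cl x := h.trans hxz.symm
      have h1 := clA' c k hp2 hcl
      rw [a_adj G hp2x, a_eq_one] at h1
      have huy2 : u ≠ y2 := by
        rintro rfl
        exact hne (A_ne (key4 c hy2 (Or.inl rfl) hp1W hp1u) hp1)
      have h2 := (seven' c hy1 hp1 hp1u huW huy hne hp2 h1).1
      have h3 := (seven' c hy1 hp1 hp1x hxW hxy1 hne hp2 hp2x).1
      obtain ⟨B, hB1, hB2⟩ := exists_B c k (z := z) hxz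
      have hBx := B_sub hB2
      have hBu : B ⊆ W.filter (fun v => G.Adj u v) := by
        intro b hb
        obtain ⟨h4, y, h5⟩ := hB2 b hb
        have h6 := clA' c k h5 hcl
        rw [a_adj G h4.symm, a_eq_one] at h6
        exact Finset.mem_filter.2 ⟨(mem_A.1 h5).1, h6.symm⟩
      have e1 : B = W.filter (fun v => G.Adj x v) :=
        Finset.eq_of_subset_of_card_le hBx (by omega)
      have e2 : B = W.filter (fun v => G.Adj u v) :=
        Finset.eq_of_subset_of_card_le hBu (by omega)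
      have h7 : u = x := by
        apply k.c4 u x hcl
        intro w hw _
        have hwu : w ≠ u := by rintro rfl; exact huW hw
        have hwx : w ≠ x := by rintro rfl; exact hxW hw
        by_cases h8 : G.Adj w x
        · have : w ∈ W.filter (fun v => G.Adj u v) := by
            rw [← e2, e1]; exact Finset.mem_filter.2 ⟨hw, h8.symm⟩
          rw [a_adj G h8, a_adj G (Finset.mem_filter.1 this).2.symm]
        · have h9 : ¬ G.Adj w u := by
            intro h9
            have : w ∈ W.filter (fun v => G.Adj x v) := by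
              rw [← e1, e2]; exact Finset.mem_filter.2 ⟨hw, h9.symm⟩
            exact h8 (Finset.mem_filter.1 this).2.symm
          rw [a_two G hwx h8, a_two G hwu h9]
      rw [← h7, a_self, a_adj G huv] at hxr
      omega
    · exact Finset.mem_image_of_mem _ (by simp [huW])

theorem eight (c : Ctx G ω W s t) (k : Cls G W s t cl) {y1 z : V}
    (hr1 : Rel G ω W s t cl y1 z) (hcard : (rl G ω W s t cl z).card = ω - 1) :
    ∃ z', z' ≠ z ∧ z' ∈ CU W cl ∧ Rel G ω W s t cl y1 z' := by
  have hom := c.om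
  have hy1 := hr1.1
  obtain ⟨y2, hy2', hne⟩ : ∃ y2 ∈ rl G ω W s t cl z, y2 ≠ y1 := by
    apply Finset.exists_mem_ne
    omega
  have hr2 : Rel G ω W s t cl y2 z := by simpa [rl] using hy2'
  have hy2 := hr2.1
  obtain ⟨x, hxW, hxy1, hxz, p1, hp1, hp1x⟩ := hr1.2
  obtain ⟨hxy2, p2, hp2, hp2x⟩ := rel_at c k hr2 hxz
  have hp1W := (mem_A.1 hp1).1
  have hp2W := (mem_A.1 hp2).1
  obtain ⟨B, hB1, hB2⟩ := exists_B c k (z := z) hxz
  have hBx := Finset.card_le_card (B_sub hB2)
  have hxn1 : ¬ G.Adj x y1 := by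
    intro h
    have := (seven' c hy1 hp1 hp1x hxW hxy1 hne hp2 hp2x).2 h
    omega
  have hxn2 : ¬ G.Adj x y2 := by
    intro h
    have := (seven' c hy2 hp2 hp2x hxW hxy2 hne.symm hp1 hp1x).2 h
    omega
  have hpp : p2 ≠ p1 := by rintro rfl; exact hne (A_ne hp2 hp1)
  -- the smaller set is not resolving
  have hnLR : ¬ LR G (insert x ((W.erase p1).erase p2)) := by
    intro h
    have h1 := c.min1 _ h
    have h2 := Finset.card_insert_le x ((W.erase p1).erase p2)
    rw [Finset.card_erase_of_mem (Finset.mem_erase.2 ⟨hpp, hp2W⟩),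
      Finset.card_erase_of_mem hp1W] at h2
    have h3 : 1 < W.card := Finset.one_lt_card.2 ⟨p1, hp1W, p2, hp2W, hpp.symm⟩
    omega
  unfold LR at hnLR
  push Not at hnLR
  obtain ⟨u, v, huv, hun⟩ := hnLR
  have hxr : a G x u = a G x v := hun x (Finset.mem_insert_self _ _)
  have hW : ∀ w ∈ W, w ≠ p1 → w ≠ p2 → a G w u = a G w v := fun w hw h1 h2 =>
    hun w (Finset.mem_insert_of_mem (Finset.mem_erase.2 ⟨h2, Finset.mem_erase.2 ⟨h1, hw⟩⟩))
  have hres1 : a G p1 u ≠ a G p1 v := by
    intro h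
    have h1 := star c hy2 hp2 huv (fun w hw hne2 => by
      by_cases h2 : w = p1
      · rw [h2]; exact h
      · exact hW w hw h2 hne2)
    have h3 : a G x p2 ≠ a G x y2 := by
      rw [a_adj G hp2x.symm, a_two G hxy2 hxn2]; omega
    rcases h1 with ⟨e1, e2⟩ | ⟨e1, e2⟩
    · rw [e1, e2] at hxr; exact h3 hxr
    · rw [e1, e2] at hxr; exact h3 hxr.symm
  have hres2 : a G p2 u ≠ a G p2 v := by
    intro h
    have h1 := star c hy1 hp1 huv (fun w hw hne2 => by
      by_cases h2 : w = p2
      · rw [h2]; exact h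
      · exact hW w hw hne2 h2)
    have h3 : a G x p1 ≠ a G x y1 := by
      rw [a_adj G hp1x.symm, a_two G hxy1 hxn1]; omega
    rcases h1 with ⟨e1, e2⟩ | ⟨e1, e2⟩
    · rw [e1, e2] at hxr; exact h3 hxr
    · rw [e1, e2] at hxr; exact h3 hxr.symm
  have hu1 : u ≠ p1 := noP c hy1 hne hp1 hp2 huv hW hres2
  have hu2 : u ≠ p2 := noP c hy2 hne.symm hp2 hp1 huv (fun w hw h1 h2 => hW w hw h2 h1) hres1
  have hv1 : v ≠ p1 := noP c hy1 hne hp1 hp2 huv.symm
    (fun w hw h1 h2 => (hW w hw h1 h2).symm) hres2.symm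
  have hv2 : v ≠ p2 := noP c hy2 hne.symm hp2 hp1 huv.symm
    (fun w hw h1 h2 => (hW w hw h2 h1).symm) hres1.symm
  have huW : u ∉ W := by
    intro h
    have := hW u h hu1 hu2
    rw [a_self, a_adj G huv] at this
    omega
  have hvW : v ∉ W := by
    intro h
    have := hW v h hv1 hv2
    rw [a_self, a_adj G huv.symm] at this
    omega
  by_cases hp1u : G.Adj p1 u
  · have hp1v : ¬ G.Adj p1 v := by
      intro h
      exact hres1 ((a_adj G hp1u).trans (a_adj G h).symm)
    exact eight_main c k hr1 hr2 hne hcard hxW hxz hp1 hp1x hp2 hp2x huv huW hvW hW hres1 hres2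
      hxr hp1u hp1v
  · have hp1v : G.Adj p1 v := by
      by_contra h
      exact hres1 ((a_two G hu1.symm hp1u).trans (a_two G hv1.symm h).symm)
    exact eight_main c k hr1 hr2 hne hcard hxW hxz hp1 hp1x hp2 hp2x huv.symm hvW huW
      (fun w hw h1 h2 => (hW w hw h1 h2).symm) hres1.symm hres2.symm hxr.symm hp1v hp1u

theorem discharge (c : Ctx G ω W s t) (k : Cls G W s t cl) :
    (hvy ω W s t).card ≤
      (ω - 2) * ((CU W cl).filter (fun z => ∃ y, Rel G ω W s t cl y z)).card := by
  have hom := c.om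
  set wt : V → ℕ := fun z => if (rl G ω W s t cl z).card ≤ ω - 2 then 2 else 1 with hwt
  have hwt1 : ∀ z, 1 ≤ wt z := by
    intro z; simp only [hwt]; split <;> omega
  have h1 : ∀ y ∈ hvy ω W s t, 2 ≤ ∑ z ∈ (CU W cl).filter (fun z => Rel G ω W s t cl y z), wt z := by
    intro y hy
    have hy' : Hv ω W s t y := by
      have := hy
      simp only [hvy, Finset.mem_filter, Finset.mem_univ, true_and] at this
      exact this
    obtain ⟨b, hb, x, hxW, hxy, hadj⟩ := six c hy'
    have hr : Rel G ω W s t cl y (cl x) := ⟨hy', x, hxW, hxy, rfl, b, hb, hadj⟩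
    have hz : cl x ∈ (CU W cl).filter (fun z => Rel G ω W s t cl y z) :=
      Finset.mem_filter.2 ⟨Finset.mem_image_of_mem _ (by simp [hxW]), hr⟩
    by_cases hle : (rl G ω W s t cl (cl x)).card ≤ ω - 2
    · have h2 : wt (cl x) = 2 := by simp only [hwt]; rw [if_pos hle]
      calc 2 = wt (cl x) := h2.symm
        _ ≤ _ := Finset.single_le_sum (f := wt) (fun i _ => Nat.zero_le _) hz
    · have h3 := rl_card c k (cl x)
      have h4 : (rl G ω W s t cl (cl x)).card = ω - 1 := by omega
      obtain ⟨z', hz1, hz2, hz3⟩ := eight c k hr h4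
      have hz' : z' ∈ (CU W cl).filter (fun z => Rel G ω W s t cl y z) :=
        Finset.mem_filter.2 ⟨hz2, hz3⟩
      have h5 : 1 < ((CU W cl).filter (fun z => Rel G ω W s t cl y z)).card :=
        Finset.one_lt_card.2 ⟨_, hz, _, hz', hz1.symm⟩
      calc 2 ≤ ((CU W cl).filter (fun z => Rel G ω W s t cl y z)).card := h5
        _ = ∑ z ∈ (CU W cl).filter (fun z => Rel G ω W s t cl y z), 1 := Finset.card_eq_sum_ones _
        _ ≤ _ := Finset.sum_le_sum (fun i _ => hwt1 i)
  have h2 : 2 * (hvy ω W s t).card ≤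
      ∑ y ∈ hvy ω W s t, ∑ z ∈ (CU W cl).filter (fun z => Rel G ω W s t cl y z), wt z := by
    calc 2 * (hvy ω W s t).card = ∑ y ∈ hvy ω W s t, 2 := by
          rw [Finset.sum_const, smul_eq_mul, mul_comm]
      _ ≤ _ := Finset.sum_le_sum h1
  have h3 : ∑ y ∈ hvy ω W s t, ∑ z ∈ (CU W cl).filter (fun z => Rel G ω W s t cl y z), wt z =
      ∑ z ∈ CU W cl, ∑ y ∈ rl G ω W s t cl z, wt z := by
    apply Finset.sum_comm'
    intro y z
    simp only [hvy, rl, Finset.mem_filter, Finset.mem_univ, true_and]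
    constructor
    · rintro ⟨_, h4, h5⟩; exact ⟨h5, h4⟩
    · rintro ⟨h5, h4⟩; exact ⟨h5.1, h4, h5⟩
  have h4 : ∑ z ∈ CU W cl, ∑ y ∈ rl G ω W s t cl z, wt z ≤
      ∑ z ∈ CU W cl, (if (∃ y, Rel G ω W s t cl y z) then 2 * (ω - 2) else 0) := by
    apply Finset.sum_le_sum
    intro z hz
    rw [Finset.sum_const, smul_eq_mul]
    by_cases hex : ∃ y, Rel G ω W s t cl y z
    · rw [if_pos hex]
      by_cases hle : (rl G ω W s t cl z).card ≤ ω - 2
      · have h5 : wt z = 2 := by simp only [hwt]; rw [if_pos hle]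
        rw [h5]; omega
      · have h5 : wt z = 1 := by simp only [hwt]; rw [if_neg hle]
        have := rl_card c k z
        rw [h5]; omega
    · rw [if_neg hex]
      have h5 : rl G ω W s t cl z = ∅ := by
        rw [Finset.eq_empty_iff_forall_notMem]
        intro y hy
        exact hex ⟨y, by simpa [rl] using hy⟩
      rw [h5]; simp
  rw [← Finset.sum_filter, Finset.sum_const, smul_eq_mul] at h4
  rw [h3] at h2
  have h5 := h2.trans h4
  have h6 : ((CU W cl).filter (fun z => ∃ y, Rel G ω W s t cl y z)).card * (2 * (ω - 2)) =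
    2 * ((ω - 2) * ((CU W cl).filter (fun z => ∃ y, Rel G ω W s t cl y z)).card) := by ring
  rw [h6] at h5
  omega

theorem arith (m n : ℕ) (hm : 1 ≤ m) (hn : 1 ≤ n) : n + m ≤ m * n + 1 := by
  obtain ⟨m', rfl⟩ := Nat.exists_eq_add_of_le hm
  obtain ⟨n', rfl⟩ := Nat.exists_eq_add_of_le hn
  nlinarith [Nat.zero_le (m' * n')]

theorem per_class (c : Ctx G ω W s t) (k : Cls G W s t cl) {z : V} (hz : z ∈ CU W cl) :
    (Ac W s t cl z).card + ((univ.filter (fun v => v ∉ W)).filter (fun v => cl v = z)).card +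
      (if (∃ y, Rel G ω W s t cl y z) then ω - 2 else 0) ≤
    (ω - 2) * ((univ.filter (fun v => v ∉ W)).filter (fun v => cl v = z)).card + 1 +
      (if z ∈ (hvy ω W s t).image cl then 1 else 0) := by
  have hom := c.om
  obtain ⟨u, hu, huz⟩ := Finset.mem_image.1 hz
  have huW : u ∉ W := (Finset.mem_filter.1 hu).2
  set Uc := (univ.filter (fun v => v ∉ W)).filter (fun v => cl v = z) with hUc
  have huU : u ∈ Uc := Finset.mem_filter.2 ⟨hu, huz⟩
  have hn : 1 ≤ Uc.card := Finset.card_pos.2 ⟨u, huU⟩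
  have har := arith (ω - 2) Uc.card (by omega) hn
  by_cases hex : ∃ y, Rel G ω W s t cl y z
  · obtain ⟨y, hy⟩ := hex
    rw [if_pos ⟨y, hy⟩, rel_empty c k hy]
    simp only [Finset.card_empty]
    split <;> omega
  · rw [if_neg hex]
    by_cases h2 : 2 ≤ Uc.card
    · obtain ⟨x, hx, y, hy, hxy⟩ := Finset.one_lt_card.1 h2
      have h3 := Ac_card2 c k (Finset.mem_filter.1 hx).2 (Finset.mem_filter.1 hy).2 hxy
      split <;> omega
    · have h3 : Uc.card = 1 := by omega
      have h4 := Ac_card c k huz huW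
      rw [h3, mul_one]
      by_cases h5 : (Ac W s t cl z).card ≤ ω - 2
      · split <;> omega
      · have h6 : z ∈ (hvy ω W s t).image cl := by
          refine Finset.mem_image.2 ⟨u, ?_, huz⟩
          have h7 : Ac W s t cl z ⊆ A W s t u := by
            intro w hw
            obtain ⟨k1, k2, k3⟩ := mem_Ac.1 hw
            have k4 : t w ∈ Uc := Finset.mem_filter.2
              ⟨Finset.mem_filter.2 ⟨Finset.mem_univ _, (c.priv w k1).2.1⟩, k3⟩
            obtain ⟨q, hq⟩ := Finset.card_eq_one.1 h3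
            rw [hq, Finset.mem_singleton] at k4 huU
            exact mem_A.2 ⟨k1, k2, k4.trans huU.symm⟩
          have h8 := Finset.card_le_card h7
          have h9 := A_card c u
          simp only [hvy, Finset.mem_filter, Finset.mem_univ, true_and]
          omega
        rw [if_pos h6]
        omega

theorem total (c : Ctx G ω W s t) (k : Cls G W s t cl) :
    W.card ≤ (ω - 2) * (univ.filter (fun v => v ∉ W)).card := by
  have h1 := Finset.sum_le_sum (fun z (hz : z ∈ CU W cl) => per_class c k hz)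
  simp only [Finset.sum_add_distrib] at h1
  have h2 : ∑ z ∈ CU W cl, (Ac W s t cl z).card = (W.filter (fun w => s w = w)).card := by
    have h3 : ∀ w ∈ W.filter (fun w => s w = w), cl (t w) ∈ CU W cl := by
      intro w hw
      exact Finset.mem_image_of_mem _ (by simp [(c.priv w (Finset.mem_filter.1 hw).1).2.1])
    rw [Finset.card_eq_sum_card_fiberwise h3]
    apply Finset.sum_congr rfl
    intro z _
    congr 1
    ext w
    simp only [Ac, Finset.mem_filter, and_assoc]
  have h4 : ∑ z ∈ CU W cl, ((univ.filter (fun v => v ∉ W)).filter (fun v => cl v = z)).card =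
      (univ.filter (fun v => v ∉ W)).card := by
    rw [CU, ← Finset.card_eq_sum_card_image]
  have h5 : ∑ z ∈ CU W cl, (if (∃ y, Rel G ω W s t cl y z) then ω - 2 else 0) =
      (ω - 2) * ((CU W cl).filter (fun z => ∃ y, Rel G ω W s t cl y z)).card := by
    rw [← Finset.sum_filter, Finset.sum_const, smul_eq_mul, mul_comm]
  have h6 : ∑ z ∈ CU W cl, (if z ∈ (hvy ω W s t).image cl then 1 else 0) ≤
      (hvy ω W s t).card := by
    rw [← Finset.sum_filter, Finset.sum_const, smul_eq_mul, mul_one]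
    refine (Finset.card_le_card ?_).trans (Finset.card_image_le (s := hvy ω W s t) (f := cl))
    intro z hz
    exact (Finset.mem_filter.1 hz).2
  have h7 : ∑ z ∈ CU W cl, (ω - 2) *
      ((univ.filter (fun v => v ∉ W)).filter (fun v => cl v = z)).card =
      (ω - 2) * (univ.filter (fun v => v ∉ W)).card := by
    rw [← Finset.mul_sum, h4]
  have h8 : ∑ z ∈ CU W cl, 1 = (CU W cl).card := by simp
  rw [h2, h4, h5, h7, h8] at h1
  have h9 := discharge c k
  have h10 := count_cls c k
  have h11 : (W.filter (fun w => s w = w)).card + (W.filter (fun w => s w ≠ w)).card = W.card := by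
    exact Finset.card_filter_add_card_filter_not (s := W) (p := fun w => s w = w)
  omega

end cls

end ctx

theorem exists_W (G : SimpleGraph V) : ∃ W, LR G W ∧ (∀ W', LR G W' → W.card ≤ W'.card) ∧
    (∀ W', LR G W' → W'.card = W.card → inn G W ≤ inn G W') ∧
    (∀ W', LR G W' → W'.card = W.card → inn G W' = inn G W → e2 G W' ≤ e2 G W) := by
  have h0 : LR G (univ : Finset V) := by
    intro u v huv
    refine ⟨u, Finset.mem_univ _, ?_⟩
    rw [a_self, a_adj G huv]; omega
  obtain ⟨W1, hW1, hm1⟩ := Finset.exists_min_image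
    ((univ : Finset (Finset V)).filter (fun W => LR G W)) Finset.card ⟨univ, by simp [h0]⟩
  have hL1 : LR G W1 := (Finset.mem_filter.1 hW1).2
  obtain ⟨W2, hW2, hm2⟩ := Finset.exists_min_image
    ((univ : Finset (Finset V)).filter (fun W => LR G W ∧ W.card = W1.card)) (inn G)
    ⟨W1, by simp [hL1]⟩
  obtain ⟨-, hL2, hc2⟩ := Finset.mem_filter.1 hW2
  obtain ⟨W3, hW3, hm3⟩ := Finset.exists_max_image
    ((univ : Finset (Finset V)).filter (fun W => LR G W ∧ W.card = W1.card ∧ inn G W = inn G W2))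
    (e2 G) ⟨W2, by simp [hL2, hc2]⟩
  obtain ⟨-, hL3, hc3, hi3⟩ := Finset.mem_filter.1 hW3
  refine ⟨W3, hL3, ?_, ?_, ?_⟩
  · intro W' hW'
    rw [hc3]; exact hm1 W' (by simp [hW'])
  · intro W' hW' hc
    rw [hi3]; exact hm2 W' (by simp [hW', hc, hc3])
  · intro W' hW' hc hi
    exact hm3 W' (by simp [hW', hc, hc3, hi, hi3])

theorem exists_ctx (G : SimpleGraph V) {ω : ℕ} (hcf : G.CliqueFree (ω + 1)) (hω : 3 ≤ ω)
    (hcon : G.Connected) (hcard : ω + 1 ≤ Fintype.card V) :
    ∃ W s t, Ctx G ω W s t := by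
  obtain ⟨W, hLR, hm1, hm2, hm3⟩ := exists_W G
  have h1 : ∀ w, ∃ p : V × V, w ∈ W → Priv G W w p.1 p.2 := by
    intro w
    by_cases hw : w ∈ W
    · obtain ⟨u, v, h⟩ := exists_priv hLR hm1 hw
      exact ⟨(u, v), fun _ => h⟩
    · exact ⟨(w, w), fun h => absurd h hw⟩
  choose g hg using h1
  obtain ⟨e, he, hmin⟩ := (measure (fun e : (V → V) × (V → V) => (hvy ω W e.1 e.2).card)).wf.has_min
    {e | ∀ w ∈ W, Priv G W w (e.1 w) (e.2 w)} ⟨(fun w => (g w).1, fun w => (g w).2), fun w hw => hg w hw⟩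
  refine ⟨W, e.1, e.2, hcf, hω, hcon, hcard, hLR, hm1, hm2, hm3, he, ?_⟩
  intro s' t' h
  exact not_lt.1 (hmin (s', t') h)

/-- Main bound, for truncated distances. -/
theorem main (G : SimpleGraph V) {ω : ℕ} (hcf : G.CliqueFree (ω + 1)) (hω : 3 ≤ ω)
    (hcon : G.Connected) (hcard : ω + 1 ≤ Fintype.card V) :
    ∃ W : Finset V, LR G W ∧ (ω - 1) * W.card ≤ (ω - 2) * Fintype.card V := by
  obtain ⟨W, s, t, c⟩ := exists_ctx G hcf hω hcon hcard
  obtain ⟨cl, k⟩ := exists_cls c
  have h := total c k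
  refine ⟨W, c.lr, ?_⟩
  have h5 : (univ.filter (fun v => v ∉ W)).card + W.card = Fintype.card V := by
    rw [← Finset.compl_filter]
    simp only [Finset.filter_mem_eq_inter, Finset.univ_inter]
    rw [Finset.card_compl]
    have := Finset.card_le_univ W
    omega
  have h6 : (ω - 1) * W.card = (ω - 2) * W.card + W.card := by
    have : ω - 1 = (ω - 2) + 1 := by omega
    rw [this, Nat.add_mul, one_mul]
  rw [h6, ← h5, Nat.mul_add]
  omega

end Pool.Agent.X283.LMD
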