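import Mathlib

/-!
# The free group of rank two has infinite commutator width

Proof by the rotation number quasimorphism: a homomorphism from the free group to the group of
lifts of degree one circle homeomorphisms.
-/

set_option autoImplicit false

namespace Pool.Agent.X283.CW

open CircleDeg1Lift
open scoped commutatorElement

/-- the map of order three, on `[0, 1)` -/
noncomputable def hh (u : ℝ) : ℝ :=
  if u < 1 / 2 then 1 / 2 + u / 2 else if u < 3 / 4 then u + 1 / 4 else 2 * u - 1 / 2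

/-- the map of order three -/
noncomputable def yy (t : ℝ) : ℝ := ⌊t⌋ + hh (Int.fract t)

lemma yy_val (n : ℤ) (u : ℝ) (h0 : 0 ≤ u) (h1 : u < 1) : yy (n + u) = n + hh u := by
  unfold yy
  rw [Int.floor_intCast_add, Int.fract_intCast_add, Int.fract_eq_self.2 ⟨h0, h1⟩,
    Int.floor_eq_zero_iff.2 ⟨h0, h1⟩, add_zero]

lemma yy_add_one (t : ℝ) : yy (t + 1) = yy t + 1 := by
  unfold yy
  rw [Int.floor_add_one, Int.fract_add_one]
  push_cast
  ring

lemma hh_mono {u v : ℝ} (h : u ≤ v) : hh u ≤ hh v := by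
  unfold hh
  split_ifs <;> linarith

lemma hh_bounds {u : ℝ} (h0 : 0 ≤ u) (h1 : u < 1) : 1 / 2 ≤ hh u ∧ hh u < 3 / 2 := by
  unfold hh
  split_ifs <;> constructor <;> linarith

lemma yy_mono : Monotone yy := by
  intro s t hst
  unfold yy
  have hs := hh_bounds (Int.fract_nonneg s) (Int.fract_lt_one s)
  have ht := hh_bounds (Int.fract_nonneg t) (Int.fract_lt_one t)
  rcases (Int.floor_mono hst).eq_or_lt with h | h
  · rw [h]
    have : Int.fract s ≤ Int.fract t := by
      unfold Int.fract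
      rw [h]
      linarith
    linarith [hh_mono this]
  · have h' : ((⌊s⌋ : ℤ) : ℝ) + 1 ≤ ⌊t⌋ := by exact_mod_cast h
    linarith

lemma yy_three (t : ℝ) : yy (yy (yy t)) = t + 1 := by
  have ht : t = (⌊t⌋ : ℝ) + Int.fract t := (Int.floor_add_fract t).symm
  set n : ℤ := ⌊t⌋
  set u := Int.fract t with hu
  have h0 : 0 ≤ u := Int.fract_nonneg t
  have h1 : u < 1 := Int.fract_lt_one t
  rw [ht, yy_val n u h0 h1]
  unfold hh
  split_ifs with c1 c2
  · rw [yy_val n _ (by linarith) (by linarith)]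
    unfold hh
    rw [if_neg (by linarith), if_pos (by linarith), yy_val n _ (by linarith) (by linarith)]
    unfold hh
    rw [if_neg (by linarith), if_neg (by linarith)]
    ring
  · rw [yy_val n _ (by linarith) (by linarith)]
    unfold hh
    rw [if_neg (by linarith), if_neg (by linarith)]
    have e : (n : ℝ) + (2 * (u + 1 / 4) - 1 / 2) = ((n + 1 : ℤ) : ℝ) + (2 * u - 1) := by
      push_cast; ring
    rw [e, yy_val (n + 1) _ (by linarith) (by linarith)]
    unfold hh
    rw [if_pos (by linarith)]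
    push_cast
    ring
  · have e : (n : ℝ) + (2 * u - 1 / 2) = ((n + 1 : ℤ) : ℝ) + (2 * u - 3 / 2) := by
      push_cast; ring
    rw [e, yy_val (n + 1) _ (by linarith) (by linarith)]
    unfold hh
    rw [if_pos (by linarith), yy_val (n + 1) _ (by linarith) (by linarith)]
    unfold hh
    rw [if_neg (by linarith), if_pos (by linarith)]
    push_cast
    ring

/-- the map of order three as a lift of degree one -/
noncomputable def yL : CircleDeg1Lift where
  toFun := yy
  monotone' := yy_mono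
  map_add_one' := yy_add_one

lemma yL_apply (t : ℝ) : yL t = yy t := rfl

lemma yL_bijective : Function.Bijective yL := by
  constructor
  · intro a b h
    have h' : yy a = yy b := h
    have h1 := yy_three a
    rw [h', yy_three b] at h1
    linarith
  · intro t
    refine ⟨yy (yy (t - 1)), ?_⟩
    rw [yL_apply, yy_three]
    ring

/-- the unit -/
noncomputable def Y : CircleDeg1Liftˣ := (CircleDeg1Lift.isUnit_iff_bijective.2 yL_bijective).unit

lemma Y_apply (t : ℝ) : (Y : CircleDeg1Lift) t = yy t := rfl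

/-- the rotation of order two -/
noncomputable def X : CircleDeg1Liftˣ := translate (Multiplicative.ofAdd (1 / 2))

lemma X_apply (t : ℝ) : (X : CircleDeg1Lift) t = 1 / 2 + t := translate_apply _ _

/-- the homomorphism -/
noncomputable def ρ : FreeGroup Bool →* CircleDeg1Liftˣ :=
  FreeGroup.lift fun b => cond b X Y

/-- the element of the commutator subgroup -/
def w : FreeGroup Bool :=
  ((FreeGroup.of false)⁻¹ * FreeGroup.of true) ^ 6 * ((FreeGroup.of true)⁻¹) ^ 6 *
    (FreeGroup.of false) ^ 6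

lemma w_mem : w ∈ commutator (FreeGroup Bool) := by
  rw [← Abelianization.ker_of, MonoidHom.mem_ker]
  unfold w
  simp only [map_mul, map_pow, map_inv]
  rw [mul_pow, inv_pow, inv_pow]
  generalize (Abelianization.of (FreeGroup.of false)) ^ 6 = a
  generalize (Abelianization.of (FreeGroup.of true)) ^ 6 = b
  rw [mul_inv_cancel_right, inv_mul_cancel]

lemma ρ_w (n : ℤ) : (ρ w : CircleDeg1Lift) n = ((n - 1 : ℤ) : ℝ) := by
  have e : ρ w = (Y⁻¹ * X) ^ 6 * (X⁻¹) ^ 6 * Y ^ 6 := by
    unfold w ρ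
    simp only [map_mul, map_pow, map_inv, FreeGroup.lift_apply_of, cond_true, cond_false]
  have hY : ∀ t : ℝ, ((Y ^ 6 : CircleDeg1Liftˣ) : CircleDeg1Lift) t = t + 2 := by
    intro t
    rw [Units.val_pow_eq_pow_val, CircleDeg1Lift.coe_pow]
    change yy (yy (yy (yy (yy (yy t))))) = t + 2
    rw [yy_three, yy_three]
    ring
  have hX : ∀ t : ℝ, (((X⁻¹) ^ 6 : CircleDeg1Liftˣ) : CircleDeg1Lift) t = t - 3 := by
    intro t
    have h1 : ∀ t : ℝ, ((X⁻¹ : CircleDeg1Liftˣ) : CircleDeg1Lift) t = t - 1 / 2 := by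
      intro t
      rw [X, translate_inv_apply]
      ring
    rw [Units.val_pow_eq_pow_val, CircleDeg1Lift.coe_pow]
    simp only [Function.iterate_succ, Function.iterate_zero, Function.comp_apply, id_eq, h1]
    ring
  have hS : ∀ m : ℤ, (((Y⁻¹ * X) ^ 6 : CircleDeg1Liftˣ) : CircleDeg1Lift) m = m := by
    intro m
    have h1 : ((Y⁻¹ * X : CircleDeg1Liftˣ) : CircleDeg1Lift) m = m := by
      rw [Units.val_mul, mul_apply, X_apply]
      have h2 : (Y : CircleDeg1Lift) (m : ℝ) = 1 / 2 + m := by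
        rw [Y_apply]
        have := yy_val m 0 le_rfl one_pos
        rw [add_zero] at this
        rw [this]
        unfold hh
        norm_num
        ring
      rw [← h2, units_inv_apply_apply]
    rw [Units.val_pow_eq_pow_val, CircleDeg1Lift.coe_pow]
    exact Function.iterate_fixed h1 6
  rw [e, Units.val_mul, Units.val_mul, mul_apply, mul_apply, hY, hX]
  have h3 : (n : ℝ) + 2 - 3 = ((n - 1 : ℤ) : ℝ) := by push_cast; ring
  rw [h3, hS]

/-- the quasimorphism -/
noncomputable def φ (f : CircleDeg1Liftˣ) : ℝ := (f : CircleDeg1Lift) 0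

lemma φ_mul (f g : CircleDeg1Liftˣ) : |φ f + φ g - φ (f * g)| < 1 := by
  have h := dist_map_map_zero_lt (f : CircleDeg1Lift) (g : CircleDeg1Lift)
  rw [Real.dist_eq] at h
  exact h

lemma φ_one : φ 1 = 0 := rfl

lemma φ_inv (f : CircleDeg1Liftˣ) : |φ f + φ f⁻¹| < 1 := by
  have h := φ_mul f f⁻¹
  rwa [mul_inv_cancel, φ_one, sub_zero] at h

lemma φ_comm (a b : CircleDeg1Liftˣ) : |φ ⁅a, b⁆| < 5 := by
  rw [commutatorElement_def]
  have h1 := φ_mul (a * b * a⁻¹) b⁻¹
  have h2 := φ_mul (a * b) a⁻¹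
  have h3 := φ_mul a b
  have h4 := φ_inv a
  have h5 := φ_inv b
  rw [abs_lt] at *
  constructor <;> linarith [h1.1, h1.2, h2.1, h2.2, h3.1, h3.2, h4.1, h4.2, h5.1, h5.2]

lemma φ_prod (l : List CircleDeg1Liftˣ) (hl : ∀ c ∈ l, c ∈ commutatorSet CircleDeg1Liftˣ) :
    |φ l.prod| ≤ 6 * l.length := by
  induction l with
  | nil => simp [φ_one]
  | cons c l ih =>
    have h1 := ih fun d hd => hl d (List.mem_cons_of_mem _ hd)
    obtain ⟨a, b, hab⟩ := hl c List.mem_cons_self
    have h2 := φ_comm a b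
    rw [hab] at h2
    have h3 := φ_mul c l.prod
    rw [List.prod_cons, List.length_cons]
    push_cast
    rw [abs_lt] at h2 h3
    rw [abs_le] at h1 ⊢
    constructor <;> linarith [h1.1, h1.2, h2.1, h2.2, h3.1, h3.2]

/-- **The free group of rank two has infinite commutator width.** -/
theorem infinite_commutator_width (n : ℕ) : ∃ g ∈ commutator (FreeGroup Bool),
    ¬ ∃ l : List (FreeGroup Bool), l.length ≤ n ∧
      (∀ c ∈ l, c ∈ commutatorSet (FreeGroup Bool)) ∧ l.prod = g := by
  refine ⟨w ^ (6 * n + 1), Subgroup.pow_mem _ w_mem _, ?_⟩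
  rintro ⟨l, hl, hc, hp⟩
  have h1 : ∀ k : ℕ, φ (ρ (w ^ k)) = -(k : ℝ) := by
    intro k
    unfold φ
    rw [map_pow, Units.val_pow_eq_pow_val, CircleDeg1Lift.coe_pow]
    have h2 : ∀ k : ℕ, ((ρ w : CircleDeg1Lift))^[k] (0 : ℝ) = ((-(k : ℤ) : ℤ) : ℝ) := by
      intro k
      induction k with
      | zero => simp
      | succ k ih =>
        rw [Function.iterate_succ_apply', ih, ρ_w]
        push_cast
        ring
    rw [h2]
    push_cast
    rfl
  have h2 : |φ (l.map ρ).prod| ≤ 6 * (l.map ρ).length := by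
    refine φ_prod _ ?_
    intro c hc'
    obtain ⟨d, hd, rfl⟩ := List.mem_map.1 hc'
    obtain ⟨a, b, rfl⟩ := hc d hd
    exact ⟨ρ a, ρ b, by rw [map_commutatorElement]⟩
  rw [← map_list_prod, hp, h1, List.length_map, abs_neg] at h2
  have h3 : (l.length : ℝ) ≤ n := by exact_mod_cast hl
  have h4 : |((6 * n + 1 : ℕ) : ℝ)| = 6 * n + 1 := by
    rw [Nat.abs_cast]
    push_cast
    ring
  rw [h4] at h2
  linarith

end Pool.Agent.X283.CW
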