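import Mathlib

/-!
Tuza's inequality for the join of an edgeless graph and a triangle-free graph: the inductive
matching argument.
-/

namespace Pool.Agent.X283.TuzaJoin

open Finset

set_option linter.unusedSectionVars false

variable {V : Type*} [Fintype V] [DecidableEq V]

/-- a matching of `H`, given as an involution -/
structure IsMat (H : SimpleGraph V) (m : V → V) : Prop where
  inv : ∀ v, m (m v) = v
  adj : ∀ v, m v ≠ v → H.Adj v (m v)

/-- covered vertices -/
def supp (m : V → V) : Finset V := univ.filter (fun v => m v ≠ v)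

@[simp] lemma mem_supp {m : V → V} {v : V} : v ∈ supp m ↔ m v ≠ v := by simp [supp]

/-- number of ordered adjacent pairs inside `D` -/
noncomputable def E2 (H : SimpleGraph V) (D : Finset V) : ℕ :=
  (@Finset.filter _ (fun p : V × V => H.Adj p.1 p.2) (Classical.decPred _) (D ×ˢ D)).card

/-- delete the edges of `m` -/
def del (H : SimpleGraph V) (m : V → V) : SimpleGraph V where
  Adj u v := H.Adj u v ∧ m u ≠ v ∧ m v ≠ u
  symm := ⟨fun _ _ h => ⟨h.1.symm, h.2.2, h.2.1⟩⟩
  loopless := ⟨fun _ h => h.1.ne rfl⟩

lemma del_le (H : SimpleGraph V) (m : V → V) : del H m ≤ H := fun _ _ h => h.1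

lemma no_triangle {H : SimpleGraph V} (hH : H.CliqueFree 3) {a b c : V} (h1 : H.Adj a b)
    (h2 : H.Adj a c) (h3 : H.Adj b c) : False :=
  hH {a, b, c} (SimpleGraph.is3Clique_triple_iff.2 ⟨h1, h2, h3⟩)

section Max

variable {H : SimpleGraph V} {m : V → V}

lemma uncovered_indep (hm : IsMat H m)
    (hmax : ∀ m', IsMat H m' → (supp m').card ≤ (supp m).card) {u u' : V}
    (hu : m u = u) (hu' : m u' = u') : ¬ H.Adj u u' := by
  intro hadj
  have hne : u ≠ u' := hadj.ne
  set m' : V → V := fun x => if x = u then u' else if x = u' then u else m x with hm'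
  have e1 : m' u = u' := by simp [hm']
  have e2 : m' u' = u := by simp [hm', hne.symm]
  have e3 : ∀ x, x ≠ u → x ≠ u' → m' x = m x := by
    intro x h1 h2
    simp [hm', h1, h2]
  have e4 : ∀ x, x ≠ u → m x ≠ u := by
    intro x h1 h2
    apply h1
    rw [← hm.inv x, h2, hu]
  have e5 : ∀ x, x ≠ u' → m x ≠ u' := by
    intro x h1 h2
    apply h1
    rw [← hm.inv x, h2, hu']
  have hM : IsMat H m' := by
    constructor
    · intro v
      by_cases h1 : v = u
      · rw [h1, e1, e2]
      by_cases h2 : v = u'
      · rw [h2, e2, e1]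
      rw [e3 v h1 h2, e3 _ (e4 v h1) (e5 v h2), hm.inv]
    · intro v hv
      by_cases h1 : v = u
      · rw [h1, e1]; exact hadj
      by_cases h2 : v = u'
      · rw [h2, e2]; exact hadj.symm
      rw [e3 v h1 h2] at hv ⊢
      exact hm.adj v hv
  have hss : supp m ⊂ supp m' := by
    rw [Finset.ssubset_iff_of_subset]
    · refine ⟨u, ?_, ?_⟩
      · rw [mem_supp, e1]; exact hne.symm
      · rw [mem_supp]; simp [hu]
    · intro x hx
      rw [mem_supp] at hx ⊢
      have h1 : x ≠ u := by rintro rfl; exact hx hu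
      have h2 : x ≠ u' := by rintro rfl; exact hx hu'
      rw [e3 x h1 h2]; exact hx
  have := Finset.card_lt_card hss
  have := hmax m' hM
  omega

lemma no_augment (hH : H.CliqueFree 3) (hm : IsMat H m)
    (hmax : ∀ m', IsMat H m' → (supp m').card ≤ (supp m).card) {v u u' : V}
    (hv : m v ≠ v) (hu : m u = u) (hu' : m u' = u') (h1 : H.Adj v u) (h2 : H.Adj (m v) u') :
    False := by
  by_cases huu : u = u'
  · subst huu
    exact no_triangle hH (hm.adj v hv) h1 h2
  have hvu : v ≠ u := h1.ne
  have hvu' : v ≠ u' := by rintro rfl; exact hv hu'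
  have hmu : m v ≠ u := by
    intro h
    apply hvu
    rw [← hm.inv v, h, hu]
  have hmu' : m v ≠ u' := h2.ne
  set m' : V → V := fun x => if x = u then v else if x = v then u else
    if x = m v then u' else if x = u' then m v else m x with hm'
  have e1 : m' u = v := by simp [hm']
  have e2 : m' v = u := by simp [hm', hvu]
  have e3 : m' (m v) = u' := by simp [hm', hmu, hv]
  have e4 : m' u' = m v := by simp [hm', Ne.symm huu, hvu'.symm, hmu'.symm]
  have e5 : ∀ x, x ≠ u → x ≠ v → x ≠ m v → x ≠ u' → m' x = m x := by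
    intro x h1 h2 h3 h4
    simp [hm', h1, h2, h3, h4]
  have f1 : ∀ x, x ≠ u → m x ≠ u := by
    intro x h1 h2
    apply h1
    rw [← hm.inv x, h2, hu]
  have f2 : ∀ x, x ≠ u' → m x ≠ u' := by
    intro x h1 h2
    apply h1
    rw [← hm.inv x, h2, hu']
  have f3 : ∀ x, x ≠ m v → m x ≠ v := by
    intro x h1 h2
    apply h1
    rw [← hm.inv x, h2]
  have f4 : ∀ x, x ≠ v → m x ≠ m v := by
    intro x h1 h2
    apply h1
    rw [← hm.inv x, h2, hm.inv]
  have hM : IsMat H m' := by
    constructor
    · intro x
      by_cases g1 : x = u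
      · rw [g1, e1, e2]
      by_cases g2 : x = v
      · rw [g2, e2, e1]
      by_cases g3 : x = m v
      · rw [g3, e3, e4]
      by_cases g4 : x = u'
      · rw [g4, e4, e3]
      rw [e5 x g1 g2 g3 g4, e5 _ (f1 x g1) (f3 x g3) (f4 x g2) (f2 x g4), hm.inv]
    · intro x hx
      by_cases g1 : x = u
      · rw [g1, e1]; exact h1.symm
      by_cases g2 : x = v
      · rw [g2, e2]; exact h1
      by_cases g3 : x = m v
      · rw [g3, e3]; exact h2
      by_cases g4 : x = u'
      · rw [g4, e4]; exact h2.symm
      rw [e5 x g1 g2 g3 g4] at hx ⊢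
      exact hm.adj x hx
  have hss : supp m ⊂ supp m' := by
    rw [Finset.ssubset_iff_of_subset]
    · refine ⟨u, ?_, ?_⟩
      · rw [mem_supp, e1]; exact hvu
      · rw [mem_supp]; simp [hu]
    · intro x hx
      rw [mem_supp] at hx ⊢
      have g1 : x ≠ u := by rintro rfl; exact hx hu
      have g4 : x ≠ u' := by rintro rfl; exact hx hu'
      by_cases g2 : x = v
      · rw [g2, e2]; exact hvu.symm
      by_cases g3 : x = m v
      · rw [g3, e3]; exact hmu'.symm
      rw [e5 x g1 g2 g3 g4]; exact hx
  have := Finset.card_lt_card hss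
  have := hmax m' hM
  omega

end Max

lemma E2_le_del {H : SimpleGraph V} {m : V → V} (hm : IsMat H m) (D : Finset V) :
    E2 H D ≤ E2 (del H m) D + (D.filter (fun v => m v ≠ v ∧ m v ∈ D)).card := by
  classical
  have hsub : (@Finset.filter _ (fun p : V × V => H.Adj p.1 p.2) (Classical.decPred _)
      (D ×ˢ D)) ⊆ (@Finset.filter _ (fun p : V × V => (del H m).Adj p.1 p.2)
      (Classical.decPred _) (D ×ˢ D)) ∪
      (D.filter (fun v => m v ≠ v ∧ m v ∈ D)).image (fun v => (v, m v)) := by
    rintro ⟨a, b⟩ hab
    rw [Finset.mem_filter] at hab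
    obtain ⟨h1, h2⟩ := hab
    rw [Finset.mem_product] at h1
    simp only at h1 h2
    rw [Finset.mem_union]
    by_cases h3 : m a = b
    · right
      rw [Finset.mem_image]
      refine ⟨a, ?_, by rw [h3]⟩
      rw [Finset.mem_filter]
      refine ⟨h1.1, ?_, ?_⟩
      · rw [h3]; exact h2.ne'
      · rw [h3]; exact h1.2
    · left
      rw [Finset.mem_filter]
      refine ⟨Finset.mem_product.2 h1, h2, h3, ?_⟩
      intro h4
      apply h3
      have h4' : m b = a := h4
      rw [← h4', hm.inv]
  have := (Finset.card_le_card hsub).trans (Finset.card_union_le _ _)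
  have h5 := Finset.card_image_le (s := D.filter (fun v => m v ≠ v ∧ m v ∈ D))
    (f := fun v => (v, m v))
  unfold E2
  omega

lemma E2_mono_of {H : SimpleGraph V} {D D' : Finset V}
    (h : ∀ a b, a ∈ D' → b ∈ D' → H.Adj a b → a ∈ D ∧ b ∈ D) : E2 H D' ≤ E2 H D := by
  classical
  unfold E2
  apply Finset.card_le_card
  rintro ⟨a, b⟩ hab
  rw [Finset.mem_filter] at hab ⊢
  obtain ⟨h1, h2⟩ := hab
  rw [Finset.mem_product] at h1 ⊢
  exact ⟨h a b h1.1 h1.2 h2, h2⟩

lemma step {H : SimpleGraph V} {m : V → V} (hH : H.CliqueFree 3) (hm : IsMat H m)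
    (hmax : ∀ m', IsMat H m' → (supp m').card ≤ (supp m).card) (k : ℕ) (D : Finset V) :
    ∃ D' : Finset V, 2 * (k + 1) * (univ \ D').card + E2 H D' ≤
      2 * k * (univ \ D).card + E2 (del H m) D + 2 * (supp m).card := by
  classical
  set W : Finset V := univ.filter (fun v => m v = v ∧ v ∉ D) with hW
  set N : Finset V := D.filter (fun v => ∃ w ∈ W, H.Adj v w) with hN
  set P : Finset V := D.filter (fun v => m v ≠ v ∧ m v ∈ D) with hP
  set Q : Finset V := D.filter (fun v => m v ≠ v ∧ m v ∉ D) with hQ
  set R : Finset V := univ.filter (fun v => m v ≠ v ∧ v ∉ D) with hR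
  have hWm : ∀ v, v ∈ W ↔ m v = v ∧ v ∉ D := by intro v; simp [hW]
  have hNm : ∀ v, v ∈ N ↔ v ∈ D ∧ ∃ w ∈ W, H.Adj v w := by intro v; simp [hN]
  have hPm : ∀ v, v ∈ P ↔ v ∈ D ∧ m v ≠ v ∧ m v ∈ D := by intro v; simp [hP]
  have hQm : ∀ v, v ∈ Q ↔ v ∈ D ∧ m v ≠ v ∧ m v ∉ D := by intro v; simp [hQ]
  have hRm : ∀ v, v ∈ R ↔ m v ≠ v ∧ v ∉ D := by intro v; simp [hR]
  have hNne : ∀ v ∈ N, m v ≠ v := by
    intro v hv hv'
    obtain ⟨_, w, hw, hadj⟩ := (hNm v).1 hv
    exact uncovered_indep hm hmax hv' ((hWm w).1 hw).1 hadj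
  -- F3
  have F3 : 2 * N.card ≤ P.card + 2 * Q.card := by
    have h1 : N.card = (N ∩ P).card + (N ∩ Q).card := by
      rw [← Finset.card_union_of_disjoint]
      · congr 1
        ext v
        simp only [mem_union, mem_inter, hPm, hQm]
        constructor
        · intro hv
          have hvD := ((hNm v).1 hv).1
          have hne := hNne v hv
          by_cases h : m v ∈ D
          · exact Or.inl ⟨hv, hvD, hne, h⟩
          · exact Or.inr ⟨hv, hvD, hne, h⟩
        · rintro (h | h)
          · exact h.1
          · exact h.1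
      · rw [Finset.disjoint_left]
        intro v h1 h2
        simp only [mem_inter, hPm, hQm] at h1 h2
        exact h2.2.2.2 h1.2.2.2
    have h2 : (N ∩ Q).card ≤ Q.card := Finset.card_le_card Finset.inter_subset_right
    have h3 : (N ∩ P).card + (N ∩ P).card ≤ P.card := by
      have h4 : ((N ∩ P).image m).card = (N ∩ P).card := by
        apply Finset.card_image_of_injective
        intro a b hab
        rw [← hm.inv a, hab, hm.inv]
      have h5 : Disjoint (N ∩ P) ((N ∩ P).image m) := by
        rw [Finset.disjoint_left]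
        intro v hv hv'
        obtain ⟨x, hx, hxv⟩ := mem_image.1 hv'
        have hxN : x ∈ N := (mem_inter.1 hx).1
        have hvN : v ∈ N := (mem_inter.1 hv).1
        obtain ⟨_, w, hw, hadj⟩ := (hNm x).1 hxN
        obtain ⟨_, w', hw', hadj'⟩ := (hNm v).1 hvN
        rw [← hxv] at hadj'
        exact no_augment hH hm hmax (hNne x hxN) ((hWm w).1 hw).1 ((hWm w').1 hw').1 hadj hadj'
      have h6 : (N ∩ P) ∪ ((N ∩ P).image m) ⊆ P := by
        intro v hv
        rcases mem_union.1 hv with h | h
        · exact (mem_inter.1 h).2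
        · obtain ⟨x, hx, hxv⟩ := mem_image.1 h
          have hxP := (hPm x).1 (mem_inter.1 hx).2
          rw [hPm, ← hxv, hm.inv]
          exact ⟨hxP.2.2, hxP.2.1.symm, hxP.1⟩
      have h7 := Finset.card_le_card h6
      rw [Finset.card_union_of_disjoint h5, h4] at h7
      exact h7
    omega
  -- F4
  have F4a : (supp m).card = R.card + P.card + Q.card := by
    rw [← Finset.card_union_of_disjoint, ← Finset.card_union_of_disjoint]
    · congr 1
      ext v
      simp only [mem_union, hPm, hQm, hRm, mem_supp]
      by_cases h : v ∈ D <;> by_cases h' : m v ∈ D <;> simp [h, h']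
    · rw [Finset.disjoint_left]
      intro v h1 h2
      simp only [mem_union, hPm, hQm, hRm] at h1 h2
      rcases h1 with h1 | h1
      · exact h1.2 h2.1
      · exact h2.2.2 h1.2.2
    · rw [Finset.disjoint_left]
      intro v h1 h2
      simp only [hPm, hRm] at h1 h2
      exact h1.2 h2.1
  have F4b : (univ \ D).card = R.card + W.card := by
    rw [← Finset.card_union_of_disjoint]
    · congr 1
      ext v
      simp only [mem_union, hWm, hRm, mem_sdiff, mem_univ, true_and]
      by_cases h : v ∈ D <;> by_cases h' : m v = v <;> simp [h, h']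
    · rw [Finset.disjoint_left]
      intro v h1 h2
      simp only [hWm, hRm] at h1 h2
      exact h1.1 h2.1
  have F5 := E2_le_del hm D
  rw [← hP] at F5
  by_cases hcase : N.card ≤ W.card
  · refine ⟨(D \ N) ∪ W, ?_⟩
    have g1 : E2 H ((D \ N) ∪ W) ≤ E2 H D := by
      apply E2_mono_of
      have key : ∀ a b, a ∈ (D \ N) ∪ W → b ∈ (D \ N) ∪ W → H.Adj a b → a ∈ D := by
        intro a b ha hb hab
        by_contra hcon
        have haW : a ∈ W := by
          rcases mem_union.1 ha with h | h
          · exact absurd (mem_sdiff.1 h).1 hcon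
          · exact h
        rcases mem_union.1 hb with h | h
        · exact (mem_sdiff.1 h).2 ((hNm b).2 ⟨(mem_sdiff.1 h).1, a, haW, hab.symm⟩)
        · exact uncovered_indep hm hmax ((hWm a).1 haW).1 ((hWm b).1 h).1 hab
      intro a b ha hb hab
      exact ⟨key a b ha hb hab, key b a hb ha hab.symm⟩
    have g2 : (univ \ ((D \ N) ∪ W)).card + W.card = (univ \ D).card + N.card := by
      have a1 : ((D \ N) ∪ W).card = (D \ N).card + W.card := by
        apply Finset.card_union_of_disjoint
        rw [Finset.disjoint_left]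
        intro v h1 h2
        exact ((hWm v).1 h2).2 (mem_sdiff.1 h1).1
      have hND : N ⊆ D := by intro v hv; exact ((hNm v).1 hv).1
      have a2 : (D \ N).card + N.card = D.card := by
        rw [Finset.card_sdiff_of_subset hND]
        have := Finset.card_le_card hND
        omega
      have a3 : (univ \ ((D \ N) ∪ W)).card + ((D \ N) ∪ W).card = (univ : Finset V).card := by
        rw [Finset.card_sdiff_of_subset (Finset.subset_univ _)]
        have := Finset.card_le_card (Finset.subset_univ ((D \ N) ∪ W))
        omega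
      have a4 : (univ \ D).card + D.card = (univ : Finset V).card := by
        rw [Finset.card_sdiff_of_subset (Finset.subset_univ _)]
        have := Finset.card_le_card (Finset.subset_univ D)
        omega
      omega
    have g3 : (univ \ ((D \ N) ∪ W)).card ≤ (univ \ D).card := by omega
    have g4 : 2 * k * (univ \ ((D \ N) ∪ W)).card ≤ 2 * k * (univ \ D).card :=
      Nat.mul_le_mul_left _ g3
    have g5 : 2 * (k + 1) * (univ \ ((D \ N) ∪ W)).card =
        2 * k * (univ \ ((D \ N) ∪ W)).card + 2 * (univ \ ((D \ N) ∪ W)).card := by ring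
    omega
  · refine ⟨D, ?_⟩
    have g5 : 2 * (k + 1) * (univ \ D).card = 2 * k * (univ \ D).card + 2 * (univ \ D).card := by
      ring
    omega

theorem main (k : ℕ) : ∀ H : SimpleGraph V, H.CliqueFree 3 →
    ∃ m : Fin k → V → V, (∀ i, IsMat H (m i)) ∧
      (∀ i j v, i ≠ j → m i v = m j v → m i v = v) ∧
      ∃ D : Finset V, 2 * k * (univ \ D).card + E2 H D ≤ 2 * ∑ i, (supp (m i)).card := by
  classical
  induction k with
  | zero =>
    intro H _
    refine ⟨fun i => i.elim0, fun i => i.elim0, fun i => i.elim0, ∅, ?_⟩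
    simp [E2]
  | succ k ih =>
    intro H hH
    obtain ⟨m, hm, hmax⟩ := Finset.exists_max_image (univ.filter (fun m : V → V => IsMat H m))
      (fun m => (supp m).card) ⟨id, by
        simp only [mem_filter, mem_univ, true_and]
        exact ⟨fun _ => rfl, fun v hv => absurd rfl hv⟩⟩
    simp only [mem_filter, mem_univ, true_and] at hm hmax
    obtain ⟨m', h1, h2, D, hD⟩ := ih (del H m) (hH.anti (del_le H m))
    obtain ⟨D', hD'⟩ := step hH hm hmax k D
    refine ⟨Fin.cons m m', ?_, ?_, D', ?_⟩
    · intro i
      refine Fin.cases ?_ ?_ i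
      · exact hm
      · intro j
        exact ⟨(h1 j).inv, fun v hv => ((h1 j).adj v hv).1⟩
    · have key : ∀ (j : Fin k) v, m v = m' j v → m v = v := by
        intro j v h
        by_contra hne
        have := (h1 j).adj v (by rw [← h]; exact hne)
        exact this.2.1 h
      intro i
      refine Fin.cases ?_ ?_ i
      · intro j
        refine Fin.cases ?_ ?_ j
        · intro v h; exact absurd rfl h
        · intro j v _ h
          simp only [Fin.cons_zero, Fin.cons_succ] at h ⊢
          exact key j v h
      · intro i' j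
        refine Fin.cases ?_ ?_ j
        · intro v _ h
          simp only [Fin.cons_zero, Fin.cons_succ] at h ⊢
          rw [h]
          exact key i' v h.symm
        · intro j' v hne h
          simp only [Fin.cons_succ] at h ⊢
          exact h2 i' j' v (fun h' => hne (by rw [h'])) h
    · rw [Fin.sum_univ_succ]
      simp only [Fin.cons_zero, Fin.cons_succ]
      omega

end Pool.Agent.X283.TuzaJoin
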